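import Pool.Agent.Helper19_Pauli2.Lower2
import Pool.Agent.Helper49_Pauli.SelfEn

/-!
# MP_8cfbae_mp: the lower bound
-/

set_option autoImplicit false
set_option linter.unusedSectionVars false

open MeasureTheory Complex ProbabilityTheory

namespace Pool.Agent.Helper19_Pauli2

open Pool.Agent.Helper49_Pauli Pool.Agent.Helper61_Pauli Pool.Agent.Helper75_Pauli.Half

section

variable {cut L : ℝ} (hL : 0 < L) (P : Polarization L) {D : Type} [NormedAddCommGroup D]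
  [InnerProductSpace ℂ D] (F : Bosons (Mode cut L) D) (ri : RI (GG hL P F)) (α : ℝ)

include hL in
theorem freq_ge (i : Mode cut L) : 2 * Real.pi / L ≤ freq L i.1 :=
  Real.le_sqrt_of_sq_le (wave_sq_ge hL (mode_ne i))

theorem ge_two {g0 g1 : X3 → D} (h0 : Nice g0) (h1 : Nice g1) :
    GE (fun y : Mode cut L → ℝ => ‖LT (evy ri y) g0 h0‖ ^ 2 + ‖LT (evy ri y) g1 h1‖ ^ 2) =
      ∫ x, (‖g0 x‖ ^ 2 + ‖g1 x‖ ^ 2) := by
  rw [GE_add (tm_norm ri h0) (tm_norm ri h1), ge_norm, ge_norm,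
    integral_add (int_norm_sq h0) (int_norm_sq h1)]

theorem ge_tt {g0 g1 : X3 → D} (h0 : Nice g0) (h1 : Nice g1) :
    2 * Real.pi / L * GE (fun y : Mode cut L → ℝ => ∑ i, (‖ta hL P F ri h0 i y‖ ^ 2 +
      ‖ta hL P F ri h1 i y‖ ^ 2)) ≤
      ∫ x, ((inner ℂ (g0 x) (fieldEnergy F (g0 x))).re +
        (inner ℂ (g1 x) (fieldEnergy F (g1 x))).re) := by
  rw [GE_sum _ fun i _ => (tm_norm ri _).add (tm_norm ri _)]
  have e1 : ∀ i, GE (fun y : Mode cut L → ℝ => ‖ta hL P F ri h0 i y‖ ^ 2 +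
      ‖ta hL P F ri h1 i y‖ ^ 2) =
      ∫ x, (‖(GG hL P F).a i (g0 x)‖ ^ 2 + ‖(GG hL P F).a i (g1 x)‖ ^ 2) := fun i =>
    ge_two hL P F ri (nice_a (G := GG hL P F) h0 i) (nice_a (G := GG hL P F) h1 i)
  simp only [e1]
  have i1 : ∀ i, Integrable fun x => (‖(GG hL P F).a i (g0 x)‖ ^ 2 +
      ‖(GG hL P F).a i (g1 x)‖ ^ 2) := fun i =>
    (int_norm_sq (nice_a (G := GG hL P F) h0 i)).add
      (int_norm_sq (nice_a (G := GG hL P F) h1 i))
  rw [Finset.mul_sum]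
  have e2 : ∀ x, (inner ℂ (g0 x) (fieldEnergy F (g0 x))).re +
        (inner ℂ (g1 x) (fieldEnergy F (g1 x))).re =
      ∑ i : Mode cut L, freq L i.1 * (‖(GG hL P F).a i (g0 x)‖ ^ 2 +
        ‖(GG hL P F).a i (g1 x)‖ ^ 2) := by
    intro x
    rw [inner_fieldEnergy hL P F, inner_fieldEnergy hL P F, ← Finset.sum_add_distrib]
    exact Finset.sum_congr rfl fun i _ => by ring
  simp only [e2]
  rw [integral_finsetSum _ fun i _ => (i1 i).const_mul _]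
  refine Finset.sum_le_sum fun i _ => ?_
  rw [integral_const_mul]
  refine mul_le_mul_of_nonneg_right (freq_ge hL i) (integral_nonneg fun x => ?_)
  positivity

include hL ri in
/-- the lower bound for one state, in terms of the constants -/
theorem state_main {κ c1 : ℝ} (hα : 0 < α) (hc1 : 0 < c1) (hcut : 0 < cut) (hk : L * cut ≤ κ)
    (h2 : 2 * Real.pi < L * cut)
    (hmag : ∀ (y : Mode cut L → ℝ) (u : NT), c1 * cut ^ 2 * (tt y / (1 + tt y)) * ‖u‖ ^ 2 ≤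
        ∑ j, ‖pj (am α P y) (sm_am α P y) j u‖ ^ 2)
    {psi : X3 → Fin 2 → D} (hpsi : IsState psi) (hn : Pool.Agent.Helper49_Pauli.normSq psi ≠ 0) {K : ℝ} (hK : 0 < K)
    (hE : energy α F P psi ≤ K * cut * Pool.Agent.Helper49_Pauli.normSq psi) :
    c1 * cut ^ 2 ≤ (mk κ + 4 + 4 * (κ / (2 * Real.pi))) * (K + 1) *
      (2 * K * cut + (mk κ + 5 + 3 * (κ / (2 * Real.pi))) * cut * Real.sqrt (K * cut)) := by
  have hπ := Real.pi_pos
  have hκ : 0 < κ := by linarith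
  obtain ⟨g0, hg0⟩ : ∃ g0 : X3 → D, g0 = fun x => psi x 0 := ⟨_, rfl⟩
  obtain ⟨g1, hg1⟩ : ∃ g1 : X3 → D, g1 = fun x => psi x 1 := ⟨_, rfl⟩
  have h0 : Nice g0 := by rw [hg0]; exact isState_iff.1 hpsi 0
  have h1 : Nice g1 := by rw [hg1]; exact isState_iff.1 hpsi 1
  have hyd := yd hL P F ri α h0 h1 hc1 hcut hk h2 hmag
  have eN : Pool.Agent.Helper49_Pauli.normSq psi = ∫ x, (‖g0 x‖ ^ 2 + ‖g1 x‖ ^ 2) := by
    unfold Pool.Agent.Helper49_Pauli.normSq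
    rw [hg0, hg1]
    simp only [Fin.sum_univ_two]
  have eD : (∫ x, ∑ s, ‖dirac α F P psi x s‖ ^ 2) =
      ∫ x, (‖dg0 P F α g0 g1 x‖ ^ 2 + ‖dg1 P F α g0 g1 x‖ ^ 2) := by
    simp only [Fin.sum_univ_two]
    rw [hg0, hg1]
    rfl
  have eH : (∫ x, ∑ s, (inner ℂ (psi x s) (fieldEnergy F (psi x s))).re) =
      ∫ x, ((inner ℂ (g0 x) (fieldEnergy F (g0 x))).re +
        (inner ℂ (g1 x) (fieldEnergy F (g1 x))).re) := by
    rw [hg0, hg1]
    simp only [Fin.sum_univ_two]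
  have hs := Pool.Agent.Helper49_Pauli.symm cut L hL P α hα.le D F psi hpsi
  rw [eD, eH, ← ge_two hL P F ri (nice_dg0 P F α h0 h1) (nice_dg1 P F α h0 h1)] at hs
  rw [eN, ← ge_two hL P F ri h0 h1] at hE
  have hn0 : 0 < Pool.Agent.Helper49_Pauli.normSq psi := lt_of_le_of_ne (Pool.Agent.Helper49_Pauli.normSq_nonneg psi) hn.symm
  rw [eN, ← ge_two hL P F ri h0 h1] at hn0
  have ht := ge_tt hL P F ri h0 h1
  have hT0 : 0 ≤ GE (fun y : Mode cut L → ℝ => ∑ i, (‖ta hL P F ri h0 i y‖ ^ 2 +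
      ‖ta hL P F ri h1 i y‖ ^ 2)) := GE_nonneg fun y => Finset.sum_nonneg fun _ _ => by positivity
  have hD0 : 0 ≤ GE (fun y : Mode cut L → ℝ =>
      ‖LT (evy ri y) (dg0 P F α g0 g1) (nice_dg0 P F α h0 h1)‖ ^ 2 +
      ‖LT (evy ri y) (dg1 P F α g0 g1) (nice_dg1 P F α h0 h1)‖ ^ 2) :=
    GE_nonneg fun y => by positivity
  have hπL : 0 < 2 * Real.pi / L := by positivity
  have k1 := hyd.main (K := K) (C2 := κ / (2 * Real.pi)) hn0 hK (by positivity) (by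
      have := mul_nonneg hπL.le hT0
      unfold ff
      nlinarith) (by
      have h5 : 2 * Real.pi / L * GE (fun y : Mode cut L → ℝ => ∑ i,
          (‖ta hL P F ri h0 i y‖ ^ 2 + ‖ta hL P F ri h1 i y‖ ^ 2)) ≤
          K * cut * GE (fun y : Mode cut L → ℝ => ‖LT (evy ri y) g0 h0‖ ^ 2 +
            ‖LT (evy ri y) g1 h1‖ ^ 2) := by linarith
      have h6 : GE (fun y : Mode cut L → ℝ => ∑ i,
          (‖ta hL P F ri h0 i y‖ ^ 2 + ‖ta hL P F ri h1 i y‖ ^ 2)) ≤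
          L / (2 * Real.pi) * (K * cut * GE (fun y : Mode cut L → ℝ =>
            ‖LT (evy ri y) g0 h0‖ ^ 2 + ‖LT (evy ri y) g1 h1‖ ^ 2)) := by
        have h7 := mul_le_mul_of_nonneg_left h5 (by positivity : 0 ≤ L / (2 * Real.pi))
        refine le_trans (le_of_eq ?_) h7
        field_simp
      refine h6.trans ?_
      have h8 : L / (2 * Real.pi) * cut ≤ κ / (2 * Real.pi) := by
        rw [div_mul_eq_mul_div]
        gcongr
      calc _ = (L / (2 * Real.pi) * cut) * (K * GE (fun y : Mode cut L → ℝ =>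
            ‖LT (evy ri y) g0 h0‖ ^ 2 + ‖LT (evy ri y) g1 h1‖ ^ 2)) := by ring
        _ ≤ κ / (2 * Real.pi) * (K * GE (fun y : Mode cut L → ℝ =>
            ‖LT (evy ri y) g0 h0‖ ^ 2 + ‖LT (evy ri y) g1 h1‖ ^ 2)) := by gcongr
        _ = _ := by ring)
  refine k1.trans ?_
  have hcd := card_le (cut := cut) hL hk hκ
  have hC2 : 0 < κ / (2 * Real.pi) := by positivity
  have hc0 : (0 : ℝ) ≤ Fintype.card (Mode cut L) := Nat.cast_nonneg _
  have hs0 := Real.sqrt_nonneg (K * cut)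
  have hmk := mk_pos κ
  have hm1 : 0 ≤ (mk κ + 4 + 4 * (κ / (2 * Real.pi))) * (K + 1) := by positivity
  gcongr

end

/-- the lower bound -/
theorem lower_state {α κ : ℝ} (hα : 0 < α) (hκ : 2 * Real.pi < κ) :
    ∃ c : ℝ, 0 < c ∧ ∀ cut L : ℝ, 0 < L → 1 ≤ cut → 2 * Real.pi < L * cut → L * cut ≤ κ →
      ∀ (P : Polarization L) (D : Type) [NormedAddCommGroup D] [InnerProductSpace ℂ D]
        (F : Bosons (Mode cut L) D), F.Cyclic → ∀ psi : X3 → Fin 2 → D, IsState psi →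
        Pool.Agent.Helper49_Pauli.normSq psi ≠ 0 → c * cut ^ ((4 / 3) : ℝ) ≤ energy α F P psi / Pool.Agent.Helper49_Pauli.normSq psi := by
  have hπ := Real.pi_pos
  have hκ0 : 0 < κ := by linarith
  obtain ⟨c1, hc1, hmag⟩ := mag_final hα hκ
  obtain ⟨c3, hc3⟩ : ∃ c3, c3 = mk κ + 4 + 4 * (κ / (2 * Real.pi)) := ⟨_, rfl⟩
  obtain ⟨c4, hc4⟩ : ∃ c4, c4 = mk κ + 5 + 3 * (κ / (2 * Real.pi)) := ⟨_, rfl⟩
  have hmk := mk_pos κ
  have p3 : 0 < c3 := by rw [hc3]; positivity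
  have p4 : 0 < c4 := by rw [hc4]; positivity
  obtain ⟨d, hd⟩ : ∃ d, d = min 1 (c1 / (4 * c3 * (2 + c4))) := ⟨_, rfl⟩
  have d0 : 0 < d := by rw [hd]; exact lt_min one_pos (by positivity)
  have d1 : d ≤ 1 := by rw [hd]; exact min_le_left _ _
  have d2 : d ≤ c1 / (4 * c3 * (2 + c4)) := by rw [hd]; exact min_le_right _ _
  refine ⟨d ^ 2, by positivity, fun cut L hL hcut h2 hk P D _ _ F hF psi hpsi hn => ?_⟩
  by_contra hcon
  push Not at hcon
  have hcut0 : 0 < cut := by linarith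
  obtain ⟨ri⟩ := exists_RI hL P F hF
  obtain ⟨t, ht⟩ : ∃ t, t = cut ^ ((1 / 3) : ℝ) := ⟨_, rfl⟩
  have t0 : 0 < t := by rw [ht]; positivity
  have t1 : 1 ≤ t := by rw [ht]; exact Real.one_le_rpow hcut (by norm_num)
  have t3 : cut = t ^ 3 := by
    rw [ht, ← Real.rpow_natCast, ← Real.rpow_mul hcut0.le]
    norm_num
  have t4 : cut ^ ((4 / 3) : ℝ) = t ^ 4 := by
    rw [ht, ← Real.rpow_natCast, ← Real.rpow_mul hcut0.le]
    norm_num
  have hn0 : 0 < Pool.Agent.Helper49_Pauli.normSq psi := lt_of_le_of_ne (Pool.Agent.Helper49_Pauli.normSq_nonneg psi) hn.symm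
  rw [t4, div_lt_iff₀ hn0] at hcon
  have hm := state_main hL P F ri α hα hc1 hcut0 hk h2 (fun y u => hmag cut L hL hcut0 hk P y u)
    hpsi hn (K := d ^ 2 * t) (by positivity) (by
      have e0 : t ^ 4 = t * cut := by
        rw [t3]
        ring
      refine hcon.le.trans (le_of_eq ?_)
      rw [e0]
      ring)
  rw [← hc3, ← hc4, t3] at hm
  have e1 : Real.sqrt (d ^ 2 * t * t ^ 3) = d * t ^ 2 := by
    rw [show d ^ 2 * t * t ^ 3 = (d * t ^ 2) ^ 2 by ring]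
    exact Real.sqrt_sq (by positivity)
  rw [e1] at hm
  have e2 : c3 * (d ^ 2 * t + 1) * (2 * (d ^ 2 * t) * t ^ 3 + c4 * t ^ 3 * (d * t ^ 2)) ≤
      c3 * (2 * t) * (2 * d * t ^ 5 + c4 * d * t ^ 5) := by
    have f1 : d ^ 2 ≤ 1 := by nlinarith
    have f2 : d ^ 2 * t + 1 ≤ 2 * t := by nlinarith
    have f3 : 2 * (d ^ 2 * t) * t ^ 3 + c4 * t ^ 3 * (d * t ^ 2) ≤
        2 * d * t ^ 5 + c4 * d * t ^ 5 := by
      have f4 : d ^ 2 * t ^ 4 ≤ d * t ^ 5 := by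
        have f5 : d ^ 2 ≤ d := by nlinarith
        have f6 : t ^ 4 ≤ t ^ 5 := pow_le_pow_right₀ t1 (by norm_num)
        gcongr
      nlinarith
    gcongr
  have e3 : c3 * (2 * t) * (2 * d * t ^ 5 + c4 * d * t ^ 5) = 2 * c3 * (2 + c4) * d * t ^ 6 := by
    ring
  have e4 : 2 * c3 * (2 + c4) * d ≤ c1 / 2 := by
    have : d * (4 * c3 * (2 + c4)) ≤ c1 := by
      rwa [le_div_iff₀ (by positivity)] at d2
    linarith
  have e5 : c1 * (t ^ 3) ^ 2 = c1 * t ^ 6 := by ring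
  have e6 : 0 < t ^ 6 := by positivity
  rw [e5] at hm
  have e7 : 2 * c3 * (2 + c4) * d * t ^ 6 ≤ c1 / 2 * t ^ 6 :=
    mul_le_mul_of_nonneg_right e4 e6.le
  have e8 : 0 < c1 * t ^ 6 := by positivity
  linarith

end Pool.Agent.Helper19_Pauli2
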