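import Pool.Agent.Helper19_Pauli2.Upper3
import Pool.Agent.Helper19_Pauli2.Lower3

/-!
# MP_8cfbae_mp: the upper bound in small boxes
-/

set_option autoImplicit false
set_option linter.unusedSectionVars false

open MeasureTheory Complex ProbabilityTheory

namespace Pool.Agent.Helper19_Pauli2

open Pool.Agent.Helper49_Pauli Pool.Agent.Helper49_Pauli.Asm Pool.Agent.Helper61_Pauli
  Pool.Agent.Helper75_Pauli.Half

section modes

variable {cut L : ℝ} (hL : 0 < L) (P : Polarization L)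

/-- the vectors of the real modes -/
noncomputable def cm (i : Mode cut L) : X3 := fun j => Real.sqrt (2 / L ^ 3) * P.e i.1 i.2 j

/-- the momenta of the real modes -/
noncomputable def km (i : Mode cut L) : X3 := wave L i.1

theorem abs_sum_le (v : X3) : ∑ j, |v j| ≤ Real.sqrt 3 * Real.sqrt (Pool.Agent.Helper49_Pauli.sq v) := by
  rw [← Real.sqrt_mul (by norm_num)]
  refine Real.le_sqrt_of_sq_le ?_
  have := sum_sq_le3 fun j => |v j|
  simpa [Pool.Agent.Helper49_Pauli.sq, sq_abs] using this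

theorem cm_sum (i : Mode cut L) : ∑ j, |cm P i j| ≤ Real.sqrt 3 * Real.sqrt (2 / L ^ 3) := by
  have h : Pool.Agent.Helper49_Pauli.sq (P.e i.1 i.2) = 1 := by
    have h3 := P.orthonormal i.1 (mode_ne i) i.2 i.2
    rw [if_pos rfl, dot_self] at h3
    exact h3
  have h1 := abs_sum_le (P.e i.1 i.2)
  rw [h, Real.sqrt_one, mul_one] at h1
  have e : ∑ j, |cm P i j| = Real.sqrt (2 / L ^ 3) * ∑ j, |P.e i.1 i.2 j| := by
    rw [Finset.mul_sum]
    refine Finset.sum_congr rfl fun j _ => ?_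
    unfold cm
    rw [abs_mul, abs_of_nonneg (Real.sqrt_nonneg _)]
  rw [e, mul_comm (Real.sqrt 3)]
  exact mul_le_mul_of_nonneg_left h1 (Real.sqrt_nonneg _)

include hL in
theorem inv_le (i : Mode cut L) :
    1 / L ≤ Real.sqrt (Pool.Agent.Helper49_Pauli.sq (wave L i.1)) := by
  have hπ := Real.pi_gt_three
  have h2 : 2 * Real.pi / L ≤ Real.sqrt (Pool.Agent.Helper49_Pauli.sq (wave L i.1)) :=
    Real.le_sqrt_of_sq_le (wave_sq_ge hL (mode_ne i))
  refine le_trans ?_ h2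
  gcongr
  linarith

include hL in
theorem hA_real (α : ℝ) (i : Mode cut L) : bw km α i *
    ((∑ j, |km i j|) * ∑ j, |cm P i j|) ≤ 3 * Real.sqrt α := by
  have hq : 0 < Pool.Agent.Helper49_Pauli.sq (km i) := sqn_wave_pos hL (mode_ne i)
  obtain ⟨w, hw⟩ : ∃ w, w = Real.sqrt (Pool.Agent.Helper49_Pauli.sq (km i)) := ⟨_, rfl⟩
  have hw0 : 0 < w := by rw [hw]; exact Real.sqrt_pos.2 hq
  have hw2 : Pool.Agent.Helper49_Pauli.sq (km i) = w ^ 2 := by rw [hw, Real.sq_sqrt hq.le]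
  have h1 := abs_sum_le (km i)
  have h2 := cm_sum P i
  have hkp : kp L i.1 = Real.sqrt (2 / L ^ 3) / Real.sqrt (2 * w) := by rw [hw]; rfl
  have h3 : 1 / L ≤ w := by rw [hw]; exact inv_le hL i
  have h4 := (kp_le hL i.1).trans h3
  rw [hkp] at h4
  have h5 : 0 < Real.sqrt (2 * w) := Real.sqrt_pos.2 (by positivity)
  unfold bw
  rw [← hw, hw2]
  rw [← hw] at h1
  have h6 : (∑ j, |km i j|) * ∑ j, |cm P i j| ≤
      (Real.sqrt 3 * w) * (Real.sqrt 3 * Real.sqrt (2 / L ^ 3)) :=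
    mul_le_mul h1 h2 (Finset.sum_nonneg fun _ _ => abs_nonneg _) (by positivity)
  have h7 : Real.sqrt 3 * Real.sqrt 3 = 3 := Real.mul_self_sqrt (by norm_num)
  calc Real.sqrt α / (w ^ 2 * Real.sqrt (2 * w)) * ((∑ j, |km i j|) * ∑ j, |cm P i j|) ≤
        Real.sqrt α / (w ^ 2 * Real.sqrt (2 * w)) *
          ((Real.sqrt 3 * w) * (Real.sqrt 3 * Real.sqrt (2 / L ^ 3))) := by gcongr
    _ = (Real.sqrt 3 * Real.sqrt 3) * Real.sqrt α *
          (Real.sqrt (2 / L ^ 3) / Real.sqrt (2 * w)) / w := by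
        field_simp
    _ ≤ (Real.sqrt 3 * Real.sqrt 3) * Real.sqrt α * w / w := by gcongr
    _ = 3 * Real.sqrt α := by
        rw [h7]
        field_simp

include hL in
theorem hB_real (α : ℝ) (h2 : 2 * Real.pi < L * cut) (i : Mode cut L) :
    (∑ j, |cm P i j|) * (Real.sqrt α /
      Real.sqrt (2 * Real.sqrt (Pool.Agent.Helper49_Pauli.sq (km i)))) ≤
      2 * Real.sqrt α * cut := by
  have hq : 0 < Pool.Agent.Helper49_Pauli.sq (km i) := sqn_wave_pos hL (mode_ne i)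
  obtain ⟨w, hw⟩ : ∃ w, w = Real.sqrt (Pool.Agent.Helper49_Pauli.sq (km i)) := ⟨_, rfl⟩
  have hw0 : 0 < w := by rw [hw]; exact Real.sqrt_pos.2 hq
  have h1 := cm_sum P i
  have hkp : kp L i.1 = Real.sqrt (2 / L ^ 3) / Real.sqrt (2 * w) := by rw [hw]; rfl
  have h5 : 0 < Real.sqrt (2 * w) := Real.sqrt_pos.2 (by positivity)
  have h3 : kp L i.1 ≤ cut := by
    refine (kp_le hL i.1).trans ?_
    rw [div_le_iff₀ hL]
    have := Real.pi_gt_three
    linarith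
  have hcut : 0 ≤ cut := (kp_nonneg _).trans h3
  rw [hkp] at h3
  rw [← hw]
  have h7 : Real.sqrt 3 ≤ 2 := by
    rw [Real.sqrt_le_left (by norm_num)]
    norm_num
  calc (∑ j, |cm P i j|) * (Real.sqrt α / Real.sqrt (2 * w)) ≤
        (Real.sqrt 3 * Real.sqrt (2 / L ^ 3)) * (Real.sqrt α / Real.sqrt (2 * w)) := by gcongr
    _ = Real.sqrt 3 * Real.sqrt α * (Real.sqrt (2 / L ^ 3) / Real.sqrt (2 * w)) := by ring
    _ ≤ 2 * Real.sqrt α * cut := by gcongr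

end modes

section bump

theorem exists_bump : ∃ g : X3 → ℝ, ContDiff ℝ (⊤ : ℕ∞) g ∧ HasCompactSupport g ∧
    0 < ∫ x, g x ^ 2 := by
  obtain ⟨b⟩ : Nonempty (ContDiffBump (0 : X3)) := inferInstance
  refine ⟨b, b.contDiff, b.hasCompactSupport, ?_⟩
  refine Continuous.integral_pos_of_hasCompactSupport_nonneg_nonzero (x := 0) ?_ ?_ ?_ ?_
  · exact b.continuous.pow 2
  · exact b.hasCompactSupport.comp_left (g := fun t : ℝ => t ^ 2) (by norm_num)
  · exact fun x => sq_nonneg _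
  · have : b 0 = 1 := b.one_of_mem_closedBall (Metric.mem_closedBall_self b.rIn_pos.le)
    rw [this]
    norm_num

variable {g : X3 → ℝ} (hg : ContDiff ℝ (⊤ : ℕ∞) g) (hc : HasCompactSupport g)

include hg hc in
theorem hh_int : Integrable (hh g) := by
  have h1 : ∀ j, Continuous fun x => fderiv ℝ g x (ee j) := fun j =>
    ((hg.fderiv_right (m := (⊤ : ℕ∞)) (by simp)).clm_apply contDiff_const).continuous
  have h2 : Continuous (g1 g) := by
    unfold g1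
    exact continuous_finsetSum _ fun j _ => (h1 j).abs
  refine Continuous.integrable_of_hasCompactSupport ((hg.continuous.pow 2).add (h2.pow 2)) ?_
  refine HasCompactSupport.intro hc fun x hx => ?_
  have h3 : fderiv ℝ g x = 0 := by
    refine image_eq_zero_of_notMem_tsupport (f := fderiv ℝ g) fun h => hx ?_
    exact tsupport_fderiv_subset ℝ h
  unfold hh g1
  rw [image_eq_zero_of_notMem_tsupport hx, h3]
  simp

include hg hc in
theorem gg_int : Integrable fun x => g x ^ 2 :=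
  Continuous.integrable_of_hasCompactSupport (hg.continuous.pow 2)
    (hc.comp_left (g := fun t : ℝ => t ^ 2) (by norm_num))

end bump

section wfs

variable {ι : Type} [Fintype ι] (k c : ι → X3) (θ : ι → ℝ) (α : ℝ) (g : X3 → ℝ)

theorem wf_eq (y : ι → ℝ) : wf (fun x => (g x : ℂ) • chi)
    (fun i x => (g x : ℂ) • uw k c θ α i x) y = fun x => (g x : ℂ) • (chi + ws k c θ α y x) := by
  funext x
  unfold wf ws
  rw [smul_add, Finset.smul_sum]
  congr 1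
  refine Finset.sum_congr rfl fun i _ => ?_
  rw [smul_comm]

theorem uw_contDiff (i : ι) : ContDiff ℝ (⊤ : ℕ∞) (uw k c θ α i) := by
  unfold uw
  have h1 : ContDiff ℝ (⊤ : ℕ∞) fun x : X3 => Pool.Agent.Helper49_Pauli.ph k θ x i := by
    unfold Pool.Agent.Helper49_Pauli.ph dot
    fun_prop
  have h2 : ContDiff ℝ (⊤ : ℕ∞) fun x : X3 =>
      (((-(bw k α i * Real.sin (Pool.Agent.Helper49_Pauli.ph k θ x i)) : ℝ) : ℂ) * I) := by
    refine ContDiff.mul ?_ contDiff_const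
    exact Complex.ofRealCLM.contDiff.comp (contDiff_const.mul h1.sin).neg
  exact h2.smul contDiff_const

end wfs

theorem num1 {α m m0 t : ℝ} (hα : 0 < α) (hm1 : 0 ≤ m) (hcd : m ≤ m0) (t1 : 1 ≤ t) :
    8 + 8 * (9 * α) * m * (m * t⁻¹) + 4 * (9 * α) * (4 * α * (t ^ 3) ^ 2) * m ^ 2 *
      (3 * m ^ 2 * t⁻¹ ^ 2) ≤
    (8 + 72 * α * m0 ^ 2 + 432 * α ^ 2 * m0 ^ 4 + 36 * α * m0 + 2 * m0 +
      54 * α * m0 ^ 3) * t ^ 4 := by
  have t0 : 0 < t := by linarith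
  have hm0 : 0 ≤ m0 := by linarith
  have e1 : 4 * (9 * α) * (4 * α * (t ^ 3) ^ 2) * m ^ 2 * (3 * m ^ 2 * t⁻¹ ^ 2) =
      432 * α ^ 2 * m ^ 4 * t ^ 4 := by
    field_simp
    ring
  have i1 : t⁻¹ ≤ 1 := inv_le_one_of_one_le₀ t1
  have t4 : 1 ≤ t ^ 4 := one_le_pow₀ t1
  have f1 : 8 * (9 * α) * m * (m * t⁻¹) ≤ 72 * α * m0 ^ 2 * t ^ 4 := by
    calc 8 * (9 * α) * m * (m * t⁻¹) ≤ 8 * (9 * α) * m0 * (m0 * 1) := by gcongr
      _ = 72 * α * m0 ^ 2 * 1 := by ring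
      _ ≤ _ := by gcongr
  have f2 : 432 * α ^ 2 * m ^ 4 * t ^ 4 ≤ 432 * α ^ 2 * m0 ^ 4 * t ^ 4 := by gcongr
  have f3 : 0 ≤ (36 * α * m0 + 2 * m0 + 54 * α * m0 ^ 3) * t ^ 4 := by positivity
  rw [e1]
  nlinarith

theorem num2 {α m m0 t : ℝ} (hα : 0 < α) (hm1 : 0 ≤ m) (hcd : m ≤ m0) (t1 : 1 ≤ t) :
    t ^ 3 * (4 * m * (9 * α)) + t ^ 3 * (2 * (t - 1) ^ 2) * (m * t⁻¹) +
      t ^ 3 * (2 * (t - 1) ^ 2 * (9 * α) * m) * (3 * m ^ 2 * t⁻¹ ^ 2) ≤
    (8 + 72 * α * m0 ^ 2 + 432 * α ^ 2 * m0 ^ 4 + 36 * α * m0 + 2 * m0 +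
      54 * α * m0 ^ 3) * t ^ 4 := by
  have t0 : 0 < t := by linarith
  have hm0 : 0 ≤ m0 := by linarith
  have k1 : (t - 1) ^ 2 ≤ t ^ 2 := by nlinarith
  have t34 : t ^ 3 ≤ t ^ 4 := pow_le_pow_right₀ t1 (by norm_num)
  have f1 : t ^ 3 * (4 * m * (9 * α)) ≤ 36 * α * m0 * t ^ 4 := by
    calc t ^ 3 * (4 * m * (9 * α)) ≤ t ^ 4 * (4 * m0 * (9 * α)) := by gcongr
      _ = _ := by ring
  have f2 : t ^ 3 * (2 * (t - 1) ^ 2) * (m * t⁻¹) ≤ 2 * m0 * t ^ 4 := by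
    calc t ^ 3 * (2 * (t - 1) ^ 2) * (m * t⁻¹) ≤ t ^ 3 * (2 * t ^ 2) * (m0 * t⁻¹) := by gcongr
      _ = _ := by field_simp
  have f3 : t ^ 3 * (2 * (t - 1) ^ 2 * (9 * α) * m) * (3 * m ^ 2 * t⁻¹ ^ 2) ≤
      54 * α * m0 ^ 3 * t ^ 4 := by
    calc t ^ 3 * (2 * (t - 1) ^ 2 * (9 * α) * m) * (3 * m ^ 2 * t⁻¹ ^ 2) ≤
          t ^ 3 * (2 * t ^ 2 * (9 * α) * m0) * (3 * m0 ^ 2 * t⁻¹ ^ 2) := by gcongr
      _ = 54 * α * m0 ^ 3 * t ^ 3 := by
          field_simp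
          ring
      _ ≤ _ := by gcongr
  have f4 : 0 ≤ (8 + 72 * α * m0 ^ 2 + 432 * α ^ 2 * m0 ^ 4) * t ^ 4 := by positivity
  nlinarith

theorem fin {g : X3 → ℝ} {Z : ℝ} (ρ C' : ℝ) {t v : ℝ} (hgp : 0 < ∫ x, g x ^ 2) (hZ : 0 < Z)
    (hρ : ρ = (∫ x, hh g x) / ∫ x, g x ^ 2) (hv : v ≤ C' * t ^ 4) :
    Z * (∫ x, hh g x) * v ≤ ρ * C' * t ^ 4 * (Z * ∫ x, g x ^ 2) := by
  have h1 : ∫ x, hh g x = ρ * ∫ x, g x ^ 2 := by
    rw [hρ]
    field_simp
  have h2 : 0 ≤ ∫ x, hh g x := integral_nonneg (hh_nonneg g)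
  calc Z * (∫ x, hh g x) * v ≤ Z * (∫ x, hh g x) * (C' * t ^ 4) := by gcongr
    _ = _ := by rw [h1]; ring

/-- the upper bound for one state, with constants -/
theorem upper_gen {α : ℝ} (hα : 0 < α) :
    ∃ ρ : ℝ, 0 < ρ ∧ ∀ cut L m0 : ℝ, 0 < L → 1 ≤ cut → 2 * Real.pi < L * cut → 0 < m0 →
      (Fintype.card (Mode cut L) : ℝ) ≤ m0 →
      ∀ (P : Polarization L) (D : Type) [NormedAddCommGroup D] [InnerProductSpace ℂ D]
        (F : Bosons (Mode cut L) D), ∃ psi : X3 → Fin 2 → D, IsState psi ∧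
        0 < Pool.Agent.Helper49_Pauli.normSq psi ∧
        energy α F P psi ≤ 16 * (ρ * (8 + 72 * α * m0 ^ 2 + 432 * α ^ 2 * m0 ^ 4 +
          36 * α * m0 + 2 * m0 + 54 * α * m0 ^ 3)) * cut ^ ((4 / 3) : ℝ) *
          Pool.Agent.Helper49_Pauli.normSq psi := by
  obtain ⟨g, hg, hgc, hgp⟩ := exists_bump
  obtain ⟨ρ, hρ⟩ : ∃ ρ, ρ = (∫ x, hh g x) / ∫ x, g x ^ 2 := ⟨_, rfl⟩
  have hgi := gg_int hg hgc
  have hhi := hh_int hg hgc
  have hH : ∫ x, g x ^ 2 ≤ ∫ x, hh g x := integral_mono hgi hhi fun x => by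
    unfold hh
    have := sq_nonneg (g1 g x)
    linarith
  have hρ0 : 0 < ρ := by rw [hρ]; exact div_pos (by linarith) hgp
  refine ⟨ρ, hρ0, fun cut L m0 hL hcut h2 hm0p hcd P D _ _ F => ?_⟩
  obtain ⟨C', hC'⟩ : ∃ C', C' = 8 + 72 * α * m0 ^ 2 + 432 * α ^ 2 * m0 ^ 4 +
    36 * α * m0 + 2 * m0 + 54 * α * m0 ^ 3 := ⟨_, rfl⟩
  have hC'0 : 0 < C' := by rw [hC']; positivity
  rw [← hC']
  have hcut0 : 0 < cut := by linarith
  obtain ⟨t, ht⟩ : ∃ t, t = cut ^ ((1 / 3) : ℝ) := ⟨_, rfl⟩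
  have t0 : 0 < t := by rw [ht]; positivity
  have t1 : 1 ≤ t := by rw [ht]; exact Real.one_le_rpow hcut (by norm_num)
  have t3 : cut = t ^ 3 := by
    rw [ht, ← Real.rpow_natCast, ← Real.rpow_mul hcut0.le]
    norm_num
  have t4 : cut ^ ((4 / 3) : ℝ) = t ^ 4 := by
    rw [ht, ← Real.rpow_natCast, ← Real.rpow_mul hcut0.le]
    norm_num
  rw [t4]
  have hκ1 : 0 ≤ t - 1 := by linarith
  obtain ⟨T, Z, hZ, hT, hG⟩ := change (ι := Mode cut L) (t - 1) hκ1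
  obtain ⟨m, hm⟩ : ∃ m : ℝ, m = Fintype.card (Mode cut L) := ⟨_, rfl⟩
  have hm1 : 0 ≤ m := by rw [hm]; exact Nat.cast_nonneg _
  rw [← hm] at hcd
  have hinv : (1 + (t - 1))⁻¹ = t⁻¹ := by ring_nf
  have hA0 : 0 ≤ 3 * Real.sqrt α := by positivity
  have hB0 : 0 ≤ 2 * Real.sqrt α * cut := by positivity
  have hA2 : (3 * Real.sqrt α) ^ 2 = 9 * α := by rw [mul_pow, Real.sq_sqrt hα.le]; ring
  have hB2 : (2 * Real.sqrt α * cut) ^ 2 = 4 * α * cut ^ 2 := by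
    rw [mul_pow, mul_pow, Real.sq_sqrt hα.le]; ring
  have hkm : ∀ i : Mode cut L, 0 < Pool.Agent.Helper49_Pauli.sq (km i) := fun i =>
    sqn_wave_pos hL (mode_ne i)
  have hgC : HasCompactSupport fun x : X3 => (g x : ℂ) :=
    hgc.comp_left (g := fun t : ℝ => (t : ℂ)) (by simp)
  have key := assemble cut L α hL hα.le P D F (Mode cut L) (GG hL P F) km (cm P)
    (fun i => th i.1) hkm (fun x j v => potential_GG hL P F x j v)
    (fun v => fieldEnergy_GG hL P F v) (KK (t - 1)) 0 (KK_symm _) (fun y => by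
      rw [quad_KK]
      have : 0 ≤ ∑ i, y i ^ 2 := Finset.sum_nonneg fun _ _ => sq_nonneg _
      positivity)
    (fun x => (g x : ℂ) • chi) (fun i x => (g x : ℂ) • uw km (cm P) (fun i => th i.1) α i x)
    ((Complex.ofRealCLM.contDiff.comp hg).smul contDiff_const) hgC.smul_right
    (fun i => (Complex.ofRealCLM.contDiff.comp hg).smul (uw_contDiff _ _ _ _ i))
    (fun i => hgC.smul_right)
    (ρ * C' * t ^ 4) (Z * ∫ x, g x ^ 2) (by positivity) (by positivity) ?_ ?_ ?_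
  · obtain ⟨psi, h1, h2, h3⟩ := key
    exact ⟨psi, h1, h2, by linarith⟩
  · simp only [wf_eq]
    have h5 := poly_bound (κ := t - 1) hκ1 hZ hT hG hhi (hh_nonneg g)
      (c0 := 8) (c2 := 8 * (3 * Real.sqrt α) ^ 2 * Fintype.card (Mode cut L))
      (c4 := 4 * (3 * Real.sqrt α) ^ 2 * (2 * Real.sqrt α * cut) ^ 2 *
        Fintype.card (Mode cut L) ^ 2) (by norm_num) (by positivity) (by positivity)
      (Φ := fun y x => nsq (dop (vp α km (cm P) (fun i => th i.1) y)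
        (fun x => (g x : ℂ) • (chi + ws km (cm P) (fun i => th i.1) α y x)) x))
      (fun y x => D_bound km (cm P) _ α g hkm (hA_real hL P α) (hB_real hL P α h2) hB0
        (hg.differentiable (by simp)) y x)
    refine h5.trans (ENNReal.ofReal_le_ofReal ?_)
    rw [← hm, hinv, hA2, hB2]
    refine fin ρ C' hgp hZ hρ ?_
    rw [hC', t3]
    exact num1 hα hm1 hcd t1
  · simp only [wf_eq, ldq_KK]
    have h5 := poly_bound (κ := t - 1) hκ1 hZ hT hG hhi (hh_nonneg g)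
      (c0 := cut * (4 * Fintype.card (Mode cut L) * (3 * Real.sqrt α) ^ 2))
      (c2 := cut * (2 * (t - 1) ^ 2))
      (c4 := cut * (2 * (t - 1) ^ 2 * (3 * Real.sqrt α) ^ 2 * Fintype.card (Mode cut L)))
      (by positivity) (by positivity) (by positivity)
      (Φ := fun y x => ∑ i, Real.sqrt (Pool.Agent.Helper49_Pauli.sq (km i)) *
        nsq ((g x : ℂ) • uw km (cm P) (fun i => th i.1) α i x +
      ((-((t - 1) * y i / 2) : ℝ) : ℂ) • ((g x : ℂ) •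
        (chi + ws km (cm P) (fun i => th i.1) α y x))))
      (fun y x => E_bound km (cm P) _ α g (hA_real hL P α) (fun i => (mem_momenta i.1.2).2.le)
        hcut0.le y x)
    refine h5.trans (ENNReal.ofReal_le_ofReal ?_)
    rw [← hm, hinv, hA2]
    refine fin ρ C' hgp hZ hρ ?_
    rw [hC', t3]
    exact num2 hα hm1 hcd t1
  · simp only [wf_eq]
    exact norm_part km (cm P) (fun i => th i.1) α g hZ hG hg.continuous hgi

/-- the upper bound for one state -/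
theorem upper_state {α κ : ℝ} (hα : 0 < α) (hκ : 2 * Real.pi < κ) :
    ∃ C : ℝ, 0 < C ∧ ∀ cut L : ℝ, 0 < L → 1 ≤ cut → 2 * Real.pi < L * cut → L * cut ≤ κ →
      ∀ (P : Polarization L) (D : Type) [NormedAddCommGroup D] [InnerProductSpace ℂ D]
        (F : Bosons (Mode cut L) D), ∃ psi : X3 → Fin 2 → D, IsState psi ∧
        0 < Pool.Agent.Helper49_Pauli.normSq psi ∧
        energy α F P psi ≤ C * cut ^ ((4 / 3) : ℝ) * Pool.Agent.Helper49_Pauli.normSq psi := by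
  have hπ := Real.pi_pos
  have hκ0 : 0 < κ := by linarith
  obtain ⟨ρ, hρ, h⟩ := upper_gen hα
  have hmk := mk_pos κ
  refine ⟨_, ?_, fun cut L hL hcut h2 hk P D _ _ F =>
    h cut L (mk κ) hL hcut h2 hmk (card_le hL hk hκ0) P D F⟩
  positivity

end Pool.Agent.Helper19_Pauli2
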