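import Pool.Agent.Helper83_Pauli.Symm

/-!
# MP_8cfbae_mp: the pre-Hilbert space of test functions and covariant derivatives
-/

set_option autoImplicit false

open MeasureTheory Complex

namespace Pool.Agent.Helper19_Pauli2

open Pool.Agent.Helper49_Pauli

/-- smooth compactly supported functions, as a submodule -/
def NS : Submodule ℂ (X3 → ℂ) where
  carrier := {f | ContDiff ℝ (⊤ : ℕ∞) f ∧ HasCompactSupport f}
  add_mem' := fun hf hg => ⟨hf.1.add hg.1, hf.2.add hg.2⟩
  zero_mem' := ⟨contDiff_const, HasCompactSupport.zero⟩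
  smul_mem' := fun _ _ hf => ⟨contDiff_const.smul hf.1, hf.2.smul_left⟩

/-- the space of test functions -/
def NT : Type := NS

noncomputable instance : AddCommGroup NT := inferInstanceAs (AddCommGroup NS)
noncomputable instance : Module ℂ NT := inferInstanceAs (Module ℂ NS)

/-- the underlying function -/
def NT.fn (f : NT) : X3 → ℂ := (show NS from f).1

theorem NT.smooth (f : NT) : ContDiff ℝ (⊤ : ℕ∞) f.fn := (show NS from f).2.1
theorem NT.cpt (f : NT) : HasCompactSupport f.fn := (show NS from f).2.2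

/-- constructor -/
def NT.mk (f : X3 → ℂ) (h1 : ContDiff ℝ (⊤ : ℕ∞) f) (h2 : HasCompactSupport f) : NT :=
  (⟨f, h1, h2⟩ : NS)

@[simp] theorem NT.fn_mk (f : X3 → ℂ) (h1 : ContDiff ℝ (⊤ : ℕ∞) f) (h2 : HasCompactSupport f) :
    (NT.mk f h1 h2).fn = f := rfl

theorem NT.ext {f g : NT} (h : ∀ x, f.fn x = g.fn x) : f = g :=
  Subtype.ext (funext h)

@[simp] theorem NT.fn_add (f g : NT) (x : X3) : (f + g).fn x = f.fn x + g.fn x := rfl
@[simp] theorem NT.fn_smul (c : ℂ) (f : NT) (x : X3) : (c • f).fn x = c * f.fn x := rfl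
@[simp] theorem NT.fn_zero (x : X3) : (0 : NT).fn x = 0 := rfl
@[simp] theorem NT.fn_neg (f : NT) (x : X3) : (-f).fn x = -f.fn x := rfl
@[simp] theorem NT.fn_sub (f g : NT) (x : X3) : (f - g).fn x = f.fn x - g.fn x := rfl

theorem NT.nice (f : NT) : Nice f.fn :=
  ⟨f.smooth, f.cpt, ⊤, inferInstance, fun _ => Submodule.mem_top⟩

theorem NT.int (f g : NT) : Integrable fun x => (inner ℂ (f.fn x) (g.fn x) : ℂ) :=
  f.nice.integrable_inner g.nice

/-- the inner product -/
@[instance_reducible] noncomputable def core : PreInnerProductSpace.Core ℂ NT where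
  inner f g := ∫ x, (inner ℂ (f.fn x) (g.fn x) : ℂ)
  conj_inner_symm f g := by
    rw [← integral_conj]
    refine integral_congr_ae (Filter.Eventually.of_forall fun x => ?_)
    exact inner_conj_symm _ _
  re_inner_nonneg f := by
    have h := integral_re (f.int f)
    rw [← h]
    exact integral_nonneg fun x => inner_self_nonneg
  add_left f g h := by
    rw [← integral_add (f.int h) (g.int h)]
    refine integral_congr_ae (Filter.Eventually.of_forall fun x => ?_)
    simp only [NT.fn_add]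
    exact inner_add_left _ _ _
  smul_left f g c := by
    rw [← integral_const_mul]
    refine integral_congr_ae (Filter.Eventually.of_forall fun x => ?_)
    simp only [NT.fn_smul]
    exact inner_smul_left _ _ _

noncomputable instance : SeminormedAddCommGroup NT :=
  @InnerProductSpace.Core.toSeminormedAddCommGroup ℂ NT _ _ _ core

noncomputable instance : InnerProductSpace ℂ NT := InnerProductSpace.ofCore core

theorem inner_def' (f g : NT) : (inner ℂ f g : ℂ) = ∫ x, (inner ℂ (f.fn x) (g.fn x) : ℂ) := rfl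

theorem norm_sq_def (f : NT) : ‖f‖ ^ 2 = ∫ x, ‖f.fn x‖ ^ 2 := by
  rw [@norm_sq_eq_re_inner ℂ NT, inner_def', ← integral_re (f.int f)]
  refine integral_congr_ae (Filter.Eventually.of_forall fun x => ?_)
  exact inner_self_eq_norm_sq (𝕜 := ℂ) _

/-- partial derivative -/
noncomputable def dv (j : Fin 3) : NT →ₗ[ℂ] NT where
  toFun f := NT.mk (fun x => fderiv ℝ f.fn x (Pi.single j 1)) (f.nice.deriv _).1 (f.nice.deriv _).2.1
  map_add' f g := by
    refine NT.ext fun x => ?_
    simp only [NT.fn_mk, NT.fn_add]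
    have h : (f + g).fn = f.fn + g.fn := rfl
    rw [h, fderiv_add (f.smooth.differentiable (by simp) x) (g.smooth.differentiable (by simp) x)]
    rfl
  map_smul' c f := by
    refine NT.ext fun x => ?_
    simp only [NT.fn_mk, NT.fn_smul, RingHom.id_apply]
    have h : (c • f).fn = c • f.fn := rfl
    rw [h, fderiv_const_smul (f.smooth.differentiable (by simp) x) c]
    rfl

@[simp] theorem dv_fn (j : Fin 3) (f : NT) (x : X3) :
    (dv j f).fn x = fderiv ℝ f.fn x (Pi.single j 1) := rfl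

/-- smooth real functions -/
def Sm (a : X3 → ℝ) : Prop := ContDiff ℝ (⊤ : ℕ∞) a

theorem Sm.toC {a : X3 → ℝ} (ha : Sm a) : ContDiff ℝ (⊤ : ℕ∞) fun x => ((a x : ℝ) : ℂ) :=
  Complex.ofRealCLM.contDiff.comp ha

/-- multiplication by a smooth real function -/
noncomputable def ml (a : X3 → ℝ) (ha : Sm a) : NT →ₗ[ℂ] NT where
  toFun f := NT.mk (fun x => (a x : ℂ) * f.fn x) (ha.toC.mul f.smooth) f.cpt.mul_left
  map_add' f g := by
    refine NT.ext fun x => ?_
    simp only [NT.fn_mk, NT.fn_add]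
    ring
  map_smul' c f := by
    refine NT.ext fun x => ?_
    simp only [NT.fn_mk, NT.fn_smul, RingHom.id_apply]
    ring

@[simp] theorem ml_fn (a : X3 → ℝ) (ha : Sm a) (f : NT) (x : X3) :
    (ml a ha f).fn x = (a x : ℂ) * f.fn x := rfl

theorem ml_symm (a : X3 → ℝ) (ha : Sm a) (f g : NT) :
    (inner ℂ f (ml a ha g) : ℂ) = inner ℂ (ml a ha f) g := by
  rw [inner_def', inner_def']
  refine integral_congr_ae (Filter.Eventually.of_forall fun x => ?_)
  simp only [ml_fn, RCLike.inner_apply, map_mul, Complex.conj_ofReal]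
  ring

theorem dv_symm (j : Fin 3) (f g : NT) :
    (inner ℂ f (dv j g) : ℂ) = -inner ℂ (dv j f) g := by
  rw [inner_def', inner_def']
  exact f.nice.integral_inner_deriv g.nice _

/-- derivative of the multiplier -/
noncomputable def dmul (a : X3 → ℝ) (j : Fin 3) : X3 → ℝ := fun x => fderiv ℝ a x (Pi.single j 1)

theorem Sm.dmul {a : X3 → ℝ} (ha : Sm a) (j : Fin 3) : Sm (dmul a j) :=
  (ContDiff.fderiv_right (m := (⊤ : ℕ∞)) ha (by simp)).clm_apply contDiff_const

theorem dv_ml (a : X3 → ℝ) (ha : Sm a) (j : Fin 3) (f : NT) :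
    dv j (ml a ha f) = ml a ha (dv j f) + ml (dmul a j) (ha.dmul j) f := by
  refine NT.ext fun x => ?_
  simp only [dv_fn, ml_fn, NT.fn_add]
  have h1 : HasFDerivAt a (fderiv ℝ a x) x :=
    (ha.differentiable (by simp) x).hasFDerivAt
  have h2 : HasFDerivAt f.fn (fderiv ℝ f.fn x) x :=
    (f.smooth.differentiable (by simp) x).hasFDerivAt
  have h3 : HasFDerivAt (fun x => ((a x : ℝ) : ℂ)) (Complex.ofRealCLM.comp (fderiv ℝ a x)) x :=
    Complex.ofRealCLM.hasFDerivAt.comp x h1
  have h4 := h3.mul h2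
  have h5 : (ml a ha f).fn = fun x => ((a x : ℝ) : ℂ) * f.fn x := rfl
  rw [h5]
  have h6 : fderiv ℝ (fun x => ((a x : ℝ) : ℂ) * f.fn x) x =
      ((a x : ℝ) : ℂ) • fderiv ℝ f.fn x + f.fn x • (Complex.ofRealCLM.comp (fderiv ℝ a x)) :=
    h4.fderiv
  rw [h6]
  simp only [add_apply, smul_apply,
    ContinuousLinearMap.comp_apply, Complex.ofRealCLM_apply, smul_eq_mul, dmul]
  ring

theorem ml_ml (a b : X3 → ℝ) (ha : Sm a) (hb : Sm b) (f : NT) :
    ml a ha (ml b hb f) = ml b hb (ml a ha f) := by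
  refine NT.ext fun x => ?_
  simp only [ml_fn]
  ring

theorem dv_dv (j k : Fin 3) (f : NT) : dv j (dv k f) = dv k (dv j f) := by
  refine NT.ext fun x => ?_
  simp only [dv_fn]
  have hd : Differentiable ℝ (fderiv ℝ f.fn) :=
    (f.smooth.fderiv_right (m := (⊤ : ℕ∞)) (by simp)).differentiable (by simp)
  have h1 : ∀ (v w : X3), fderiv ℝ (fun y => fderiv ℝ f.fn y v) x w =
      fderiv ℝ (fderiv ℝ f.fn) x w v := by
    intro v w
    rw [fderiv_clm_apply (hd x) (differentiableAt_const v)]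
    simp
  have e1 : (dv k f).fn = fun y => fderiv ℝ f.fn y (Pi.single k 1) := rfl
  have e2 : (dv j f).fn = fun y => fderiv ℝ f.fn y (Pi.single j 1) := rfl
  rw [e1, e2, h1, h1]
  have hs : IsSymmSndFDerivAt ℝ f.fn x :=
    (f.smooth.contDiffAt (x := x)).isSymmSndFDerivAt
      (by rw [minSmoothness_of_isRCLikeNormedField]; exact WithTop.coe_le_coe.2 (le_top : (2 : ℕ∞) ≤ ⊤))
  exact hs _ _

/-- covariant derivative -/
noncomputable def pj (a : Fin 3 → X3 → ℝ) (ha : ∀ j, Sm (a j)) (j : Fin 3) : NT →ₗ[ℂ] NT :=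
  (-I) • dv j + ml (a j) (ha j)

theorem pj_apply (a : Fin 3 → X3 → ℝ) (ha : ∀ j, Sm (a j)) (j : Fin 3) (f : NT) :
    pj a ha j f = (-I) • dv j f + ml (a j) (ha j) f := rfl

theorem pj_symm (a : Fin 3 → X3 → ℝ) (ha : ∀ j, Sm (a j)) (j : Fin 3) (f g : NT) :
    (inner ℂ f (pj a ha j g) : ℂ) = inner ℂ (pj a ha j f) g := by
  rw [pj_apply, pj_apply, inner_add_right, inner_add_left, inner_smul_right, inner_smul_left,
    dv_symm, ml_symm, map_neg, Complex.conj_I]
  ring

theorem pj_ml (a : Fin 3 → X3 → ℝ) (ha : ∀ j, Sm (a j)) (b : X3 → ℝ) (hb : Sm b) (j : Fin 3)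
    (f : NT) : pj a ha j (ml b hb f) = ml b hb (pj a ha j f) + (-I) • ml (dmul b j) (hb.dmul j) f := by
  rw [pj_apply, pj_apply, dv_ml, map_add, map_smul, ml_ml]
  module

theorem pj_comm (a : Fin 3 → X3 → ℝ) (ha : ∀ j, Sm (a j)) (j k : Fin 3) (f : NT) :
    pj a ha j (pj a ha k f) - pj a ha k (pj a ha j f) =
      (-I) • (ml (dmul (a k) j) ((ha k).dmul j) f - ml (dmul (a j) k) ((ha j).dmul k) f) := by
  simp only [pj_apply, map_add, map_smul, dv_ml, dv_dv k j, ml_ml (a k) (a j)]
  module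

/-- the basic identity for the commutator -/
theorem pj_pair (a : Fin 3 → X3 → ℝ) (ha : ∀ j, Sm (a j)) (j k : Fin 3) (f g : NT) :
    (inner ℂ (pj a ha j f) (pj a ha k g) : ℂ) - inner ℂ (pj a ha k f) (pj a ha j g) =
      -I * (inner ℂ f (ml (dmul (a k) j) ((ha k).dmul j) g) -
        inner ℂ f (ml (dmul (a j) k) ((ha j).dmul k) g)) := by
  rw [← pj_symm, ← pj_symm, ← inner_sub_right, pj_comm, inner_smul_right, inner_sub_right]

end Pool.Agent.Helper19_Pauli2
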