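import Pool.Agent.Helper19_Pauli2.Upper4

/-!
# MP_8cfbae_mp: the exact order of the self-energy in boxes of the size of the wave length
-/

set_option autoImplicit false

namespace Pool.Agent.Helper19_Pauli2

open Pool.Agent.Helper49_Pauli

theorem micro (alpha : ℝ) (halpha : 0 < alpha) (kappa : ℝ) (hkappa : 2 * Real.pi < kappa) :
    ∃ c C : ℝ, 0 < c ∧ 0 < C ∧ ∀ cut L : ℝ, 1 ≤ cut → 0 < L → 2 * Real.pi < L * cut →
      L * cut ≤ kappa →
      ∀ (P : Polarization L) (D : Type) [NormedAddCommGroup D] [InnerProductSpace ℂ D]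
        (F : Bosons (Mode cut L) D),
        selfEnergy alpha F P ≤ C * cut ^ ((4 / 3) : ℝ) ∧
        (F.Cyclic → c * cut ^ ((4 / 3) : ℝ) ≤ selfEnergy alpha F P) := by
  obtain ⟨c, hc, h1⟩ := lower_state halpha hkappa
  obtain ⟨C, hC, h2⟩ := upper_state halpha hkappa
  refine ⟨c, C, hc, hC, fun cut L hcut hL hl hk P D _ _ F => ?_⟩
  obtain ⟨psi, p1, p2, p3⟩ := h2 cut L hL hcut hl hk P D F
  refine ⟨selfEnergy_le Pool.Agent.Helper49_Pauli.symm hL P halpha.le F p1 p2 p3, fun hF => ?_⟩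
  refine le_csInf ⟨_, psi, p1, p2.ne', rfl⟩ ?_
  rintro E ⟨psi', q1, q2, rfl⟩
  exact h1 cut L hL hcut hl hk P D F hF psi' q1 q2

end Pool.Agent.Helper19_Pauli2
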