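import Pool.Agent.Helper19_Pauli2.Rep

/-!
# MP_8cfbae_mp: the lower bound for one state
-/

set_option autoImplicit false
set_option linter.unusedSectionVars false

open MeasureTheory Complex ProbabilityTheory

namespace Pool.Agent.Helper19_Pauli2

open Pool.Agent.Helper49_Pauli Pool.Agent.Helper61_Pauli Pool.Agent.Helper75_Pauli.Half

section general

variable {ι : Type} [Fintype ι] [DecidableEq ι] {D : Type} [NormedAddCommGroup D]
  [InnerProductSpace ℂ D] {G : Bosons ι D} (ri : RI G)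

theorem tm_pair {g h : X3 → D} (hg : Nice g) (hh : Nice h) (c : ℂ) :
    Tm fun y : ι → ℝ => (c * (inner ℂ (LT (evy ri y) g hg) (LT (evy ri y) h hh) : ℂ)).re := by
  obtain ⟨p, h1, _, _⟩ := pairing ri hg hh
  have := tm_evr (MvPolynomial.C c * p)
  simp only [map_mul, evr_C] at this
  simpa only [h1] using this

theorem re_self (f : NT) : (inner ℂ f f : ℂ).re = ‖f‖ ^ 2 :=
  (norm_sq_eq_re_inner (𝕜 := ℂ) f).symm

theorem tm_norm {g : X3 → D} (hg : Nice g) : Tm fun y : ι → ℝ => ‖LT (evy ri y) g hg‖ ^ 2 := by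
  have := tm_pair ri hg hg 1
  simpa only [one_mul, re_self] using this

theorem diff_pair {g h : X3 → D} (hg : Nice g) (hh : Nice h) :
    Differentiable ℝ fun y : ι → ℝ =>
      (inner ℂ (LT (evy ri y) g hg) (LT (evy ri y) h hh) : ℂ).re := by
  obtain ⟨p, h1, _, _⟩ := pairing ri hg hh
  simp only [h1]
  exact diff_evr p

theorem fderiv_pair {g h : X3 → D} (hg : Nice g) (hh : Nice h) (i : ι) (y : ι → ℝ) :
    fderiv ℝ (fun y : ι → ℝ =>
      (inner ℂ (LT (evy ri y) g hg) (LT (evy ri y) h hh) : ℂ).re) y (Pi.single i 1) =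
      (inner ℂ (LT (evy ri y) _ (nice_a (G := G) hg i)) (LT (evy ri y) h hh) : ℂ).re +
      (inner ℂ (LT (evy ri y) g hg) (LT (evy ri y) _ (nice_a (G := G) hh i)) : ℂ).re := by
  obtain ⟨p, h1, h2, _⟩ := pairing ri hg hh
  simp only [h1]
  rw [fderiv_evr, ← h2, Complex.add_re]

theorem ge_norm {g : X3 → D} (hg : Nice g) :
    GE (fun y : ι → ℝ => ‖LT (evy ri y) g hg‖ ^ 2) = ∫ x, ‖g x‖ ^ 2 := by
  obtain ⟨p, h1, _, h3⟩ := pairing ri hg hg
  have h4 := congrArg Complex.re h3
  rw [EE_re] at h4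
  have h5 := integral_re (hg.integrable_inner hg)
  have e1 : (fun y : ι → ℝ => ‖LT (evy ri y) g hg‖ ^ 2) = fun y => (evr y p).re := by
    funext y
    rw [← h1, re_self]
  rw [e1, ← h4]
  refine Eq.trans h5.symm ?_
  refine integral_congr_ae (Filter.Eventually.of_forall fun x => ?_)
  exact inner_self_eq_norm_sq (𝕜 := ℂ) _

theorem int_norm_sq {g : X3 → D} (hg : Nice g) : Integrable fun x => ‖g x‖ ^ 2 := by
  refine (hg.integrable_inner hg).re.congr (Filter.Eventually.of_forall fun x => ?_)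
  exact inner_self_eq_norm_sq (𝕜 := ℂ) _

/-- Cauchy-Schwarz for two components -/
theorem cs2 (u0 u1 v0 v1 : NT) : ((inner ℂ u0 v0 : ℂ) + inner ℂ u1 v1).re ^ 2 ≤
    (‖u0‖ ^ 2 + ‖u1‖ ^ 2) * (‖v0‖ ^ 2 + ‖v1‖ ^ 2) := by
  have h1 : |((inner ℂ u0 v0 : ℂ) + inner ℂ u1 v1).re| ≤ ‖u0‖ * ‖v0‖ + ‖u1‖ * ‖v1‖ :=
    (Complex.abs_re_le_norm _).trans ((norm_add_le _ _).trans
      (add_le_add (norm_inner_le_norm _ _) (norm_inner_le_norm _ _)))
  have h2 : ((inner ℂ u0 v0 : ℂ) + inner ℂ u1 v1).re ^ 2 ≤ (‖u0‖ * ‖v0‖ + ‖u1‖ * ‖v1‖) ^ 2 := by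
    rw [← sq_abs]
    gcongr
  nlinarith [sq_nonneg (‖u0‖ * ‖v1‖ - ‖u1‖ * ‖v0‖)]

theorem sum_cs (b X T : ι → ℝ) (q : ℝ)
    (h : ∀ i, X i ^ 2 ≤ T i * q) : (∑ i, b i * X i) ^ 2 ≤ (∑ i, b i ^ 2) * ((∑ i, T i) * q) := by
  refine (Finset.sum_mul_sq_le_sq_mul_sq Finset.univ b X).trans ?_
  have h1 : ∑ i, X i ^ 2 ≤ (∑ i, T i) * q := by
    rw [Finset.sum_mul]
    exact Finset.sum_le_sum fun i _ => h i
  exact mul_le_mul_of_nonneg_left h1 (Finset.sum_nonneg fun _ _ => sq_nonneg _)

theorem fderiv_a {g : X3 → D} (hg : Nice g) (i : ι) (x v : X3) :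
    G.a i (fderiv ℝ g x v) = fderiv ℝ (fun x => G.a i (g x)) x v := by
  obtain ⟨n, w, c, h⟩ := nice_dec hg
  have h1 : HasFDerivAt g (∑ l, (fderiv ℝ (c l).fn x).smulRight (w l)) x := by
    have h2 : g = fun x => ∑ l, (c l).fn x • w l := funext h
    rw [h2]
    refine HasFDerivAt.fun_sum fun l _ => ?_
    exact (((c l).smooth.differentiable (by simp) x).hasFDerivAt).smul_const (w l)
  have h3 : HasFDerivAt (fun x => G.a i (g x))
      (∑ l, (fderiv ℝ (c l).fn x).smulRight (G.a i (w l))) x := by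
    have h2 : (fun x => G.a i (g x)) = fun x => ∑ l, (c l).fn x • G.a i (w l) := by
      funext x
      rw [h, map_sum]
      exact Finset.sum_congr rfl fun l _ => map_smul _ _ _
    rw [h2]
    refine HasFDerivAt.fun_sum fun l _ => ?_
    exact (((c l).smooth.differentiable (by simp) x).hasFDerivAt).smul_const (G.a i (w l))
  rw [h1.fderiv, h3.fderiv, sum_apply, sum_apply, map_sum]
  refine Finset.sum_congr rfl fun l _ => ?_
  rw [ContinuousLinearMap.smulRight_apply, ContinuousLinearMap.smulRight_apply, map_smul]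

theorem ml_LT (T : D →ₗ[ℂ] ℂ) (b : X3 → ℝ) (hb : Sm b) (g : X3 → D) (hg : Nice g)
    (hbg : Nice fun x => (b x : ℂ) • g x) :
    ml b hb (LT T g hg) = LT T (fun x => (b x : ℂ) • g x) hbg :=
  NT.ext fun x => by simp only [LT_fn, ml_fn, map_smul, smul_eq_mul]

end general

section modes

variable {cut L : ℝ} (hL : 0 < L) (P : Polarization L) {D : Type} [NormedAddCommGroup D]
  [InnerProductSpace ℂ D] (F : Bosons (Mode cut L) D)

/-- the real modes -/
noncomputable def GG : Bosons (Mode cut L) D := rot F (U P) (unitary hL P)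

theorem potential_GG (x : X3) (j : Fin 3) (v : D) : potential F P x j v =
    ∑ i, ((cf P x j i : ℝ) : ℂ) • ((GG hL P F).a i v + (GG hL P F).ad i v) := by
  have e1 : ∀ i, (GG hL P F).a i v = ∑ m, U P i m • F.a m v := by
    intro i
    change (∑ m, U P i m • F.a m) v = _
    rw [LinearMap.sum_apply]; rfl
  have e2 : ∀ i, (GG hL P F).ad i v =
      ∑ m, (starRingEnd ℂ) (U P i m) • F.ad m v := by
    intro i
    change (∑ m, (starRingEnd ℂ) (U P i m) • F.ad m) v = _
    rw [LinearMap.sum_apply]; rfl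
  simp_rw [e1, e2, smul_add, Finset.smul_sum, ← mul_smul]
  rw [Finset.sum_add_distrib, Finset.sum_comm, Finset.sum_comm (f := fun (i m : Mode cut L) =>
    (((cf P x j i : ℝ) : ℂ) * (starRingEnd ℂ) (U P i m)) • F.ad m v)]
  rw [← Finset.sum_add_distrib]
  unfold potential
  refine Finset.sum_congr rfl fun m _ => ?_
  rw [← Finset.sum_smul, ← Finset.sum_smul, coef_sum hL, smul_add, ← mul_smul, ← mul_smul]
  congr 2
  have := congrArg (starRingEnd ℂ) (coef_sum (cut := cut) hL P x j m)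
  rw [map_sum] at this
  simp_rw [map_mul, Complex.conj_ofReal] at this
  rw [this]
  congr 1
  rw [← Complex.exp_conj, map_mul, Complex.conj_ofReal, Complex.conj_I, neg_mul]

theorem fieldEnergy_GG (v : D) : fieldEnergy F v =
    ∑ i, (freq L i.1 : ℂ) • (GG hL P F).ad i ((GG hL P F).a i v) :=
  (rot_energy F (U P) (unitary hL P) (fun i => (freq L i.1 : ℂ))
    (fun i j h => by rw [U_freq P i j h]) v).symm

theorem inner_fieldEnergy (v : D) : (inner ℂ v (fieldEnergy F v)).re =
    ∑ i, freq L i.1 * ‖(GG hL P F).a i v‖ ^ 2 := by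
  rw [fieldEnergy_GG hL P F, inner_sum, Complex.re_sum]
  refine Finset.sum_congr rfl fun i _ => ?_
  rw [inner_smul_right]
  have h : inner ℂ v ((GG hL P F).ad i ((GG hL P F).a i v)) =
      ((‖(GG hL P F).a i v‖ ^ 2 : ℝ) : ℂ) := by
    rw [← inner_conj_symm, (GG hL P F).adj, inner_self_eq_norm_sq_to_K]
    simp
  rw [h, ← Complex.ofReal_mul, Complex.ofReal_re]

theorem surj_GG (hF : F.Cyclic) (v : D) : ∃ p, JJ (GG hL P F) p = v := by
  have h := hF (LinearMap.range (JJ (GG hL P F))) ⟨1, JJ_one _⟩ ?_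
  · have : v ∈ (⊤ : Submodule ℂ D) := Submodule.mem_top
    rw [← h] at this
    exact this
  · rintro m _ ⟨p, rfl⟩
    have h1 : ∀ i, (GG hL P F).ad i (JJ (GG hL P F) p) ∈ LinearMap.range (JJ (GG hL P F)) := by
      intro i
      refine ⟨MvPolynomial.X i * p - MvPolynomial.pderiv i p, ?_⟩
      rw [map_sub, JJ_X, ← a_JJ]
      abel
    have h2 : F.ad m (JJ (GG hL P F) p) =
        ∑ i, U P i m • (GG hL P F).ad i (JJ (GG hL P F) p) := by
      have e2 : ∀ i, (GG hL P F).ad i (JJ (GG hL P F) p) =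
          ∑ m', (starRingEnd ℂ) (U P i m') • F.ad m' (JJ (GG hL P F) p) := by
        intro i
        change (∑ m, (starRingEnd ℂ) (U P i m) • F.ad m) _ = _
        rw [LinearMap.sum_apply]; rfl
      simp_rw [e2, Finset.smul_sum, ← mul_smul]
      rw [Finset.sum_comm]
      simp_rw [← Finset.sum_smul]
      have hU : (U P).conjTranspose * U P = 1 := mul_eq_one_comm.mp (unitary (cut := cut) hL P)
      have h3 : ∀ m', ∑ i, U P i m * (starRingEnd ℂ) (U P i m') = if m' = m then 1 else 0 := by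
        intro m'
        have := congrFun (congrFun hU m') m
        rw [Matrix.mul_apply, Matrix.one_apply] at this
        rw [← this]
        refine Finset.sum_congr rfl fun i _ => ?_
        rw [Matrix.conjTranspose_apply, mul_comm]
        rfl
      simp_rw [h3]
      simp
    rw [h2]
    exact Submodule.sum_mem _ fun i _ => Submodule.smul_mem _ _ (h1 i)

theorem exists_RI (hF : F.Cyclic) : Nonempty (RI (GG hL P F)) := by
  obtain ⟨T, hT⟩ := (JJ (GG hL P F)).exists_rightInverse_of_surjective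
    (LinearMap.range_eq_top.2 fun v => surj_GG hL P F hF v)
  exact ⟨⟨T, fun v => LinearMap.congr_fun hT v⟩⟩

/-- one component of the covariant derivative -/
noncomputable def cvD (α : ℝ) (j : Fin 3) (g : X3 → D) : X3 → D := fun x =>
  (-I) • fderiv ℝ g x (Pi.single j 1) + (Real.sqrt α : ℂ) • potential F P x j (g x)

theorem nice_cvD (α : ℝ) (j : Fin 3) {g : X3 → D} (hg : Nice g) : Nice (cvD P F α j g) :=
  hg.cov α F P j

variable (ri : RI (GG hL P F))

theorem evy_potential (y : Mode cut L → ℝ) (x : X3) (j : Fin 3) (v : D) :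
    evy ri y (potential F P x j v) = (Af P y j x : ℂ) * evy ri y v := by
  rw [potential_GG hL P F, map_sum]
  unfold Af
  push_cast
  rw [Finset.sum_mul]
  refine Finset.sum_congr rfl fun i _ => ?_
  rw [map_smul, evy_fld, smul_eq_mul]
  ring

theorem LT_cvD (α : ℝ) (y : Mode cut L → ℝ) (j : Fin 3) {g : X3 → D} (hg : Nice g) :
    LT (evy ri y) (cvD P F α j g) (nice_cvD P F α j hg) =
      pj (am α P y) (sm_am α P y) j (LT (evy ri y) g hg) := by
  refine NT.ext fun x => ?_
  have h1 := congrArg (fun f : NT => f.fn x) (LT_deriv (evy ri y) g hg j (hg.deriv _))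
  simp only [LT_fn] at h1
  rw [LT_fn, pj_apply, NT.fn_add, NT.fn_smul, ml_fn, LT_fn, ← h1]
  unfold cvD
  rw [map_add, map_smul, map_smul, evy_potential, smul_eq_mul, smul_eq_mul]
  unfold am
  push_cast
  ring

theorem a_potential (i : Mode cut L) (x : X3) (j : Fin 3) (v : D) :
    (GG hL P F).a i (potential F P x j v) = potential F P x j ((GG hL P F).a i v) +
      ((cf P x j i : ℝ) : ℂ) • v := by
  rw [potential_GG hL P F, potential_GG hL P F, map_sum]
  have h : ∀ m, (GG hL P F).a i (((cf P x j m : ℝ) : ℂ) •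
      ((GG hL P F).a m v + (GG hL P F).ad m v)) =
      ((cf P x j m : ℝ) : ℂ) • ((GG hL P F).a m ((GG hL P F).a i v) +
        (GG hL P F).ad m ((GG hL P F).a i v)) +
      (if i = m then ((cf P x j m : ℝ) : ℂ) • v else 0) := by
    intro m
    rw [map_smul, map_add, (GG hL P F).ccr' i m, Helper61_Pauli.a_ad (GG hL P F) i m v]
    split_ifs with h
    · rw [smul_add, smul_add, smul_add]
      abel
    · rw [add_zero, add_zero]
  simp only [h]
  rw [Finset.sum_add_distrib]
  simp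

theorem a_cvD (α : ℝ) (i : Mode cut L) (j : Fin 3) {g : X3 → D} (hg : Nice g) (x : X3) :
    (GG hL P F).a i (cvD P F α j g x) = cvD P F α j (fun x => (GG hL P F).a i (g x)) x +
      ((Real.sqrt α * cf P x j i : ℝ) : ℂ) • g x := by
  unfold cvD
  rw [map_add, map_smul, map_smul, a_potential, fderiv_a hg, smul_add, smul_smul,
    Complex.ofReal_mul]
  abel

/-- the coupled mode functions -/
noncomputable def em (α : ℝ) (i : Mode cut L) (j : Fin 3) : X3 → ℝ :=
  fun x => Real.sqrt α * cf P x j i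

theorem sm_em (α : ℝ) (i : Mode cut L) (j : Fin 3) : Sm (em P α i j) :=
  contDiff_const.mul (sm_cf P j i)

theorem nice_em (α : ℝ) (i : Mode cut L) (j : Fin 3) {g : X3 → D} (hg : Nice g) :
    Nice fun x => ((em P α i j x : ℝ) : ℂ) • g x :=
  Nice.smul (sm_em P α i j).toC hg

theorem LT_a_cvD (α : ℝ) (y : Mode cut L → ℝ) (i : Mode cut L) (j : Fin 3) {g : X3 → D}
    (hg : Nice g) :
    LT (evy ri y) _ (nice_a (G := GG hL P F) (nice_cvD P F α j hg) i) =
      pj (am α P y) (sm_am α P y) j (LT (evy ri y) _ (nice_a (G := GG hL P F) hg i)) +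
        ml (em P α i j) (sm_em P α i j) (LT (evy ri y) g hg) := by
  rw [← LT_cvD, ml_LT _ _ _ _ _ (nice_em P α i j hg)]
  refine NT.ext fun x => ?_
  rw [NT.fn_add, LT_fn, LT_fn, LT_fn, a_cvD hL P F α i j hg, map_add]
  rfl

end modes

end Pool.Agent.Helper19_Pauli2
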