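import Pool.Agent.Helper19_Pauli2.Lower

/-!
# MP_8cfbae_mp: the lower bound for one state, conclusion
-/

set_option autoImplicit false
set_option linter.unusedSectionVars false

open MeasureTheory Complex ProbabilityTheory

namespace Pool.Agent.Helper19_Pauli2

open Pool.Agent.Helper49_Pauli Pool.Agent.Helper61_Pauli Pool.Agent.Helper75_Pauli.Half

variable {cut L : ℝ} (hL : 0 < L) (P : Polarization L) {D : Type} [NormedAddCommGroup D]
  [InnerProductSpace ℂ D] (F : Bosons (Mode cut L) D) (ri : RI (GG hL P F)) (α : ℝ)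
  {g0 g1 : X3 → D} (h0 : Nice g0) (h1 : Nice g1)

/-- `D psi`, first component -/
noncomputable def dg0 (g0 g1 : X3 → D) : X3 → D := fun x =>
  cvD P F α 0 g1 x - I • cvD P F α 1 g1 x + cvD P F α 2 g0 x

/-- `D psi`, second component -/
noncomputable def dg1 (g0 g1 : X3 → D) : X3 → D := fun x =>
  cvD P F α 0 g0 x + I • cvD P F α 1 g0 x - cvD P F α 2 g1 x

include h0 h1 in
theorem nice_dg0 : Nice (dg0 P F α g0 g1) :=
  ((nice_cvD P F α 0 h1).sub ((nice_cvD P F α 1 h1).smul contDiff_const)).add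
    (nice_cvD P F α 2 h0)

include h0 h1 in
theorem nice_dg1 : Nice (dg1 P F α g0 g1) :=
  ((nice_cvD P F α 0 h0).add ((nice_cvD P F α 1 h0).smul contDiff_const)).sub
    (nice_cvD P F α 2 h1)

/-- the wave function at `y` -/
noncomputable abbrev ff {g : X3 → D} (hg : Nice g) (y : Mode cut L → ℝ) : NT := LT (evy ri y) g hg

/-- its derivative in the field variable `i` -/
noncomputable abbrev ta {g : X3 → D} (hg : Nice g) (i : Mode cut L) (y : Mode cut L → ℝ) : NT :=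
  LT (evy ri y) _ (nice_a (G := GG hL P F) hg i)

theorem LT_dg0 (y : Mode cut L → ℝ) : ff hL P F ri (nice_dg0 P F α h0 h1) y =
    D0 (am α P y) (sm_am α P y) (ff hL P F ri h0 y) (ff hL P F ri h1 y) := by
  unfold D0
  rw [← LT_cvD, ← LT_cvD, ← LT_cvD]
  refine NT.ext fun x => ?_
  simp only [NT.fn_add, NT.fn_sub, NT.fn_smul, LT_fn, dg0, map_add, map_sub, map_smul,
    smul_eq_mul]

theorem LT_dg1 (y : Mode cut L → ℝ) : ff hL P F ri (nice_dg1 P F α h0 h1) y =
    D1 (am α P y) (sm_am α P y) (ff hL P F ri h0 y) (ff hL P F ri h1 y) := by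
  unfold D1
  rw [← LT_cvD, ← LT_cvD, ← LT_cvD]
  refine NT.ext fun x => ?_
  simp only [NT.fn_add, NT.fn_sub, NT.fn_smul, LT_fn, dg1, map_add, map_sub, map_smul,
    smul_eq_mul]

theorem ta_dg0 (i : Mode cut L) (y : Mode cut L → ℝ) :
    ta hL P F ri (nice_dg0 P F α h0 h1) i y =
      D0 (am α P y) (sm_am α P y) (ta hL P F ri h0 i y) (ta hL P F ri h1 i y) +
      (ml (em P α i 0) (sm_em P α i 0) (ff hL P F ri h1 y) -
        I • ml (em P α i 1) (sm_em P α i 1) (ff hL P F ri h1 y) +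
        ml (em P α i 2) (sm_em P α i 2) (ff hL P F ri h0 y)) := by
  have e : ta hL P F ri (nice_dg0 P F α h0 h1) i y =
      ta hL P F ri (nice_cvD P F α 0 h1) i y - I • ta hL P F ri (nice_cvD P F α 1 h1) i y +
        ta hL P F ri (nice_cvD P F α 2 h0) i y := by
    refine NT.ext fun x => ?_
    simp only [NT.fn_add, NT.fn_sub, NT.fn_smul, LT_fn, dg0, map_add, map_sub, map_smul,
      smul_eq_mul]
  rw [e]
  unfold ta
  rw [LT_a_cvD hL P F ri α y i 0 h1, LT_a_cvD hL P F ri α y i 1 h1, LT_a_cvD hL P F ri α y i 2 h0]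
  unfold D0
  module

theorem ta_dg1 (i : Mode cut L) (y : Mode cut L → ℝ) :
    ta hL P F ri (nice_dg1 P F α h0 h1) i y =
      D1 (am α P y) (sm_am α P y) (ta hL P F ri h0 i y) (ta hL P F ri h1 i y) +
      (ml (em P α i 0) (sm_em P α i 0) (ff hL P F ri h0 y) +
        I • ml (em P α i 1) (sm_em P α i 1) (ff hL P F ri h0 y) -
        ml (em P α i 2) (sm_em P α i 2) (ff hL P F ri h1 y)) := by
  have e : ta hL P F ri (nice_dg1 P F α h0 h1) i y =
      ta hL P F ri (nice_cvD P F α 0 h0) i y + I • ta hL P F ri (nice_cvD P F α 1 h0) i y -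
        ta hL P F ri (nice_cvD P F α 2 h1) i y := by
    refine NT.ext fun x => ?_
    simp only [NT.fn_add, NT.fn_sub, NT.fn_smul, LT_fn, dg1, map_add, map_sub, map_smul,
      smul_eq_mul]
  rw [e]
  unfold ta
  rw [LT_a_cvD hL P F ri α y i 0 h0, LT_a_cvD hL P F ri α y i 1 h0, LT_a_cvD hL P F ri α y i 2 h1]
  unfold D1
  module

theorem sf_eq (b : Fin 3 → X3 → ℝ) (hb : ∀ j, Sm (b j)) (f0 f1 : NT) :
    sf b hb f0 f1 = inner ℂ f0 (ml (b 0) (hb 0) f1 - I • ml (b 1) (hb 1) f1 +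
      ml (b 2) (hb 2) f0) + inner ℂ f1 (ml (b 0) (hb 0) f0 + I • ml (b 1) (hb 1) f0 -
      ml (b 2) (hb 2) f1) := by
  unfold sf
  simp only [inner_add_right, inner_sub_right, inner_smul_right]
  ring

theorem cross (a : Fin 3 → X3 → ℝ) (hs : ∀ j, Sm (a j)) (b : Fin 3 → X3 → ℝ)
    (hb : ∀ j, Sm (b j)) (f0 f1 A0 A1 d0 d1 t0 t1 : NT) (hd0 : d0 = D0 a hs f0 f1)
    (hd1 : d1 = D1 a hs f0 f1)
    (ht0 : t0 = D0 a hs A0 A1 + (ml (b 0) (hb 0) f1 - I • ml (b 1) (hb 1) f1 +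
      ml (b 2) (hb 2) f0))
    (ht1 : t1 = D1 a hs A0 A1 + (ml (b 0) (hb 0) f0 + I • ml (b 1) (hb 1) f0 -
      ml (b 2) (hb 2) f1)) :
    (inner ℂ A0 d0 : ℂ).re + (inner ℂ f0 t0 : ℂ).re +
      ((inner ℂ A1 d1 : ℂ).re + (inner ℂ f1 t1 : ℂ).re) =
    2 * ((inner ℂ A0 d0 : ℂ).re + (inner ℂ A1 d1 : ℂ).re) + (sf b hb f0 f1).re := by
  have c : ∀ u v : NT, (inner ℂ u v : ℂ).re = (inner ℂ v u : ℂ).re := fun u v => by
    rw [← inner_conj_symm, Complex.conj_re]
  have h := congrArg Complex.re (dirac_symm' a hs f0 f1 A0 A1)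
  rw [Complex.add_re, Complex.add_re, c (D0 a hs f0 f1), c (D1 a hs f0 f1), ← hd0, ← hd1] at h
  rw [sf_eq, Complex.add_re]
  generalize ml (b 0) (hb 0) f1 - I • ml (b 1) (hb 1) f1 + ml (b 2) (hb 2) f0 = m0 at ht0 ⊢
  generalize ml (b 0) (hb 0) f0 + I • ml (b 1) (hb 1) f0 - ml (b 2) (hb 2) f1 = m1 at ht1 ⊢
  rw [ht0, ht1, inner_add_right f0, inner_add_right f1, Complex.add_re, Complex.add_re]
  linarith

theorem ml_sum (w : Mode cut L → ℝ) (j : Fin 3) (f : NT) :
    (∑ i, (w i : ℂ) • ml (em P α i j) (sm_em P α i j) f) =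
      ml (am α P w j) (sm_am α P w j) f := by
  refine NT.ext fun x => ?_
  rw [NT.fn_sum, ml_fn]
  simp only [NT.fn_smul, ml_fn, em, am, Af]
  push_cast
  rw [Finset.mul_sum, Finset.sum_mul]
  refine Finset.sum_congr rfl fun i _ => ?_
  ring

theorem sf_sum (w : Mode cut L → ℝ) (f0 f1 : NT) :
    ∑ i, w i * (sf (em P α i) (sm_em P α i) f0 f1).re =
      (sf (am α P w) (sm_am α P w) f0 f1).re := by
  have e : sf (am α P w) (sm_am α P w) f0 f1 =
      ∑ i, (w i : ℂ) * sf (em P α i) (sm_em P α i) f0 f1 := by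
    unfold sf
    have k : ∀ (j : Fin 3) (u v : NT), (inner ℂ u (ml (am α P w j) (sm_am α P w j) v) : ℂ) =
        ∑ i, (w i : ℂ) * inner ℂ u (ml (em P α i j) (sm_em P α i j) v) := by
      intro j u v
      rw [← ml_sum P α w j v, inner_sum]
      exact Finset.sum_congr rfl fun i _ => inner_smul_right _ _ _
    simp only [k, Finset.mul_sum]
    simp only [← Finset.sum_add_distrib, ← Finset.sum_sub_distrib]
    refine Finset.sum_congr rfl fun i _ => ?_
    ring
  rw [e, Complex.re_sum]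
  exact Finset.sum_congr rfl fun i _ => (Complex.re_ofReal_mul _ _).symm

theorem Tm.eqf {G H : (Mode cut L → ℝ) → ℝ} (h : Tm G) (e : ∀ y, H y = G y) : Tm H := by
  have : H = G := funext e
  rw [this]
  exact h

/-- the data of a state -/
theorem yd {κ c1 : ℝ} (hc1 : 0 < c1) (hcut : 0 < cut) (hk : L * cut ≤ κ)
    (h2 : 2 * Real.pi < L * cut)
    (hmag : ∀ (y : Mode cut L → ℝ) (u : NT), c1 * cut ^ 2 * (tt y / (1 + tt y)) * ‖u‖ ^ 2 ≤
        ∑ j, ‖pj (am α P y) (sm_am α P y) j u‖ ^ 2) :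
    YD (Rm P) cut c1 (fun y => ‖ff hL P F ri h0 y‖ ^ 2 + ‖ff hL P F ri h1 y‖ ^ 2)
      (fun y => ‖ff hL P F ri (nice_dg0 P F α h0 h1) y‖ ^ 2 +
        ‖ff hL P F ri (nice_dg1 P F α h0 h1) y‖ ^ 2)
      (fun y => ∑ j, (‖ff hL P F ri (nice_cvD P F α j h0) y‖ ^ 2 +
        ‖ff hL P F ri (nice_cvD P F α j h1) y‖ ^ 2))
      (fun y => (inner ℂ (ff hL P F ri h0 y) (ff hL P F ri (nice_dg0 P F α h0 h1) y) : ℂ).re +
        (inner ℂ (ff hL P F ri h1 y) (ff hL P F ri (nice_dg1 P F α h0 h1) y) : ℂ).re)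
      (fun y => ∑ i, (‖ta hL P F ri h0 i y‖ ^ 2 + ‖ta hL P F ri h1 i y‖ ^ 2))
      (fun i y => (inner ℂ (ta hL P F ri h0 i y) (ff hL P F ri h0 y) : ℂ).re +
        (inner ℂ (ta hL P F ri h1 i y) (ff hL P F ri h1 y) : ℂ).re)
      (fun i y => (inner ℂ (ta hL P F ri h0 i y) (ff hL P F ri (nice_dg0 P F α h0 h1) y) : ℂ).re +
        (inner ℂ (ta hL P F ri h1 i y) (ff hL P F ri (nice_dg1 P F α h0 h1) y) : ℂ).re)
      (fun i y => (sf (em P α i) (sm_em P α i) (ff hL P F ri h0 y) (ff hL P F ri h1 y)).re) where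
  card := four_le hL hk h2
  tr := Finset.sum_eq_zero fun i _ => Rm_diag P i
  Rb := Rb_le hL P
  Lpos := hcut
  cpos := hc1
  tN := (tm_norm ri h0).add (tm_norm ri h1)
  tD := (tm_norm ri _).add (tm_norm ri _)
  tP := Tm.sum _ fun j _ => (tm_norm ri _).add (tm_norm ri _)
  tΦ := by
    have k1 := tm_pair ri h0 (nice_dg0 P F α h0 h1) 1
    have k2 := tm_pair ri h1 (nice_dg1 P F α h0 h1) 1
    simp only [one_mul] at k1 k2
    exact k1.add k2
  tT := Tm.sum _ fun i _ => (tm_norm ri _).add (tm_norm ri _)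
  tV := fun i => by
    have k1 := tm_pair ri (nice_a (G := GG hL P F) h0 i) h0 1
    have k2 := tm_pair ri (nice_a (G := GG hL P F) h1 i) h1 1
    simp only [one_mul] at k1 k2
    exact k1.add k2
  tX := fun i => by
    have k1 := tm_pair ri (nice_a (G := GG hL P F) h0 i) (nice_dg0 P F α h0 h1) 1
    have k2 := tm_pair ri (nice_a (G := GG hL P F) h1 i) (nice_dg1 P F α h0 h1) 1
    simp only [one_mul] at k1 k2
    exact k1.add k2
  tS := fun i => by
    have k : ∀ (c : ℂ) (j : Fin 3) {g g' : X3 → D} (hg : Nice g) (hg' : Nice g'),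
        Tm fun y : Mode cut L → ℝ => (c * (inner ℂ (ff hL P F ri hg y)
          (ml (em P α i j) (sm_em P α i j) (ff hL P F ri hg' y)) : ℂ)).re := by
      intro c j g g' hg hg'
      have := tm_pair ri hg (nice_em P α i j hg') c
      refine Tm.eqf this ?_
      intro y
      rw [ml_LT _ _ _ _ _ (nice_em P α i j hg')]
    have s1 := ((((k 1 0 h0 h1).add (k 1 0 h1 h0)).sub (k I 1 h0 h1)).add (k I 1 h1 h0)).add
      (k 1 2 h0 h0) |>.sub (k 1 2 h1 h1)
    refine Tm.eqf s1 ?_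
    intro y
    unfold sf
    simp only [one_mul, Complex.add_re, Complex.sub_re]
  dN := (by
    have k1 := diff_pair ri h0 h0
    have k2 := diff_pair ri h1 h1
    simp only [re_self] at k1 k2
    exact k1.add k2)
  dN' := fun i y => by
    have k1 := fderiv_pair ri h0 h0 i y
    have k2 := fderiv_pair ri h1 h1 i y
    have d1 := diff_pair ri h0 h0
    have d2 := diff_pair ri h1 h1
    simp only [re_self] at k1 k2 d1 d2
    have e := fderiv_add (d1 y) (d2 y)
    have e2 : fderiv ℝ (fun y => ‖ff hL P F ri h0 y‖ ^ 2 + ‖ff hL P F ri h1 y‖ ^ 2) y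
        (Pi.single i 1) = _ := congrArg (fun T => T (Pi.single i 1)) e
    rw [e2]
    simp only [add_apply]
    rw [k1, k2]
    have c : ∀ u v : NT, (inner ℂ u v : ℂ).re = (inner ℂ v u : ℂ).re := fun u v => by
      rw [← inner_conj_symm, Complex.conj_re]
    rw [c (LT (evy ri y) g0 h0), c (LT (evy ri y) g1 h1)]
    ring
  dΦ := (diff_pair ri h0 (nice_dg0 P F α h0 h1)).add (diff_pair ri h1 (nice_dg1 P F α h0 h1))
  dΦ' := fun i y => by
    have d1 := diff_pair ri h0 (nice_dg0 P F α h0 h1)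
    have d2 := diff_pair ri h1 (nice_dg1 P F α h0 h1)
    have k1 := fderiv_pair ri h0 (nice_dg0 P F α h0 h1) i y
    have k2 := fderiv_pair ri h1 (nice_dg1 P F α h0 h1) i y
    have e := fderiv_add (d1 y) (d2 y)
    have e2 : fderiv ℝ (fun y => (inner ℂ (ff hL P F ri h0 y)
        (ff hL P F ri (nice_dg0 P F α h0 h1) y) : ℂ).re +
        (inner ℂ (ff hL P F ri h1 y) (ff hL P F ri (nice_dg1 P F α h0 h1) y) : ℂ).re) y
        (Pi.single i 1) = _ := congrArg (fun T => T (Pi.single i 1)) e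
    rw [e2]
    simp only [add_apply]
    rw [k1, k2]
    exact cross (am α P y) (sm_am α P y) (em P α i) (sm_em P α i) _ _ _ _ _ _ _ _
      (LT_dg0 hL P F ri α h0 h1 y) (LT_dg1 hL P F ri α h0 h1 y)
      (ta_dg0 hL P F ri α h0 h1 i y) (ta_dg1 hL P F ri α h0 h1 i y)
  N0 := fun y => by positivity
  D0 := fun y => by positivity
  T0 := fun y => Finset.sum_nonneg fun _ _ => by positivity
  b1 := fun b y => sum_cs b _ _ _ fun i => by
    have := cs2 (ta hL P F ri h0 i y) (ta hL P F ri h1 i y)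
      (ff hL P F ri (nice_dg0 P F α h0 h1) y) (ff hL P F ri (nice_dg1 P F α h0 h1) y)
    rwa [Complex.add_re] at this
  b2 := fun y => by
    have := cs2 (ff hL P F ri h0 y) (ff hL P F ri h1 y)
      (ff hL P F ri (nice_dg0 P F α h0 h1) y) (ff hL P F ri (nice_dg1 P F α h0 h1) y)
    rwa [Complex.add_re] at this
  b3 := fun b y => sum_cs b _ _ _ fun i => by
    have := cs2 (ta hL P F ri h0 i y) (ta hL P F ri h1 i y)
      (ff hL P F ri h0 y) (ff hL P F ri h1 y)
    rwa [Complex.add_re] at this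
  ha := fun y => by
    rw [sf_sum P α]
    have hp := pauli (am α P y) (sm_am α P y) (sm_am α P fun i => lf (Rm P) i y)
      (isCurl_am hL α P y) (ff hL P F ri h0 y) (ff hL P F ri h1 y)
    rw [← LT_dg0, ← LT_dg1] at hp
    have e : ∀ j, ‖ff hL P F ri (nice_cvD P F α j h0) y‖ ^ 2 +
        ‖ff hL P F ri (nice_cvD P F α j h1) y‖ ^ 2 =
        ‖pj (am α P y) (sm_am α P y) j (ff hL P F ri h0 y)‖ ^ 2 +
        ‖pj (am α P y) (sm_am α P y) j (ff hL P F ri h1 y)‖ ^ 2 := by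
      intro j
      unfold ff
      rw [LT_cvD, LT_cvD]
    simp only [e]
    rw [hp]
    ring
  hc := fun y => by
    have e : ∀ j, ‖ff hL P F ri (nice_cvD P F α j h0) y‖ ^ 2 +
        ‖ff hL P F ri (nice_cvD P F α j h1) y‖ ^ 2 =
        ‖pj (am α P y) (sm_am α P y) j (ff hL P F ri h0 y)‖ ^ 2 +
        ‖pj (am α P y) (sm_am α P y) j (ff hL P F ri h1 y)‖ ^ 2 := by
      intro j
      unfold ff
      rw [LT_cvD, LT_cvD]
    simp only [e]
    rw [mul_add, Finset.sum_add_distrib]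
    exact add_le_add (hmag y _) (hmag y _)

end Pool.Agent.Helper19_Pauli2
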