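import Pool.Agent.Helper19_Pauli2.Modes

/-!
# MP_8cfbae_mp: the magnetic bound for the modes of a small box
-/

set_option autoImplicit false

open MeasureTheory Complex

namespace Pool.Agent.Helper19_Pauli2

open Pool.Agent.Helper49_Pauli Pool.Agent.Helper75_Pauli.Half

theorem magreal {α κ μ : ℝ} (hα : 0 < α) (hκ : 2 * Real.pi < κ) (hμ : 0 < μ) :
    ∃ c1 : ℝ, 0 < c1 ∧ ∀ L Λ Z U p ρ : ℝ, 0 < L → 0 < Λ → L * Λ ≤ κ → 0 ≤ Z → 0 ≤ U → 0 ≤ p →
      0 ≤ ρ → (2 * Real.pi / L) * ρ ≤ Z →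
      α * (Z ^ 2 / (2 * L ^ 3 * Λ)) * U ^ 2 ≤ (L / Real.pi) * (α * (μ * Z / L) ^ 2) * (U * p) +
        6 * (Real.sqrt α * (μ * Z / L)) * p ^ 2 +
        6 * (Λ * (Real.sqrt α * (μ * Z / L))) * U * p →
      c1 * Λ ^ 2 * (ρ ^ 2 / (1 + ρ ^ 2)) * U ^ 2 ≤ p ^ 2 := by
  have hπ := Real.pi_pos
  have hκ0 : 0 < κ := by linarith
  obtain ⟨a0, ha0⟩ : ∃ a0, a0 = α / (2 * κ) := ⟨_, rfl⟩
  obtain ⟨a1, ha1⟩ : ∃ a1, a1 = κ * α * μ ^ 2 / Real.pi := ⟨_, rfl⟩
  obtain ⟨a2, ha2⟩ : ∃ a2, a2 = 6 * Real.sqrt α * μ * κ := ⟨_, rfl⟩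
  have hs : 0 < Real.sqrt α := Real.sqrt_pos.2 hα
  have p0 : 0 < a0 := by rw [ha0]; positivity
  have p1 : 0 < a1 := by rw [ha1]; positivity
  have p2 : 0 < a2 := by rw [ha2]; positivity
  obtain ⟨a3, ha3⟩ : ∃ a3, a3 = a1 ^ 2 / a0 + a2 + a2 ^ 2 / a0 := ⟨_, rfl⟩
  have p3 : 0 < a3 := by rw [ha3]; positivity
  obtain ⟨δ, hδ⟩ : ∃ δ, δ = 2 * Real.pi / κ := ⟨_, rfl⟩
  have pδ : 0 < δ := by rw [hδ]; positivity
  have δ1 : δ ≤ 1 := by
    rw [hδ, div_le_one hκ0]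
    exact hκ.le
  refine ⟨a0 * δ ^ 2 / (2 * a3), by positivity, ?_⟩
  intro L Λ Z U p ρ hL hΛ hLΛ hZ hU hp hρ hZρ hmain
  obtain ⟨ζ, hζ⟩ : ∃ ζ, ζ = Z / Λ := ⟨_, rfl⟩
  obtain ⟨q, hq⟩ : ∃ q, q = p / Λ := ⟨_, rfl⟩
  have eZ : Z = Λ * ζ := by rw [hζ]; field_simp
  have ep : p = Λ * q := by rw [hq]; field_simp
  have hζ0 : 0 ≤ ζ := by rw [hζ]; positivity
  have hq0 : 0 ≤ q := by rw [hq]; positivity
  -- scaled inequality
  have h1 : a0 * ζ ^ 2 * U ^ 2 ≤ a1 * ζ ^ 2 * (U * q) + a2 * ζ * (q ^ 2 + U * q) := by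
    have k0 := mul_le_mul_of_nonneg_left hmain (by positivity : 0 ≤ L ^ 2 / Λ ^ 2)
    have k1 : L ^ 2 / Λ ^ 2 * (α * (Z ^ 2 / (2 * L ^ 3 * Λ)) * U ^ 2) =
        α / (2 * (L * Λ)) * ζ ^ 2 * U ^ 2 := by
      rw [eZ]; field_simp
    have k2 : L ^ 2 / Λ ^ 2 * ((L / Real.pi) * (α * (μ * Z / L) ^ 2) * (U * p) +
        6 * (Real.sqrt α * (μ * Z / L)) * p ^ 2 +
        6 * (Λ * (Real.sqrt α * (μ * Z / L))) * U * p) =
        (L * Λ) * (α * μ ^ 2 / Real.pi * ζ ^ 2 * (U * q) +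
          6 * Real.sqrt α * μ * ζ * (q ^ 2 + U * q)) := by
      rw [eZ, ep]; field_simp; ring
    rw [k1, k2] at k0
    have k3 : a0 ≤ α / (2 * (L * Λ)) := by
      rw [ha0]
      gcongr
    have k4 : (L * Λ) * (α * μ ^ 2 / Real.pi * ζ ^ 2 * (U * q) +
          6 * Real.sqrt α * μ * ζ * (q ^ 2 + U * q)) ≤
        κ * (α * μ ^ 2 / Real.pi * ζ ^ 2 * (U * q) +
          6 * Real.sqrt α * μ * ζ * (q ^ 2 + U * q)) := by
      gcongr
    calc a0 * ζ ^ 2 * U ^ 2 ≤ α / (2 * (L * Λ)) * ζ ^ 2 * U ^ 2 := by gcongr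
      _ ≤ _ := k0
      _ ≤ _ := k4
      _ = _ := by rw [ha1, ha2]; ring
  have h2 : a0 / 2 * ζ ^ 2 * U ^ 2 ≤ a3 * (1 + ζ ^ 2) * q ^ 2 := by
    have k1 : a1 * ζ ^ 2 * (U * q) ≤ a0 / 4 * ζ ^ 2 * U ^ 2 + a1 ^ 2 / a0 * ζ ^ 2 * q ^ 2 := by
      have : a0 / 4 * ζ ^ 2 * U ^ 2 + a1 ^ 2 / a0 * ζ ^ 2 * q ^ 2 - a1 * ζ ^ 2 * (U * q) =
          1 / a0 * (ζ * (a0 * U / 2 - a1 * q)) ^ 2 := by
        field_simp
        ring
      have h9 : 0 ≤ 1 / a0 * (ζ * (a0 * U / 2 - a1 * q)) ^ 2 := by positivity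
      linarith
    have k2 : a2 * ζ * (U * q) ≤ a0 / 4 * ζ ^ 2 * U ^ 2 + a2 ^ 2 / a0 * q ^ 2 := by
      have : a0 / 4 * ζ ^ 2 * U ^ 2 + a2 ^ 2 / a0 * q ^ 2 - a2 * ζ * (U * q) =
          1 / a0 * (a0 * ζ * U / 2 - a2 * q) ^ 2 := by
        field_simp
        ring
      have h9 : 0 ≤ 1 / a0 * (a0 * ζ * U / 2 - a2 * q) ^ 2 := by positivity
      linarith
    have k3 : a2 * ζ * q ^ 2 ≤ a2 * (1 + ζ ^ 2) * q ^ 2 := by
      have : ζ ≤ 1 + ζ ^ 2 := by nlinarith [sq_nonneg (ζ - 1)]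
      gcongr
    have k4 : a1 ^ 2 / a0 * ζ ^ 2 * q ^ 2 ≤ a1 ^ 2 / a0 * (1 + ζ ^ 2) * q ^ 2 := by
      gcongr
      linarith
    have k5 : a2 ^ 2 / a0 * q ^ 2 ≤ a2 ^ 2 / a0 * (1 + ζ ^ 2) * q ^ 2 := by
      have h9 : 0 ≤ a2 ^ 2 / a0 * ζ ^ 2 * q ^ 2 := by positivity
      linarith
    have k6 : a3 * (1 + ζ ^ 2) * q ^ 2 = a1 ^ 2 / a0 * (1 + ζ ^ 2) * q ^ 2 +
        a2 * (1 + ζ ^ 2) * q ^ 2 + a2 ^ 2 / a0 * (1 + ζ ^ 2) * q ^ 2 := by
      rw [ha3]; ring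
    linarith
  have h3 : δ * ρ ≤ ζ := by
    rw [hζ, le_div_iff₀ hΛ]
    refine le_trans ?_ hZρ
    rw [hδ]
    have k : Λ / κ ≤ 1 / L := by
      rw [div_le_div_iff₀ hκ0 hL]
      linarith
    calc 2 * Real.pi / κ * ρ * Λ = 2 * Real.pi * ρ * (Λ / κ) := by ring
      _ ≤ 2 * Real.pi * ρ * (1 / L) := by gcongr
      _ = _ := by ring
  have h4 : δ ^ 2 * (ρ ^ 2 / (1 + ρ ^ 2)) ≤ ζ ^ 2 / (1 + ζ ^ 2) := by
    rw [← mul_div_assoc, div_le_div_iff₀ (by positivity) (by positivity)]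
    have k1 : (δ * ρ) ^ 2 ≤ ζ ^ 2 := by gcongr
    have k2 : δ ^ 2 ≤ 1 := pow_le_one₀ pδ.le δ1
    nlinarith [mul_nonneg (sq_nonneg ρ) (sq_nonneg ζ),
      mul_le_mul_of_nonneg_right k2 (mul_nonneg (sq_nonneg ρ) (sq_nonneg ζ))]
  have h5 : a0 / (2 * a3) * (ζ ^ 2 / (1 + ζ ^ 2)) * U ^ 2 ≤ q ^ 2 := by
    have k1 : a0 / (2 * a3) * (ζ ^ 2 / (1 + ζ ^ 2)) * U ^ 2 =
        (a0 / 2 * ζ ^ 2 * U ^ 2) / (a3 * (1 + ζ ^ 2)) := by
      field_simp
    rw [k1, div_le_iff₀ (by positivity)]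
    linarith
  have h6 : a0 * δ ^ 2 / (2 * a3) * (ρ ^ 2 / (1 + ρ ^ 2)) * U ^ 2 ≤ q ^ 2 := by
    refine le_trans ?_ h5
    calc a0 * δ ^ 2 / (2 * a3) * (ρ ^ 2 / (1 + ρ ^ 2)) * U ^ 2 =
          a0 / (2 * a3) * (δ ^ 2 * (ρ ^ 2 / (1 + ρ ^ 2))) * U ^ 2 := by ring
      _ ≤ _ := by gcongr
  rw [ep]
  have h7 := mul_le_mul_of_nonneg_left h6 (sq_nonneg Λ)
  calc _ = Λ ^ 2 * (a0 * δ ^ 2 / (2 * a3) * (ρ ^ 2 / (1 + ρ ^ 2)) * U ^ 2) := by ring
    _ ≤ Λ ^ 2 * q ^ 2 := h7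
    _ = _ := by ring

section expand

variable {cut L : ℝ} (P : Polarization L) (z : Mode cut L → ℝ)

/-- coefficients -/
noncomputable def AA (i j : Mode cut L) : ℝ :=
  z i * z j * (kp L i.1 * kp L j.1) * dot (P.e i.1 i.2) (P.e j.1 j.2) / 2

/-- a vector of length `2 pi / L` -/
noncomputable def e0 (L : ℝ) : X3 := fun _ => 2 * Real.pi / L

open Classical in
/-- weights -/
noncomputable def wt (r : Mode cut L × Mode cut L × Bool) : ℝ :=
  if r.2.2 = false then (if r.1.1 = r.2.1.1 then 0 else AA P z r.1 r.2.1)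
  else (if r.1.1 = ng r.2.1.1 then 0 else AA P z r.1 r.2.1)

open Classical in
/-- frequencies -/
noncomputable def qt (r : Mode cut L × Mode cut L × Bool) : X3 :=
  if r.2.2 = false then (if r.1.1 = r.2.1.1 then e0 L else
    fun j => wave L r.1.1 j - wave L r.2.1.1 j)
  else (if r.1.1 = ng r.2.1.1 then e0 L else fun j => wave L r.1.1 j + wave L r.2.1.1 j)

/-- phases -/
noncomputable def pt (r : Mode cut L × Mode cut L × Bool) : ℝ :=
  if r.2.2 = false then th r.1.1 - th r.2.1.1 else th r.1.1 + th r.2.1.1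

theorem cos_mul_cos' (a b : ℝ) : Real.cos a * Real.cos b =
    (Real.cos (a - b) + Real.cos (a + b)) / 2 := by
  rw [Real.cos_sub, Real.cos_add]
  ring

theorem th_ng (n : MM cut L) : th (ng n).1 + th n.1 = Real.pi / 2 := by
  have hn := (mem_momenta n.2).1
  have h0 : (ng n).1 = -n.1 := rfl
  rw [h0]
  unfold th
  by_cases h : Hp n.1
  · have h' : ¬ Hp (-n.1) := by rw [hp_neg n.1 hn]; simpa using h
    simp only [h, h', if_true, if_false]
    ring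
  · have h' : Hp (-n.1) := by rw [hp_neg n.1 hn]; exact h
    simp only [h, h', if_true, if_false]
    ring

open Classical in
theorem sq_expand (x : X3) : ∑ l, Af P z l x ^ 2 =
    (∑ i, ∑ j, if i.1 = j.1 then AA P z i j else 0) +
      ∑ r, wt P z r * Real.cos (dot (qt r) x - pt r) := by
  have e1 : ∑ l, Af P z l x ^ 2 = ∑ i, ∑ j,
      (AA P z i j * Real.cos ((dot (wave L i.1) x - th i.1) - (dot (wave L j.1) x - th j.1)) +
       AA P z i j * Real.cos ((dot (wave L i.1) x - th i.1) + (dot (wave L j.1) x - th j.1))) := by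
    have k1 : ∀ l, Af P z l x ^ 2 = ∑ i, ∑ j, (z i * cf P x l i) * (z j * cf P x l j) := by
      intro l
      unfold Af
      rw [pow_two, Finset.sum_mul_sum]
    simp only [k1]
    rw [Finset.sum_comm]
    refine Finset.sum_congr rfl fun i _ => ?_
    rw [Finset.sum_comm]
    refine Finset.sum_congr rfl fun j _ => ?_
    have k2 := cos_mul_cos' (dot (wave L i.1) x - th i.1) (dot (wave L j.1) x - th j.1)
    have k3 : AA P z i j * Real.cos ((dot (wave L i.1) x - th i.1) -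
        (dot (wave L j.1) x - th j.1)) + AA P z i j * Real.cos ((dot (wave L i.1) x - th i.1) +
        (dot (wave L j.1) x - th j.1)) = 2 * AA P z i j *
        (Real.cos (dot (wave L i.1) x - th i.1) * Real.cos (dot (wave L j.1) x - th j.1)) := by
      rw [k2]; ring
    rw [k3]
    simp only [cf_eq, AA, Fin.sum_univ_three]
    rw [dot3 (P.e i.1 i.2)]
    ring
  have e2 : ∑ r, wt P z r * Real.cos (dot (qt r) x - pt r) = ∑ i, ∑ j,
      (wt P z (i, j, false) * Real.cos (dot (qt (i, j, false)) x - pt (i, j, false)) +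
       wt P z (i, j, true) * Real.cos (dot (qt (i, j, true)) x - pt (i, j, true))) := by
    rw [Fintype.sum_prod_type]
    refine Finset.sum_congr rfl fun i _ => ?_
    rw [Fintype.sum_prod_type]
    refine Finset.sum_congr rfl fun j _ => ?_
    rw [Fintype.sum_bool, add_comm]
  rw [e1, e2, ← Finset.sum_add_distrib]
  refine Finset.sum_congr rfl fun i _ => ?_
  rw [← Finset.sum_add_distrib]
  refine Finset.sum_congr rfl fun j _ => ?_
  rw [← add_assoc]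
  congr 1
  · unfold wt qt pt
    simp only [if_true]
    by_cases h : i.1 = j.1
    · rw [if_pos h, if_pos h, if_pos h, h]
      simp
    · rw [if_neg h, if_neg h, if_neg h, zero_add]
      congr 2
      unfold dot
      simp only [sub_mul, Finset.sum_sub_distrib]
      ring
  · unfold wt qt pt
    simp only [Bool.true_eq_false, if_false]
    by_cases h : i.1 = ng j.1
    · rw [if_pos h, if_pos h, zero_mul, h, wave_ng, dot_neg]
      have k := th_ng j.1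
      have k2 : -dot (wave L j.1) x - th (ng j.1).1 + (dot (wave L j.1) x - th j.1) =
          -(Real.pi / 2) := by linarith
      rw [k2, Real.cos_neg, Real.cos_pi_div_two, mul_zero]
    · rw [if_neg h, if_neg h]
      congr 2
      unfold dot
      simp only [add_mul, Finset.sum_add_distrib]
      ring

theorem wave_diff (hL : 0 < L) {n m : Fin 3 → ℤ} (h : n ≠ m) :
    ∃ j, 2 * Real.pi / L ≤ |wave L n j - wave L m j| := by
  obtain ⟨j, hj⟩ := Function.ne_iff.1 h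
  refine ⟨j, ?_⟩
  unfold wave
  rw [← mul_sub, abs_mul, abs_of_pos (by positivity)]
  have h1 : (1 : ℝ) ≤ |(n j : ℝ) - m j| := by
    have : (1 : ℤ) ≤ |n j - m j| := Int.one_le_abs (sub_ne_zero.2 hj)
    exact_mod_cast this
  have h2 : 0 < 2 * Real.pi / L := by positivity
  nlinarith

theorem qt_large (hL : 0 < L) (r : Mode cut L × Mode cut L × Bool) :
    ∃ j, 2 * Real.pi / L ≤ |qt r j| := by
  have h0 : ∃ j : Fin 3, 2 * Real.pi / L ≤ |e0 L j| :=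
    ⟨0, by
      unfold e0
      exact le_abs_self _⟩
  unfold qt
  split_ifs with h1 h2 h3
  · exact h0
  · exact wave_diff hL fun h => h2 (Subtype.ext h)
  · exact h0
  · obtain ⟨j, hj⟩ := wave_diff (L := L) hL (n := (r.1.1 : Fin 3 → ℤ)) (m := (ng r.2.1.1).1)
      fun h => h3 (Subtype.ext h)
    refine ⟨j, ?_⟩
    rw [wave_ng] at hj
    simpa using hj

theorem dot_e_le (i j : Mode cut L) : |dot (P.e i.1 i.2) (P.e j.1 j.2)| ≤ 1 := by
  have h1 : dot (P.e i.1 i.2) (P.e j.1 j.2) ^ 2 ≤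
      dot (P.e i.1 i.2) (P.e i.1 i.2) * dot (P.e j.1 j.2) (P.e j.1 j.2) := by
    have := Finset.sum_mul_sq_le_sq_mul_sq Finset.univ (P.e i.1 i.2) (P.e j.1 j.2)
    rw [dot_self, dot_self]
    exact this
  have h2 := P.orthonormal i.1 (mode_ne i) i.2 i.2
  have h3 := P.orthonormal j.1 (mode_ne j) j.2 j.2
  rw [if_pos rfl] at h2 h3
  rw [h2, h3, mul_one] at h1
  exact (sq_le_one_iff_abs_le_one _).1 h1

theorem e_le (i : Mode cut L) (l : Fin 3) : |P.e i.1 i.2 l| ≤ 1 := by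
  have h3 := P.orthonormal i.1 (mode_ne i) i.2 i.2
  rw [if_pos rfl, dot_self] at h3
  have h4 : P.e i.1 i.2 l ^ 2 ≤ Pool.Agent.Helper49_Pauli.sq (P.e i.1 i.2) :=
    Finset.single_le_sum (f := fun l => P.e i.1 i.2 l ^ 2) (fun _ _ => sq_nonneg _)
      (Finset.mem_univ l)
  rw [h3] at h4
  exact (sq_le_one_iff_abs_le_one _).1 h4

theorem m0_eq : (∑ i, ∑ j : Mode cut L, if i.1 = j.1 then AA P z i j else 0) =
    ∑ i : Mode cut L, z i ^ 2 * kp L i.1 ^ 2 / 2 := by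
  refine Finset.sum_congr rfl fun i _ => ?_
  rw [Finset.sum_eq_single i]
  · rw [if_pos rfl]
    unfold AA
    rw [P.orthonormal i.1 (mode_ne i) i.2 i.2, if_pos rfl]
    ring
  · intro j _ hj
    split_ifs with h
    · unfold AA
      have h2 : i.2 ≠ j.2 := fun h2 => hj (Prod.ext h.symm h2.symm)
      rw [← h, P.orthonormal i.1 (mode_ne i) i.2 j.2, if_neg h2]
      ring
    · rfl
  · intro h; exact absurd (Finset.mem_univ _) h

theorem wave_sq_ge (hL : 0 < L) {n : Fin 3 → ℤ} (hn : n ≠ 0) :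
    (2 * Real.pi / L) ^ 2 ≤ Pool.Agent.Helper49_Pauli.sq (wave L n) := by
  obtain ⟨j, hj⟩ := wave_diff hL hn
  have h1 : wave L 0 j = 0 := by simp [wave]
  rw [h1, sub_zero] at hj
  have h2 : wave L n j ^ 2 ≤ Pool.Agent.Helper49_Pauli.sq (wave L n) :=
    Finset.single_le_sum (f := fun l => wave L n l ^ 2) (fun _ _ => sq_nonneg _)
      (Finset.mem_univ j)
  have h3 : 0 < 2 * Real.pi / L := by
    have := Real.pi_pos
    positivity
  calc (2 * Real.pi / L) ^ 2 ≤ |wave L n j| ^ 2 := by gcongr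
    _ = wave L n j ^ 2 := sq_abs _
    _ ≤ _ := h2

theorem kp_sq (hL : 0 < L) (i : MM cut L) : kp L i.1 ^ 2 =
    1 / (L ^ 3 * Real.sqrt (Pool.Agent.Helper49_Pauli.sq (wave L i.1))) := by
  have h := sqn_wave_pos hL (mem_momenta i.2).1
  have h2 := Real.sqrt_pos.2 h
  unfold kp
  rw [div_pow, Real.sq_sqrt (by positivity), Real.sq_sqrt (by positivity)]
  field_simp

theorem kp_le (hL : 0 < L) (i : MM cut L) : kp L i.1 ≤ 1 / L := by
  have h := wave_sq_ge hL (mem_momenta i.2).1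
  have hπ := Real.pi_gt_three
  have h2 : 2 * Real.pi / L ≤ Real.sqrt (Pool.Agent.Helper49_Pauli.sq (wave L i.1)) :=
    Real.le_sqrt_of_sq_le h
  have h3 : 1 / L ≤ Real.sqrt (Pool.Agent.Helper49_Pauli.sq (wave L i.1)) := by
    refine le_trans ?_ h2
    gcongr
    linarith
  refine le_of_sq_le_sq ?_ (by positivity)
  rw [kp_sq hL, div_pow, one_pow]
  have h4 : L ^ 2 ≤ L ^ 3 * Real.sqrt (Pool.Agent.Helper49_Pauli.sq (wave L i.1)) := by
    calc L ^ 2 = L ^ 3 * (1 / L) := by field_simp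
      _ ≤ _ := by gcongr
  gcongr

theorem kp_ge (hL : 0 < L) (i : MM cut L) : 1 / (L ^ 3 * cut) ≤ kp L i.1 ^ 2 := by
  rw [kp_sq hL]
  have h := (mem_momenta i.2).2
  have h2 := Real.sqrt_pos.2 (sqn_wave_pos hL (mem_momenta i.2).1)
  have h3 : Real.sqrt (Pool.Agent.Helper49_Pauli.sq (wave L i.1)) ≤ cut := h.le
  gcongr

theorem AA_le (hL : 0 < L) (i j : Mode cut L) : |AA P z i j| ≤ |z i| * |z j| / L ^ 2 / 2 := by
  unfold AA
  rw [abs_div, abs_mul, abs_mul, abs_mul, abs_of_nonneg (mul_nonneg (kp_nonneg _) (kp_nonneg _)),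
    abs_two]
  have h1 := kp_le hL i.1
  have h2 := kp_le hL j.1
  have h3 := dot_e_le P i j
  have h4 : kp L i.1 * kp L j.1 ≤ 1 / L * (1 / L) :=
    mul_le_mul h1 h2 (kp_nonneg _) (by positivity)
  have h5 : |z i| * |z j| / L ^ 2 = |z i| * |z j| * (1 / L * (1 / L)) * 1 := by
    field_simp
  rw [h5]
  have h6 : 0 ≤ kp L i.1 * kp L j.1 := mul_nonneg (kp_nonneg _) (kp_nonneg _)
  gcongr

theorem wt_le (hL : 0 < L) : ∑ r, |wt P z r| ≤ (∑ i, |z i|) ^ 2 / L ^ 2 := by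
  have h1 : ∀ r, |wt P z r| ≤ |AA P z r.1 r.2.1| := by
    intro r
    unfold wt
    split_ifs <;> simp
  have h2 : ∑ r : Mode cut L × Mode cut L × Bool, |AA P z r.1 r.2.1| =
      ∑ i, ∑ j, 2 * |AA P z i j| := by
    rw [Fintype.sum_prod_type]
    refine Finset.sum_congr rfl fun i _ => ?_
    rw [Fintype.sum_prod_type]
    refine Finset.sum_congr rfl fun j _ => ?_
    rw [Fintype.sum_bool]
    ring
  calc ∑ r, |wt P z r| ≤ ∑ r : Mode cut L × Mode cut L × Bool, |AA P z r.1 r.2.1| :=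
        Finset.sum_le_sum fun r _ => h1 r
    _ = ∑ i, ∑ j, 2 * |AA P z i j| := h2
    _ ≤ ∑ i, ∑ j, |z i| * |z j| / L ^ 2 := by
        refine Finset.sum_le_sum fun i _ => Finset.sum_le_sum fun j _ => ?_
        have := AA_le P z hL i j
        linarith
    _ = _ := by
        rw [pow_two (∑ i, |z i|), Finset.sum_mul_sum, Finset.sum_div]
        exact Finset.sum_congr rfl fun i _ => by rw [Finset.sum_div]

theorem Af_le (hL : 0 < L) (l : Fin 3) (x : X3) : |Af P z l x| ≤ (∑ i, |z i|) / L := by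
  unfold Af
  rw [Finset.sum_div]
  refine (Finset.abs_sum_le_sum_abs _ _).trans (Finset.sum_le_sum fun i _ => ?_)
  rw [cf_eq, abs_mul, abs_mul, abs_mul, abs_of_nonneg (kp_nonneg _)]
  have h1 := kp_le hL i.1
  have h2 := e_le P i l
  have h3 := Real.abs_cos_le_one (dot (wave L i.1) x - th i.1)
  have h4 : |z i| / L = |z i| * (1 / L * 1 * 1) := by ring
  rw [h4]
  have h5 := kp_nonneg (L := L) i.1.1
  gcongr

theorem dAf_le (hL : 0 < L) (l j : Fin 3) (x : X3) :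
    |dmul (Af P z l) j x| ≤ cut * ((∑ i, |z i|) / L) := by
  rw [dmul_Af, Finset.sum_div, Finset.mul_sum]
  refine (Finset.abs_sum_le_sum_abs _ _).trans (Finset.sum_le_sum fun i _ => ?_)
  rw [abs_mul, abs_neg, abs_mul, abs_mul, abs_mul, abs_of_nonneg (kp_nonneg _)]
  have h1 := kp_le hL i.1
  have h2 := e_le P i l
  have h3 := Real.abs_sin_le_one (dot (wave L i.1) x - th i.1)
  have h6 : |wave L i.1 j| ≤ cut := by
    have k1 : wave L i.1 j ^ 2 ≤ Pool.Agent.Helper49_Pauli.sq (wave L i.1) :=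
      Finset.single_le_sum (f := fun l => wave L i.1 l ^ 2) (fun _ _ => sq_nonneg _)
        (Finset.mem_univ j)
    have k2 := (mem_momenta i.1.2).2
    have k3 : |wave L i.1 j| ≤ Real.sqrt (Pool.Agent.Helper49_Pauli.sq (wave L i.1)) :=
      Real.abs_le_sqrt k1
    exact k3.trans k2.le
  have h4 : cut * (|z i| / L) = |z i| * (1 / L * 1 * cut * 1) := by ring
  rw [h4]
  have h5 := kp_nonneg (L := L) i.1.1
  have h7 : 0 ≤ cut := (abs_nonneg _).trans h6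
  gcongr

end expand

section count

variable {cut L : ℝ}

theorem box_of_freq {κ : ℝ} (hL : 0 < L) (hk : L * cut ≤ κ) (hκ : 0 < κ) {n : Fin 3 → ℤ}
    (h : freq L n < cut) (j : Fin 3) : |n j| ≤ (⌈κ⌉₊ : ℤ) := by
  have k1 : wave L n j ^ 2 ≤ Pool.Agent.Helper49_Pauli.sq (wave L n) :=
    Finset.single_le_sum (f := fun l => wave L n l ^ 2) (fun _ _ => sq_nonneg _)
      (Finset.mem_univ j)
  have k3 : |wave L n j| ≤ freq L n := Real.abs_le_sqrt k1
  have hπ := Real.pi_gt_three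
  have k4 : |wave L n j| = 2 * Real.pi / L * |(n j : ℝ)| := by
    unfold wave
    rw [abs_mul, abs_of_pos (by positivity)]
  have k5 : 2 * Real.pi / L * |(n j : ℝ)| < cut := by
    rw [← k4]
    exact lt_of_le_of_lt k3 h
  have k6 : 2 * Real.pi * |(n j : ℝ)| < L * cut := by
    have := mul_lt_mul_of_pos_left k5 hL
    have e : L * (2 * Real.pi / L * |(n j : ℝ)|) = 2 * Real.pi * |(n j : ℝ)| := by
      field_simp
    rw [e] at this
    linarith
  have k7 : |(n j : ℝ)| ≤ κ := by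
    nlinarith [abs_nonneg (n j : ℝ)]
  have k8 : |(n j : ℝ)| ≤ (⌈κ⌉₊ : ℝ) := k7.trans (Nat.le_ceil _)
  have k9 : ((|n j| : ℤ) : ℝ) ≤ ((⌈κ⌉₊ : ℤ) : ℝ) := by
    push_cast
    exact k8
  exact_mod_cast k9

/-- bounding box -/
noncomputable def bx (N : ℕ) : Finset (Fin 3 → ℤ) := Fintype.piFinset fun _ => Finset.Icc (-(N : ℤ)) N

theorem mem_bx {N : ℕ} {n : Fin 3 → ℤ} : n ∈ bx N ↔ ∀ j, |n j| ≤ (N : ℤ) := by
  unfold bx
  simp only [Fintype.mem_piFinset, Finset.mem_Icc, abs_le]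

theorem card_bx (N : ℕ) : (bx N).card = (2 * N + 1) ^ 3 := by
  unfold bx
  rw [Fintype.card_piFinset]
  simp only [Int.card_Icc, Finset.prod_const, Finset.card_univ, Fintype.card_fin]
  congr 1
  omega

theorem mem_mom {κ : ℝ} (hL : 0 < L) (hk : L * cut ≤ κ) (hκ : 0 < κ) {n : Fin 3 → ℤ}
    (hn : n ≠ 0) (h : freq L n < cut) : n ∈ momenta cut L := by
  have hf : {n : Fin 3 → ℤ | n ≠ 0 ∧ freq L n < cut}.Finite := by
    refine (bx ⌈κ⌉₊).finite_toSet.subset ?_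
    rintro m ⟨_, hm⟩
    exact mem_bx.2 fun j => box_of_freq hL hk hκ hm j
  unfold momenta
  rw [dif_pos hf]
  exact hf.mem_toFinset.2 ⟨hn, h⟩

/-- bound for the number of modes -/
noncomputable def mk (κ : ℝ) : ℝ := 2 * (2 * (⌈κ⌉₊ : ℝ) + 1) ^ 3

theorem mk_pos (κ : ℝ) : 0 < mk κ := by
  unfold mk
  positivity

theorem card_le {κ : ℝ} (hL : 0 < L) (hk : L * cut ≤ κ) (hκ : 0 < κ) :
    (Fintype.card (Mode cut L) : ℝ) ≤ mk κ := by
  have h1 : momenta cut L ⊆ bx ⌈κ⌉₊ := fun n hn =>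
    mem_bx.2 fun j => box_of_freq hL hk hκ (mem_momenta hn).2 j
  have h2 := Finset.card_le_card h1
  rw [card_bx] at h2
  have h3 : Fintype.card (Mode cut L) = (momenta cut L).card * 2 := by
    rw [Fintype.card_prod, Fintype.card_fin, Fintype.card_coe]
  rw [h3]
  unfold mk
  have h4 : ((momenta cut L).card : ℝ) ≤ (2 * (⌈κ⌉₊ : ℝ) + 1) ^ 3 := by exact_mod_cast h2
  push_cast
  linarith

theorem four_le {κ : ℝ} (hL : 0 < L) (hk : L * cut ≤ κ) (h2 : 2 * Real.pi < L * cut) :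
    4 ≤ Fintype.card (Mode cut L) := by
  have hπ := Real.pi_pos
  have hκ : 0 < κ := by linarith
  obtain ⟨v, hv⟩ : ∃ v : Fin 3 → ℤ, v = ![1, 0, 0] := ⟨_, rfl⟩
  have hv0 : v ≠ 0 := by
    intro h
    have := congrFun h 0
    rw [hv] at this
    simp at this
  have hf : freq L v < cut := by
    have e : Pool.Agent.Helper49_Pauli.sq (wave L v) = (2 * Real.pi / L) ^ 2 := by
      unfold Pool.Agent.Helper49_Pauli.sq wave
      rw [hv, Fin.sum_univ_three]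
      simp
    unfold freq
    rw [e, Real.sqrt_sq (by positivity), div_lt_iff₀ hL]
    linarith
  have hf' : freq L (-v) < cut := by rw [freq_neg]; exact hf
  have m1 := mem_mom hL hk hκ hv0 hf
  have m2 := mem_mom hL hk hκ (neg_ne_zero.2 hv0) hf'
  have hne : v ≠ -v := fun h => hv0 (self_eq_neg.1 h)
  have h3 : ({v, -v} : Finset (Fin 3 → ℤ)) ⊆ momenta cut L := by
    intro n hn
    rcases Finset.mem_insert.1 hn with h | h
    · rw [h]; exact m1
    · rw [Finset.mem_singleton.1 h]; exact m2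
  have h4 := Finset.card_le_card h3
  rw [Finset.card_pair hne] at h4
  rw [Fintype.card_prod, Fintype.card_fin, Fintype.card_coe]
  omega

end count

/-- the coupled potential -/
noncomputable def am {cut L : ℝ} (α : ℝ) (P : Polarization L) (y : Mode cut L → ℝ) (j : Fin 3) :
    X3 → ℝ := fun x => Real.sqrt α * Af P y j x

theorem sm_am {cut L : ℝ} (α : ℝ) (P : Polarization L) (y : Mode cut L → ℝ) (j : Fin 3) :
    Sm (am α P y j) :=
  contDiff_const.mul (sm_Af P y j)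

theorem dmul_am {cut L : ℝ} (α : ℝ) (P : Polarization L) (y : Mode cut L → ℝ) (k j : Fin 3)
    (x : X3) : dmul (am α P y k) j x = Real.sqrt α * dmul (Af P y k) j x := by
  unfold dmul am
  rw [fderiv_const_mul ((sm_Af P y k).differentiable (by simp) x)]
  rfl

theorem isCurl_am {cut L : ℝ} (hL : 0 < L) (α : ℝ) (P : Polarization L) (y : Mode cut L → ℝ) :
    IsCurl (am α P y) (am α P fun i => lf (Rm P) i y) := by
  intro x
  have h := isCurl_Af hL P y x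
  simp only [dmul_am]
  refine ⟨?_, ?_, ?_⟩
  · rw [← mul_sub, ← h.1]; rfl
  · rw [← mul_sub, ← h.2.1]; rfl
  · rw [← mul_sub, ← h.2.2]; rfl

theorem Rb_le {cut L : ℝ} (hL : 0 < L) (P : Polarization L) (y : Mode cut L → ℝ) :
    ∑ i, lf (Rm P) i y ^ 2 ≤ cut ^ 2 * tt y := by
  rw [Rb_eq hL]
  unfold tt
  rw [Finset.mul_sum]
  refine Finset.sum_le_sum fun i _ => ?_
  have h := (mem_momenta i.1.2).2
  have h1 := sqn_wave_pos hL (mode_ne i)
  have h2 : Pool.Agent.Helper49_Pauli.sq (wave L i.1) ≤ cut ^ 2 := by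
    have h3 : Real.sqrt (Pool.Agent.Helper49_Pauli.sq (wave L i.1)) ≤ cut := h.le
    rw [← Real.sq_sqrt h1.le]
    gcongr
  gcongr

theorem Rb_ge {cut L : ℝ} (hL : 0 < L) (P : Polarization L) (y : Mode cut L → ℝ) :
    (2 * Real.pi / L) ^ 2 * tt y ≤ ∑ i, lf (Rm P) i y ^ 2 := by
  rw [Rb_eq hL]
  unfold tt
  rw [Finset.mul_sum]
  refine Finset.sum_le_sum fun i _ => ?_
  have h1 := wave_sq_ge hL (mode_ne i)
  gcongr

/-- the magnetic bound -/
theorem mag_final {α κ : ℝ} (hα : 0 < α) (hκ : 2 * Real.pi < κ) :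
    ∃ c1 : ℝ, 0 < c1 ∧ ∀ cut L : ℝ, 0 < L → 0 < cut → L * cut ≤ κ → ∀ (P : Polarization L)
      (y : Mode cut L → ℝ) (u : NT),
      c1 * cut ^ 2 * (tt y / (1 + tt y)) * ‖u‖ ^ 2 ≤
        ∑ j, ‖pj (am α P y) (sm_am α P y) j u‖ ^ 2 := by
  have hκ0 : 0 < κ := by have := Real.pi_pos; linarith
  obtain ⟨c1, hc1, hmain⟩ := magreal (μ := Real.sqrt (mk κ)) hα hκ (Real.sqrt_pos.2 (mk_pos κ))
  refine ⟨c1, hc1, fun cut L hL hcut hk P y u => ?_⟩
  obtain ⟨z, hz⟩ : ∃ z : Mode cut L → ℝ, z = fun i => lf (Rm P) i y := ⟨_, rfl⟩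
  obtain ⟨p, hp⟩ : ∃ p, p = Real.sqrt (∑ j, ‖pj (am α P y) (sm_am α P y) j u‖ ^ 2) := ⟨_, rfl⟩
  have hs0 : 0 ≤ ∑ j, ‖pj (am α P y) (sm_am α P y) j u‖ ^ 2 :=
    Finset.sum_nonneg fun _ _ => sq_nonneg _
  have hp2 : p ^ 2 = ∑ j, ‖pj (am α P y) (sm_am α P y) j u‖ ^ 2 := by
    rw [hp, Real.sq_sqrt hs0]
  have hp0 : 0 ≤ p := by rw [hp]; exact Real.sqrt_nonneg _
  have hpi : ∀ i, ‖pj (am α P y) (sm_am α P y) i u‖ ≤ p := by
    intro i
    refine le_of_sq_le_sq ?_ hp0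
    rw [hp2]
    exact Finset.single_le_sum (f := fun j => ‖pj (am α P y) (sm_am α P y) j u‖ ^ 2)
      (fun _ _ => sq_nonneg _) (Finset.mem_univ i)
  obtain ⟨Z, hZ⟩ : ∃ Z, Z = Real.sqrt (∑ i, z i ^ 2) := ⟨_, rfl⟩
  have hZ0 : 0 ≤ Z := by rw [hZ]; exact Real.sqrt_nonneg _
  have hZ2 : Z ^ 2 = ∑ i, z i ^ 2 := by
    rw [hZ, Real.sq_sqrt (Finset.sum_nonneg fun _ _ => sq_nonneg _)]
  obtain ⟨s1, hs1⟩ : ∃ s1, s1 = ∑ i, |z i| := ⟨_, rfl⟩
  have hs10 : 0 ≤ s1 := by rw [hs1]; exact Finset.sum_nonneg fun _ _ => abs_nonneg _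
  have hs1Z : s1 ≤ Real.sqrt (mk κ) * Z := by
    refine le_of_sq_le_sq ?_ (by positivity)
    rw [mul_pow, Real.sq_sqrt (mk_pos κ).le, hZ2, hs1]
    have k1 := Finset.sum_mul_sq_le_sq_mul_sq Finset.univ (fun _ : Mode cut L => (1 : ℝ))
      (fun i => |z i|)
    simp only [one_mul, one_pow, Finset.sum_const, Finset.card_univ, nsmul_eq_mul, mul_one,
      sq_abs] at k1
    have k2 := card_le (cut := cut) hL hk hκ0
    have k3 : 0 ≤ ∑ i, z i ^ 2 := Finset.sum_nonneg fun _ _ => sq_nonneg _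
    calc _ ≤ _ := k1
      _ ≤ _ := by gcongr
  obtain ⟨ρ, hρ⟩ : ∃ ρ, ρ = Real.sqrt (tt y) := ⟨_, rfl⟩
  have hρ0 : 0 ≤ ρ := by rw [hρ]; exact Real.sqrt_nonneg _
  have hρ2 : ρ ^ 2 = tt y := by rw [hρ, Real.sq_sqrt (tt_nonneg y)]
  have hsα : 0 ≤ Real.sqrt α := Real.sqrt_nonneg _
  have hcurl := isCurl_am hL α P y
  rw [← hz] at hcurl
  have h1 := magnetic (am α P y) (sm_am α P y) (sm_am α P z) hcurl
    (β0 := Real.sqrt α * (s1 / L)) (β1 := cut * (Real.sqrt α * (s1 / L))) (p := p)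
    (m0 := α * ∑ i : Mode cut L, z i ^ 2 * kp L i.1 ^ 2 / 2) (q0 := 2 * Real.pi / L)
    (by positivity) (by positivity) (fun l x => by
      unfold am
      rw [abs_mul, abs_of_nonneg hsα]
      have := Af_le P z hL l x
      rw [← hs1] at this
      gcongr) (fun l i x => by
      rw [dmul_am, abs_mul, abs_of_nonneg hsα]
      have := dAf_le P z hL l i x
      rw [← hs1] at this
      calc _ ≤ Real.sqrt α * (cut * (s1 / L)) := by gcongr
        _ = _ := by ring) u hpi (fun r => α * wt P z r) qt Helper19_Pauli2.pt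
      (by have := Real.pi_pos; positivity) (fun r => qt_large hL r) (fun x => by
      have k1 := sq_expand P z x
      rw [m0_eq] at k1
      have k2 : ∀ l, am α P z l x ^ 2 = α * Af P z l x ^ 2 := by
        intro l
        unfold am
        rw [mul_pow, Real.sq_sqrt hα.le]
      simp only [k2]
      rw [← Finset.mul_sum, k1, mul_add, Finset.mul_sum]
      congr 1
      rw [Finset.mul_sum]
      exact Finset.sum_congr rfl fun r _ => by ring)
  have h2 : ∑ r, |α * wt P z r| ≤ α * (Real.sqrt (mk κ) * Z / L) ^ 2 := by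
    have k1 := wt_le P z hL
    rw [← hs1] at k1
    have k2 : ∑ r, |α * wt P z r| = α * ∑ r, |wt P z r| := by
      rw [Finset.mul_sum]
      exact Finset.sum_congr rfl fun r _ => by rw [abs_mul, abs_of_pos hα]
    rw [k2]
    have k3 : s1 ^ 2 / L ^ 2 ≤ (Real.sqrt (mk κ) * Z / L) ^ 2 := by
      rw [div_pow]
      gcongr
    exact mul_le_mul_of_nonneg_left (k1.trans k3) hα.le
  have h3 : α * (Z ^ 2 / (2 * L ^ 3 * cut)) ≤
      α * ∑ i : Mode cut L, z i ^ 2 * kp L i.1 ^ 2 / 2 := by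
    refine mul_le_mul_of_nonneg_left ?_ hα.le
    rw [hZ2, Finset.sum_div]
    refine Finset.sum_le_sum fun i _ => ?_
    have k1 := kp_ge hL i.1
    calc z i ^ 2 / (2 * L ^ 3 * cut) = z i ^ 2 * (1 / (L ^ 3 * cut)) / 2 := by
          field_simp
      _ ≤ _ := by gcongr
  have hπ := Real.pi_pos
  have hU : 0 ≤ ‖u‖ := norm_nonneg _
  have h4 := hmain L cut Z ‖u‖ p ρ hL hcut hk hZ0 hU hp0 hρ0 (by
    refine le_of_sq_le_sq ?_ hZ0
    rw [mul_pow, hρ2, hZ2, hz]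
    exact Rb_ge hL P y) (by
    calc α * (Z ^ 2 / (2 * L ^ 3 * cut)) * ‖u‖ ^ 2 ≤
          (α * ∑ i : Mode cut L, z i ^ 2 * kp L i.1 ^ 2 / 2) * ‖u‖ ^ 2 := by gcongr
      _ ≤ _ := h1
      _ ≤ L / Real.pi * (α * (Real.sqrt (mk κ) * Z / L) ^ 2) * (‖u‖ * p) +
        6 * (Real.sqrt α * (Real.sqrt (mk κ) * Z / L)) * p ^ 2 +
        6 * (cut * (Real.sqrt α * (Real.sqrt (mk κ) * Z / L))) * ‖u‖ * p := by
          have e1 : 2 / (2 * Real.pi / L) = L / Real.pi := by field_simp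
          rw [e1]
          gcongr)
  rw [hρ2, hp2] at h4
  exact h4

end Pool.Agent.Helper19_Pauli2
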