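import Pool.Agent.Helper61_Pauli.GaussChange

/-!
# MP_8cfbae_mp: Gaussian integration by parts with bounded radial factors
-/

set_option autoImplicit false

open MeasureTheory ProbabilityTheory

namespace Pool.Agent.Helper19_Pauli2

open Pool.Agent.Helper49_Pauli Pool.Agent.Helper61_Pauli

variable {ι : Type} [Fintype ι]

/-- the square of the length -/
def tt (x : ι → ℝ) : ℝ := ∑ i, x i ^ 2

theorem tt_nonneg (x : ι → ℝ) : 0 ≤ tt x := Finset.sum_nonneg fun _ _ => sq_nonneg _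

theorem tt_cont : Continuous (tt : (ι → ℝ) → ℝ) := by
  unfold tt
  fun_prop

/-- continuous functions of polynomial growth -/
def Tm (F : (ι → ℝ) → ℝ) : Prop :=
  Continuous F ∧ ∃ (C : ℝ) (k : ℕ), 0 ≤ C ∧ ∀ x, |F x| ≤ C * (1 + tt x) ^ k

theorem Tm.add {F G : (ι → ℝ) → ℝ} (hF : Tm F) (hG : Tm G) : Tm fun x => F x + G x := by
  obtain ⟨h1, C, k, hC, h2⟩ := hF
  obtain ⟨g1, C', k', hC', g2⟩ := hG
  refine ⟨h1.add g1, C + C', max k k', by positivity, fun x => ?_⟩
  have ht := tt_nonneg x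
  have e1 : (1 + tt x) ^ k ≤ (1 + tt x) ^ max k k' :=
    pow_le_pow_right₀ (by linarith) (le_max_left _ _)
  have e2 : (1 + tt x) ^ k' ≤ (1 + tt x) ^ max k k' :=
    pow_le_pow_right₀ (by linarith) (le_max_right _ _)
  calc |F x + G x| ≤ |F x| + |G x| := abs_add_le _ _
    _ ≤ C * (1 + tt x) ^ k + C' * (1 + tt x) ^ k' := add_le_add (h2 x) (g2 x)
    _ ≤ C * (1 + tt x) ^ max k k' + C' * (1 + tt x) ^ max k k' := by gcongr
    _ = _ := by ring

theorem Tm.mul {F G : (ι → ℝ) → ℝ} (hF : Tm F) (hG : Tm G) : Tm fun x => F x * G x := by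
  obtain ⟨h1, C, k, hC, h2⟩ := hF
  obtain ⟨g1, C', k', hC', g2⟩ := hG
  refine ⟨h1.mul g1, C * C', k + k', by positivity, fun x => ?_⟩
  rw [abs_mul, pow_add]
  calc |F x| * |G x| ≤ (C * (1 + tt x) ^ k) * (C' * (1 + tt x) ^ k') :=
        mul_le_mul (h2 x) (g2 x) (abs_nonneg _) ((abs_nonneg _).trans (h2 x))
    _ = _ := by ring

theorem Tm.bdd {F : (ι → ℝ) → ℝ} (h : Continuous F) {C : ℝ} (hF : ∀ x, |F x| ≤ C) : Tm F :=
  ⟨h, C, 0, (abs_nonneg _).trans (hF 0), fun x => by simpa using hF x⟩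

theorem Tm.const (c : ℝ) : Tm fun _ : ι → ℝ => c := Tm.bdd continuous_const fun _ => le_rfl

theorem Tm.cmul (c : ℝ) {F : (ι → ℝ) → ℝ} (hF : Tm F) : Tm fun x => c * F x :=
  (Tm.const c).mul hF

theorem Tm.neg {F : (ι → ℝ) → ℝ} (hF : Tm F) : Tm fun x => -F x := by
  simpa using hF.cmul (-1)

theorem Tm.sub {F G : (ι → ℝ) → ℝ} (hF : Tm F) (hG : Tm G) : Tm fun x => F x - G x := by
  simpa [sub_eq_add_neg] using hF.add hG.neg

theorem Tm.sum {σ : Type} (s : Finset σ) {F : σ → (ι → ℝ) → ℝ} (hF : ∀ i ∈ s, Tm (F i)) :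
    Tm fun x => ∑ i ∈ s, F i x := by
  classical
  induction s using Finset.induction_on with
  | empty => simpa using Tm.const 0
  | insert a s ha ih =>
    simp only [Finset.sum_insert ha]
    exact (hF a (Finset.mem_insert_self a s)).add
      (ih fun i hi => hF i (Finset.mem_insert_of_mem hi))

theorem Tm.coord (i : ι) : Tm fun x : ι → ℝ => x i := by
  refine ⟨continuous_apply i, 1, 1, zero_le_one, fun x => ?_⟩
  have h : x i ^ 2 ≤ tt x := Finset.single_le_sum (f := fun i => x i ^ 2)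
    (fun _ _ => sq_nonneg _) (Finset.mem_univ i)
  rw [one_mul, pow_one]
  nlinarith [sq_abs (x i), sq_nonneg (|x i| - 1)]

theorem Tm.ttm : Tm (tt : (ι → ℝ) → ℝ) := by
  unfold tt
  refine Tm.sum _ fun i _ => ?_
  simpa [pow_two] using (Tm.coord i).mul (Tm.coord i)

theorem integrable_pow (k : ℕ) : Integrable fun x : ι → ℝ => gd x * (1 + tt x) ^ k := by
  have h1 := integrable_ev (ι := ι) ((1 + ∑ i, MvPolynomial.X i ^ 2) ^ k)
  rw [integrable_std, pi_gauss, integrable_withDensity_iff_integrable_smul₀'] at h1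
  · refine (h1.re).congr (Filter.Eventually.of_forall fun x => ?_)
    have e : ev ((1 + ∑ i, MvPolynomial.X i ^ 2) ^ k) (WithLp.toLp 2 x) =
        (((1 + tt x) ^ k : ℝ) : ℂ) := by
      unfold ev tt
      simp
    simp only [e]
    rw [ENNReal.toReal_ofReal (gd_nonneg x), Complex.real_smul, ← Complex.ofReal_mul]
    exact Complex.ofReal_re _
  · exact measurable_gd.ennreal_ofReal.aemeasurable
  · exact Filter.Eventually.of_forall fun x => ENNReal.ofReal_lt_top

theorem Tm.int {F : (ι → ℝ) → ℝ} (hF : Tm F) : Integrable fun x => gd x * F x := by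
  obtain ⟨h1, C, k, hC, h2⟩ := hF
  have hg : Continuous (gd : (ι → ℝ) → ℝ) := by
    unfold gd
    fun_prop
  refine ((integrable_pow k).const_mul C).mono' (hg.mul h1).aestronglyMeasurable
    (Filter.Eventually.of_forall fun x => ?_)
  rw [Real.norm_eq_abs, abs_mul, abs_of_nonneg (gd_nonneg x)]
  calc gd x * |F x| ≤ gd x * (C * (1 + tt x) ^ k) :=
        mul_le_mul_of_nonneg_left (h2 x) (gd_nonneg x)
    _ = _ := by ring

/-- Gaussian expectation -/
noncomputable def GE (F : (ι → ℝ) → ℝ) : ℝ := ∫ x, gd x * F x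

theorem GE_add {F G : (ι → ℝ) → ℝ} (hF : Tm F) (hG : Tm G) :
    GE (fun x => F x + G x) = GE F + GE G := by
  unfold GE
  rw [← integral_add hF.int hG.int]
  exact integral_congr_ae (Filter.Eventually.of_forall fun x => by ring)

theorem GE_sub {F G : (ι → ℝ) → ℝ} (hF : Tm F) (hG : Tm G) :
    GE (fun x => F x - G x) = GE F - GE G := by
  unfold GE
  rw [← integral_sub hF.int hG.int]
  exact integral_congr_ae (Filter.Eventually.of_forall fun x => by ring)

theorem GE_cmul (c : ℝ) (F : (ι → ℝ) → ℝ) : GE (fun x => c * F x) = c * GE F := by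
  unfold GE
  rw [← integral_const_mul]
  exact integral_congr_ae (Filter.Eventually.of_forall fun x => by ring)

theorem GE_sum {σ : Type} (s : Finset σ) {F : σ → (ι → ℝ) → ℝ} (hF : ∀ i ∈ s, Tm (F i)) :
    GE (fun x => ∑ i ∈ s, F i x) = ∑ i ∈ s, GE (F i) := by
  unfold GE
  rw [← integral_finsetSum _ fun i hi => (hF i hi).int]
  exact integral_congr_ae (Filter.Eventually.of_forall fun x => by simp only [Finset.mul_sum])

theorem GE_mono {F G : (ι → ℝ) → ℝ} (hF : Tm F) (hG : Tm G) (h : ∀ x, F x ≤ G x) :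
    GE F ≤ GE G :=
  integral_mono hF.int hG.int fun x => mul_le_mul_of_nonneg_left (h x) (gd_nonneg x)

theorem GE_nonneg {F : (ι → ℝ) → ℝ} (h : ∀ x, 0 ≤ F x) : 0 ≤ GE F :=
  integral_nonneg fun x => mul_nonneg (gd_nonneg x) (h x)

theorem tt_hasFDerivAt (x : ι → ℝ) : HasFDerivAt (tt : (ι → ℝ) → ℝ)
    (∑ i, (2 * x i) • (ContinuousLinearMap.proj i : (ι → ℝ) →L[ℝ] ℝ)) x := by
  have h : ∀ i, HasFDerivAt (fun x : ι → ℝ => x i ^ 2)
      ((2 * x i) • (ContinuousLinearMap.proj i : (ι → ℝ) →L[ℝ] ℝ)) x := by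
    intro i
    have h1 : HasFDerivAt (fun x : ι → ℝ => x i)
      (ContinuousLinearMap.proj i : (ι → ℝ) →L[ℝ] ℝ) x := hasFDerivAt_apply i x
    have h2 := h1.pow 2
    simpa using h2
  have := HasFDerivAt.fun_sum (u := Finset.univ) fun i _ => h i
  exact this

theorem gd_hasFDerivAt (x : ι → ℝ) : HasFDerivAt (gd : (ι → ℝ) → ℝ)
    ((-(1 / 2) * gd x) • ∑ i, (2 * x i) • (ContinuousLinearMap.proj i : (ι → ℝ) →L[ℝ] ℝ)) x := by
  have h1 := ((tt_hasFDerivAt x).const_mul (-(1 / 2 : ℝ))).exp.const_mul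
    ((Real.sqrt (2 * Real.pi))⁻¹ ^ Fintype.card ι)
  refine h1.congr_fderiv ?_
  unfold gd tt
  module

/-- integration by parts -/
theorem GE_ibp [DecidableEq ι] {F F' : (ι → ℝ) → ℝ} (i : ι) (hd : Differentiable ℝ F)
    (hF' : ∀ x, fderiv ℝ F x (Pi.single i 1) = F' x) (hF : Tm F) (hT : Tm F') :
    GE F' = GE (fun x => x i * F x) := by
  have hg : ∀ x : ι → ℝ, fderiv ℝ (gd : (ι → ℝ) → ℝ) x (Pi.single i 1) = -(x i * gd x) := by
    intro x
    rw [(gd_hasFDerivAt x).fderiv]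
    simp [Pi.single_apply]
    ring
  have h := integral_mul_fderiv_eq_neg_fderiv_mul_of_integrable (μ := (volume : Measure (ι → ℝ)))
    (f := gd) (g := F) (v := Pi.single i 1) ?_ ?_ ?_ ?_ ?_
  · simp only [hF', hg] at h
    unfold GE
    rw [h, ← integral_neg]
    exact integral_congr_ae (Filter.Eventually.of_forall fun x => by simp only; ring)
  · simp only [hg]
    refine (((Tm.coord i).mul hF).int.neg).congr (Filter.Eventually.of_forall fun x => ?_)
    simp only [Pi.neg_apply]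
    ring
  · simp only [hF']
    exact hT.int
  · exact hF.int
  · exact fun x _ => (gd_hasFDerivAt x).differentiableAt
  · exact fun x _ => hd x

/-- the linear vector field -/
def lf (R : ι → ι → ℝ) (i : ι) (x : ι → ℝ) : ℝ := ∑ j, R i j * x j

theorem Tm.lf (R : ι → ι → ℝ) (i : ι) : Tm (lf R i) :=
  Tm.sum _ fun j _ => (Tm.coord j).cmul _

/-- divergence lemma -/
theorem divl [DecidableEq ι] (R : ι → ι → ℝ) (ψ ψ' : ℝ → ℝ)
    (hψ : ∀ t, 0 ≤ t → HasDerivAt ψ (ψ' t) t) {C : ℝ}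
    (hc' : Continuous fun x : ι → ℝ => ψ' (tt x))
    (hb : ∀ t, 0 ≤ t → |ψ t| ≤ C) (hb' : ∀ t, 0 ≤ t → |ψ' t| ≤ C)
    {Φ : (ι → ℝ) → ℝ} {G : ι → (ι → ℝ) → ℝ} (hd : Differentiable ℝ Φ)
    (hG : ∀ i x, fderiv ℝ Φ x (Pi.single i 1) = G i x) (hΦ : Tm Φ) (hGT : ∀ i, Tm (G i)) :
    GE (fun x => ψ (tt x) * ∑ i, lf R i x * G i x) =
      GE (fun x => ψ (tt x) * (∑ i, x i * lf R i x) * Φ x) -
      GE (fun x => 2 * ψ' (tt x) * (∑ i, x i * lf R i x) * Φ x) -
      (∑ i, R i i) * GE (fun x => ψ (tt x) * Φ x) := by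
  have hψd : ∀ x : ι → ℝ, HasFDerivAt (fun x : ι → ℝ => ψ (tt x))
      (ψ' (tt x) • ∑ i, (2 * x i) • (ContinuousLinearMap.proj i : (ι → ℝ) →L[ℝ] ℝ)) x := by
    intro x
    exact (hψ (tt x) (tt_nonneg x)).comp_hasFDerivAt x (tt_hasFDerivAt x)
  have hψT : Tm fun x : ι → ℝ => ψ (tt x) :=
    Tm.bdd (continuous_iff_continuousAt.2 fun x => (hψd x).continuousAt)
      fun x => hb _ (tt_nonneg x)
  have hψ'T : Tm fun x : ι → ℝ => ψ' (tt x) := Tm.bdd hc' fun x => hb' _ (tt_nonneg x)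
  have hlf : ∀ i (x : ι → ℝ), HasFDerivAt (lf R i)
      (∑ j, R i j • (ContinuousLinearMap.proj j : (ι → ℝ) →L[ℝ] ℝ)) x := by
    intro i x
    have : lf R i = fun x => (∑ j, R i j • (ContinuousLinearMap.proj j : (ι → ℝ) →L[ℝ] ℝ)) x := by
      funext x
      simp [lf]
    rw [this]
    exact ContinuousLinearMap.hasFDerivAt _
  have hprod : ∀ i (x : ι → ℝ), HasFDerivAt (fun x => ψ (tt x) * (lf R i x * Φ x)) _ x :=
    fun i x => (hψd x).mul ((hlf i x).mul (hd x).hasFDerivAt)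
  have hT3 : Tm fun x : ι → ℝ => ∑ i, x i * lf R i x :=
    Tm.sum _ fun i _ => (Tm.coord i).mul (Tm.lf R i)
  have key : ∀ i, GE (fun x => 2 * ψ' (tt x) * (x i * lf R i x) * Φ x +
      R i i * (ψ (tt x) * Φ x) + ψ (tt x) * (lf R i x * G i x)) =
      GE (fun x => x i * (ψ (tt x) * (lf R i x * Φ x))) := by
    intro i
    refine GE_ibp i (fun x => (hprod i x).differentiableAt) (fun x => ?_)
      (hψT.mul ((Tm.lf R i).mul hΦ)) ?_
    · rw [(hprod i x).fderiv]
      simp only [add_apply, smul_apply, smul_eq_mul, hG]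
      have e1 : (∑ i, (2 * x i) • (ContinuousLinearMap.proj i : (ι → ℝ) →L[ℝ] ℝ))
          (Pi.single i 1) = 2 * x i := by
        simp [Pi.single_apply]
      have e2 : (∑ j, R i j • (ContinuousLinearMap.proj j : (ι → ℝ) →L[ℝ] ℝ))
          (Pi.single i 1) = R i i := by
        simp [Pi.single_apply]
      rw [e1, e2]
      ring
    · exact (((hψ'T.cmul 2).mul ((Tm.coord i).mul (Tm.lf R i))).mul hΦ).add
        ((hψT.mul hΦ).cmul _) |>.add (hψT.mul ((Tm.lf R i).mul (hGT i)))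
  have hsum : ∑ i, GE (fun x => 2 * ψ' (tt x) * (x i * lf R i x) * Φ x +
      R i i * (ψ (tt x) * Φ x) + ψ (tt x) * (lf R i x * G i x)) =
      ∑ i, GE (fun x => x i * (ψ (tt x) * (lf R i x * Φ x))) :=
    Finset.sum_congr rfl fun i _ => key i
  have hA : ∀ i, Tm fun x => 2 * ψ' (tt x) * (x i * lf R i x) * Φ x := fun i =>
    ((hψ'T.cmul 2).mul ((Tm.coord i).mul (Tm.lf R i))).mul hΦ
  have hB : ∀ i, Tm fun x => R i i * (ψ (tt x) * Φ x) := fun i => (hψT.mul hΦ).cmul _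
  have hC : ∀ i, Tm fun x => ψ (tt x) * (lf R i x * G i x) := fun i =>
    hψT.mul ((Tm.lf R i).mul (hGT i))
  have hD : ∀ i, Tm fun x => x i * (ψ (tt x) * (lf R i x * Φ x)) := fun i =>
    (Tm.coord i).mul (hψT.mul ((Tm.lf R i).mul hΦ))
  have s1 : ∑ i, GE (fun x => 2 * ψ' (tt x) * (x i * lf R i x) * Φ x +
      R i i * (ψ (tt x) * Φ x) + ψ (tt x) * (lf R i x * G i x)) =
      GE (fun x => 2 * ψ' (tt x) * (∑ i, x i * lf R i x) * Φ x) +
      (∑ i, R i i) * GE (fun x => ψ (tt x) * Φ x) +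
      GE (fun x => ψ (tt x) * ∑ i, lf R i x * G i x) := by
    have t1 : ∀ i, GE (fun x => 2 * ψ' (tt x) * (x i * lf R i x) * Φ x +
      R i i * (ψ (tt x) * Φ x) + ψ (tt x) * (lf R i x * G i x)) =
      GE (fun x => 2 * ψ' (tt x) * (x i * lf R i x) * Φ x) + R i i * GE (fun x => ψ (tt x) * Φ x) +
      GE (fun x => ψ (tt x) * (lf R i x * G i x)) := by
      intro i
      rw [GE_add ((hA i).add (hB i)) (hC i), GE_add (hA i) (hB i), GE_cmul]
    simp only [t1]
    rw [Finset.sum_add_distrib, Finset.sum_add_distrib, ← Finset.sum_mul,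
      ← GE_sum _ fun i _ => hA i, ← GE_sum _ fun i _ => hC i]
    congr 2
    · congr 1
      funext x
      rw [Finset.mul_sum, Finset.sum_mul]
    · funext x
      rw [Finset.mul_sum]
  have s2 : ∑ i, GE (fun x => x i * (ψ (tt x) * (lf R i x * Φ x))) =
      GE (fun x => ψ (tt x) * (∑ i, x i * lf R i x) * Φ x) := by
    rw [← GE_sum _ fun i _ => hD i]
    congr 1
    funext x
    rw [Finset.mul_sum, Finset.sum_mul]
    refine Finset.sum_congr rfl fun i _ => ?_
    ring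
  rw [s1, s2] at hsum
  linarith

end Pool.Agent.Helper19_Pauli2
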