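import Pool.Agent.Helper19_Pauli2.XPauli
import Pool.Agent.Helper19_Pauli2.YGauss
import Pool.Agent.Helper75_Pauli.Half

/-!
# MP_8cfbae_mp: the real modes, helicity and the magnetic bound
-/

set_option autoImplicit false

open MeasureTheory Complex

namespace Pool.Agent.Helper19_Pauli2

open Pool.Agent.Helper49_Pauli Pool.Agent.Helper75_Pauli.Half

/-- cross product -/
def crs (u v : X3) : X3 := ![u 1 * v 2 - u 2 * v 1, u 2 * v 0 - u 0 * v 2, u 0 * v 1 - u 1 * v 0]

theorem crs0 (u v : X3) : crs u v 0 = u 1 * v 2 - u 2 * v 1 := rfl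
theorem crs1 (u v : X3) : crs u v 1 = u 2 * v 0 - u 0 * v 2 := rfl
theorem crs2 (u v : X3) : crs u v 2 = u 0 * v 1 - u 1 * v 0 := rfl

theorem dot3 (u v : X3) : dot u v = u 0 * v 0 + u 1 * v 1 + u 2 * v 2 := by
  simp [dot, Fin.sum_univ_three]

theorem dot_crs_self (u v : X3) : dot u (crs u v) = 0 := by
  rw [dot3, crs0, crs1, crs2]
  ring

theorem lagrange (u v : X3) : dot (crs u v) (crs u v) = dot u u * dot v v - dot u v ^ 2 := by
  simp only [dot3, crs0, crs1, crs2]
  ring

variable {cut L : ℝ}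

/-- momenta as a type -/
abbrev MM (cut L : ℝ) := {n : Fin 3 → ℤ // n ∈ momenta cut L}

/-- normalisation -/
noncomputable def kp (L : ℝ) (n : Fin 3 → ℤ) : ℝ :=
  Real.sqrt (2 / L ^ 3) / Real.sqrt (2 * Real.sqrt (Pool.Agent.Helper49_Pauli.sq (wave L n)))

theorem kp_neg (n : Fin 3 → ℤ) : kp L (-n) = kp L n := by
  unfold kp
  rw [wave_neg, sq_neg']

theorem kp_nonneg (n : Fin 3 → ℤ) : 0 ≤ kp L n := by
  unfold kp
  positivity

theorem cf_eq (P : Polarization L) (x : X3) (j : Fin 3) (i : Mode cut L) :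
    cf P x j i = kp L i.1 * Real.cos (dot (wave L i.1) x - th i.1) * P.e i.1 i.2 j := by
  unfold cf kp
  ring

/-- the potential of the field configuration `y` -/
noncomputable def Af (P : Polarization L) (y : Mode cut L → ℝ) (j : Fin 3) (x : X3) : ℝ :=
  ∑ i, y i * cf P x j i

theorem sm_cf (P : Polarization L) (j : Fin 3) (i : Mode cut L) : Sm fun x => cf P x j i := by
  unfold Sm
  simp only [cf_eq]
  unfold dot
  fun_prop

theorem sm_Af (P : Polarization L) (y : Mode cut L → ℝ) (j : Fin 3) : Sm (Af P y j) := by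
  unfold Sm Af
  refine ContDiff.sum fun i _ => ?_
  exact contDiff_const.mul (sm_cf P j i)

theorem dmul_Af (P : Polarization L) (y : Mode cut L → ℝ) (k j : Fin 3) (x : X3) :
    dmul (Af P y k) j x = ∑ i, y i * (-(kp L i.1 * Real.sin (dot (wave L i.1) x - th i.1) *
      wave L i.1 j * P.e i.1 i.2 k)) := by
  have h : ∀ i : Mode cut L, HasFDerivAt (fun x => y i * cf P x k i)
      ((y i * (-(kp L i.1 * Real.sin (dot (wave L i.1) x - th i.1) * P.e i.1 i.2 k))) •
        ∑ l, wave L i.1 l • (ContinuousLinearMap.proj l : X3 →L[ℝ] ℝ)) x := by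
    intro i
    have h0 : HasFDerivAt (fun x : X3 => dot (wave L i.1) x) (∑ l, wave L i.1 l •
        (ContinuousLinearMap.proj l : X3 →L[ℝ] ℝ)) x := by
      have : (fun x : X3 => dot (wave L i.1) x) = fun x => (∑ l, wave L i.1 l •
        (ContinuousLinearMap.proj l : X3 →L[ℝ] ℝ)) x := by
        funext x
        simp [dot]
      rw [this]
      exact ContinuousLinearMap.hasFDerivAt _
    have h1 := (((h0.sub_const (th i.1)).cos.const_mul (kp L i.1)).mul_const
      (P.e i.1 i.2 k)).const_mul (y i)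
    simp only [cf_eq]
    refine h1.congr_fderiv ?_
    module
  have h2 : HasFDerivAt (Af P y k) (∑ i, (y i * (-(kp L i.1 *
      Real.sin (dot (wave L i.1) x - th i.1) * P.e i.1 i.2 k))) •
        ∑ l, wave L i.1 l • (ContinuousLinearMap.proj l : X3 →L[ℝ] ℝ)) x :=
    HasFDerivAt.fun_sum (u := Finset.univ) fun i _ => h i
  unfold dmul
  rw [h2.fderiv]
  simp only [sum_apply, smul_apply, smul_eq_mul]
  refine Finset.sum_congr rfl fun i _ => ?_
  simp [Pi.single_apply]
  ring

/-- the helicity matrix -/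
noncomputable def Rm (P : Polarization L) (i j : Mode cut L) : ℝ :=
  if ng i.1 = j.1 then dot (P.e i.1 i.2) (crs (wave L j.1) (P.e j.1 j.2)) else 0

theorem ng_ne (n : MM cut L) : ng n ≠ n := by
  intro h
  have h1 : -(n.1) = n.1 := congrArg Subtype.val h
  exact (mem_momenta n.2).1 (self_eq_neg.1 h1.symm)

theorem Rm_diag (P : Polarization L) (i : Mode cut L) : Rm P i i = 0 := by
  unfold Rm
  rw [if_neg (ng_ne i.1)]

/-- the vector of the momentum `n` -/
noncomputable def vv (P : Polarization L) (y : Mode cut L → ℝ) (n : MM cut L) : X3 :=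
  fun j => ∑ l, y (n, l) * P.e n.1 l j

/-- the vector of the magnetic field -/
noncomputable def WW (P : Polarization L) (y : Mode cut L → ℝ) (n : MM cut L) : X3 :=
  crs (wave L (ng n).1) (vv P y (ng n))

theorem lf_Rm (P : Polarization L) (y : Mode cut L → ℝ) (n : MM cut L) (l : Fin 2) :
    lf (Rm P) (n, l) y = dot (P.e n.1 l) (WW P y n) := by
  unfold lf
  rw [Fintype.sum_prod_type, Finset.sum_eq_single (ng n)]
  · unfold Rm WW vv
    simp only [if_true, dot3, crs0, crs1, crs2, Fin.sum_univ_two]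
    ring
  · intro n' _ h
    refine Finset.sum_eq_zero fun l' _ => ?_
    unfold Rm
    rw [if_neg (fun h' => h h'.symm), zero_mul]
  · intro h; exact absurd (Finset.mem_univ _) h

theorem wave_ng (n : MM cut L) : wave L (ng n).1 = -wave L n.1 := wave_neg L n.1

theorem dot_WW (P : Polarization L) (y : Mode cut L → ℝ) (n : MM cut L) :
    dot (wave L n.1) (WW P y n) = 0 := by
  unfold WW
  rw [wave_ng]
  simp only [dot3, crs0, crs1, crs2, Pi.neg_apply]
  ring

theorem dot_vv (P : Polarization L) (y : Mode cut L → ℝ) (n : MM cut L) :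
    dot (wave L n.1) (vv P y n) = 0 := by
  have h0 := P.transverse n.1 (mem_momenta n.2).1 0
  have h1 := P.transverse n.1 (mem_momenta n.2).1 1
  unfold vv
  simp only [dot3, Fin.sum_univ_two] at h0 h1 ⊢
  linear_combination y (n, 0) * h0 + y (n, 1) * h1

theorem vv_sq (P : Polarization L) (y : Mode cut L → ℝ) (n : MM cut L) :
    dot (vv P y n) (vv P y n) = ∑ l, y (n, l) ^ 2 := by
  have h00 := P.orthonormal n.1 (mem_momenta n.2).1 0 0
  have h01 := P.orthonormal n.1 (mem_momenta n.2).1 0 1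
  have h11 := P.orthonormal n.1 (mem_momenta n.2).1 1 1
  unfold vv
  simp only [dot3, Fin.sum_univ_two, if_true, Fin.isValue, zero_ne_one, if_false]
    at h00 h01 h11 ⊢
  linear_combination y (n, 0) ^ 2 * h00 + 2 * y (n, 0) * y (n, 1) * h01 + y (n, 1) ^ 2 * h11

theorem dot_self (x : X3) : dot x x = Pool.Agent.Helper49_Pauli.sq x := by
  unfold dot Pool.Agent.Helper49_Pauli.sq
  exact Finset.sum_congr rfl fun j _ => by ring

theorem sum_ng (f : MM cut L → ℝ) : ∑ n, f (ng n) = ∑ n, f n :=
  (Equiv.ofBijective (ng (cut := cut) (L := L))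
    (Function.Involutive.bijective ng_ng)).sum_comp f

theorem Rb_eq (hL : 0 < L) (P : Polarization L) (y : Mode cut L → ℝ) :
    ∑ i, lf (Rm P) i y ^ 2 = ∑ i : Mode cut L, Pool.Agent.Helper49_Pauli.sq (wave L i.1) * y i ^ 2 := by
  rw [Fintype.sum_prod_type, Fintype.sum_prod_type]
  have h : ∀ n : MM cut L, ∑ l, lf (Rm P) (n, l) y ^ 2 =
      (fun n : MM cut L => ∑ l, Pool.Agent.Helper49_Pauli.sq (wave L n.1) * y (n, l) ^ 2) (ng n) := by
    intro n
    simp only [lf_Rm]
    have h1 := parseval P hL (mem_momenta n.2).1 (WW P y n) (WW P y n) (dot_WW P y n)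
    have h2 : ∑ l, dot (P.e n.1 l) (WW P y n) ^ 2 = dot (WW P y n) (WW P y n) := by
      rw [← h1]
      exact Finset.sum_congr rfl fun l _ => by ring
    rw [h2]
    unfold WW
    rw [lagrange, dot_vv, vv_sq, ← dot_self, Finset.mul_sum]
    simp
  simp only [h]
  exact sum_ng (fun n : MM cut L =>
    ∑ l, Pool.Agent.Helper49_Pauli.sq (wave L n.1) * y (n, l) ^ 2)

theorem cos_ng (n : MM cut L) (x : X3) : Real.cos (dot (wave L (ng n).1) x - th (ng n).1) =
    -Real.sin (dot (wave L n.1) x - th n.1) := by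
  have hn := (mem_momenta n.2).1
  have h0 : (ng n).1 = -n.1 := rfl
  rw [wave_ng, dot_neg, h0]
  unfold th
  by_cases h : Hp n.1
  · have h' : ¬ Hp (-n.1) := by rw [hp_neg n.1 hn]; simpa using h
    simp only [h, h', if_true, if_false]
    rw [show -dot (wave L n.1) x - Real.pi / 2 = -(dot (wave L n.1) x + Real.pi / 2) by ring,
      Real.cos_neg, Real.cos_add_pi_div_two, sub_zero]
  · have h' : Hp (-n.1) := by rw [hp_neg n.1 hn]; exact h
    simp only [h, h', if_true, if_false]
    rw [sub_zero, Real.cos_neg, Real.sin_sub_pi_div_two, neg_neg]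

theorem Af_Rm (hL : 0 < L) (P : Polarization L) (y : Mode cut L → ℝ) (j : Fin 3) (x : X3) :
    Af P (fun i => lf (Rm P) i y) j x =
      ∑ n : MM cut L, -(kp L n.1 * Real.sin (dot (wave L n.1) x - th n.1)) *
        crs (wave L n.1) (vv P y n) j := by
  unfold Af
  rw [Fintype.sum_prod_type]
  have h : ∀ n : MM cut L, ∑ l, lf (Rm P) (n, l) y * cf P x j (n, l) =
      (fun n : MM cut L => -(kp L n.1 * Real.sin (dot (wave L n.1) x - th n.1)) *
        crs (wave L n.1) (vv P y n) j) (ng n) := by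
    intro n
    simp only [lf_Rm, cf_eq]
    have h1 := complete P hL (mem_momenta n.2).1 (WW P y n) (dot_WW P y n) j
    have h2 : ∑ l, dot (P.e n.1 l) (WW P y n) * (kp L n.1 *
        Real.cos (dot (wave L n.1) x - th n.1) * P.e n.1 l j) =
        kp L n.1 * Real.cos (dot (wave L n.1) x - th n.1) * WW P y n j := by
      rw [← h1, Finset.mul_sum]
      exact Finset.sum_congr rfl fun l _ => by ring
    rw [h2]
    have h3 := cos_ng (ng n) x
    rw [ng_ng] at h3
    have h4 : kp L (ng n).1 = kp L n.1 := kp_neg n.1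
    rw [h3, h4]
    unfold WW
    ring
  simp only [h]
  exact sum_ng (fun n : MM cut L => -(kp L n.1 * Real.sin (dot (wave L n.1) x - th n.1)) *
        crs (wave L n.1) (vv P y n) j)

theorem isCurl_Af (hL : 0 < L) (P : Polarization L) (y : Mode cut L → ℝ) :
    IsCurl (Af P y) (Af P fun i => lf (Rm P) i y) := by
  intro x
  simp only [Af_Rm hL, dmul_Af, Fintype.sum_prod_type, crs0, crs1, crs2, vv]
  refine ⟨?_, ?_, ?_⟩
  all_goals
    rw [← Finset.sum_sub_distrib]
    refine Finset.sum_congr rfl fun n _ => ?_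
    simp only [Fin.sum_univ_two]
    ring

end Pool.Agent.Helper19_Pauli2
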