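import Pool.Agent.Helper19_Pauli2.YGauss

/-!
# MP_8cfbae_mp: the lower bound, analysis in the field variables (abstract form)
-/

set_option autoImplicit false
set_option linter.unusedSectionVars false

open MeasureTheory ProbabilityTheory

namespace Pool.Agent.Helper19_Pauli2

open Pool.Agent.Helper49_Pauli Pool.Agent.Helper61_Pauli

variable {ι : Type} [Fintype ι] [DecidableEq ι]

/-- the data of a state in the Schroedinger representation: `N = |f|^2`, `D2 = |D f|^2`,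
`P2 = |pi f|^2`, `Φ = <f, D f>`, `TT = |grad f|^2`, `V i = Re <f, f_i>`, `X i = Re <f_i, D f>`,
`S i = <f, sigma . e_i f>` -/
structure YD (R : ι → ι → ℝ) (Lam c1 : ℝ) (N D2 P2 Φ TT : (ι → ℝ) → ℝ)
    (V X S : ι → (ι → ℝ) → ℝ) : Prop where
  card : 4 ≤ Fintype.card ι
  tr : ∑ i, R i i = 0
  Rb : ∀ x, ∑ i, lf R i x ^ 2 ≤ Lam ^ 2 * tt x
  Lpos : 0 < Lam
  cpos : 0 < c1
  tN : Tm N
  tD : Tm D2
  tP : Tm P2
  tΦ : Tm Φ
  tT : Tm TT
  tV : ∀ i, Tm (V i)
  tX : ∀ i, Tm (X i)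
  tS : ∀ i, Tm (S i)
  dN : Differentiable ℝ N
  dN' : ∀ i x, fderiv ℝ N x (Pi.single i 1) = 2 * V i x
  dΦ : Differentiable ℝ Φ
  dΦ' : ∀ i x, fderiv ℝ Φ x (Pi.single i 1) = 2 * X i x + S i x
  N0 : ∀ x, 0 ≤ N x
  D0 : ∀ x, 0 ≤ D2 x
  T0 : ∀ x, 0 ≤ TT x
  b1 : ∀ (b : ι → ℝ) x, (∑ i, b i * X i x) ^ 2 ≤ (∑ i, b i ^ 2) * (TT x * D2 x)
  b2 : ∀ x, Φ x ^ 2 ≤ N x * D2 x
  b3 : ∀ (b : ι → ℝ) x, (∑ i, b i * V i x) ^ 2 ≤ (∑ i, b i ^ 2) * (TT x * N x)
  ha : ∀ x, ∑ i, lf R i x * S i x = D2 x - P2 x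
  hc : ∀ x, c1 * Lam ^ 2 * (tt x / (1 + tt x)) * N x ≤ P2 x

theorem amgm {s u v c : ℝ} (hu : 0 ≤ u) (hv : 0 ≤ v) (hc : 0 < c) (h : s ^ 2 ≤ u * v) :
    2 * |s| ≤ c * u + v / c := by
  have h1 : 0 ≤ c * u + v / c := by positivity
  have h2 : (2 * |s|) ^ 2 ≤ (c * u + v / c) ^ 2 := by
    rw [mul_pow, sq_abs]
    have h3 : (c * u + v / c) ^ 2 = (c * u - v / c) ^ 2 + 4 * (u * v) := by
      field_simp
      ring
    rw [h3]
    nlinarith [sq_nonneg (c * u - v / c)]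
  exact abs_le_of_sq_le_sq' h2 h1 |>.2

/-- the identity matrix -/
def idm (i j : ι) : ℝ := if i = j then 1 else 0

theorem lf_idm (i : ι) (x : ι → ℝ) : lf idm i x = x i := by
  simp [lf, idm]

theorem tr_idm : ∑ i : ι, idm i i = Fintype.card ι := by
  simp [idm]

theorem x_idm (x : ι → ℝ) : ∑ i, x i * lf idm i x = tt x := by
  simp only [lf_idm, tt, pow_two]

/-- the cutoff function -/
noncomputable def cf1 (r t : ℝ) : ℝ := (Real.sqrt (1 + r * t))⁻¹

theorem cf1_pos {r t : ℝ} (hr : 0 < r) (ht : 0 ≤ t) : 0 < cf1 r t :=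
  inv_pos.2 (Real.sqrt_pos.2 (by positivity))

theorem cf1_sq {r t : ℝ} (hr : 0 < r) (ht : 0 ≤ t) : cf1 r t ^ 2 = (1 + r * t)⁻¹ := by
  unfold cf1
  rw [inv_pow, Real.sq_sqrt (by positivity)]

theorem cf1_le {r t : ℝ} (hr : 0 < r) (ht : 0 ≤ t) : cf1 r t ≤ 1 := by
  have h1 := cf1_sq hr ht
  have h2 : (1 + r * t)⁻¹ ≤ 1 := inv_le_one_of_one_le₀ (by nlinarith [mul_nonneg hr.le ht])
  have h3 := cf1_pos hr ht
  nlinarith

theorem cf1_t {r t : ℝ} (hr : 0 < r) (ht : 0 ≤ t) : r * (cf1 r t ^ 2 * t) ≤ 1 := by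
  rw [cf1_sq hr ht, ← mul_assoc, mul_comm r, mul_assoc, inv_mul_le_iff₀ (by positivity)]
  linarith

theorem cf1_deriv {r t : ℝ} (hr : 0 < r) (ht : 0 ≤ t) :
    HasDerivAt (cf1 r) (-(r / 2) * (cf1 r t) ^ 3) t := by
  have hp : 0 < 1 + r * t := by positivity
  have h0 : HasDerivAt (fun t : ℝ => 1 + r * t) r t := by
    simpa using ((hasDerivAt_id' t).const_mul r).const_add 1
  have h1 := (h0.sqrt hp.ne').fun_inv (Real.sqrt_pos.2 hp).ne'
  unfold cf1
  refine h1.congr_deriv ?_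
  have hs := Real.sqrt_pos.2 hp
  field_simp

theorem cf1_cont {r : ℝ} (hr : 0 < r) : Continuous fun x : ι → ℝ => cf1 r (tt x) := by
  unfold cf1
  refine Continuous.inv₀ ?_ fun x => (Real.sqrt_pos.2 ?_).ne'
  · exact Real.continuous_sqrt.comp (continuous_const.add (continuous_const.mul tt_cont))
  · have := tt_nonneg x
    positivity

theorem cf1_tm {r : ℝ} (hr : 0 < r) : Tm fun x : ι → ℝ => cf1 r (tt x) :=
  Tm.bdd (cf1_cont hr) (C := 1) fun x => by
    rw [abs_of_pos (cf1_pos hr (tt_nonneg x))]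
    exact cf1_le hr (tt_nonneg x)

theorem quo_tm : Tm fun x : ι → ℝ => tt x / (1 + tt x) :=
  Tm.bdd (tt_cont.div (continuous_const.add tt_cont) fun x => by
      have := tt_nonneg x
      positivity) (C := 1) fun x => by
    have := tt_nonneg x
    rw [abs_of_nonneg (by positivity), div_le_one (by positivity)]
    linarith

section

variable {R : ι → ι → ℝ} {Lam c1 : ℝ} {N D2 P2 Φ TT : (ι → ℝ) → ℝ}
    {V X S : ι → (ι → ℝ) → ℝ} (h : YD R Lam c1 N D2 P2 Φ TT V X S)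
include h

theorem YD.m1 : GE (fun x => tt x * N x) ≤ 4 * GE TT + 2 * Fintype.card ι * GE N := by
  have h1 := divl idm (fun _ => 1) (fun _ => 0) (fun t _ => hasDerivAt_const t 1) (C := 1)
    continuous_const (fun _ _ => by simp) (fun _ _ => by simp) h.dN (G := fun i x => 2 * V i x)
    h.dN' h.tN (fun i => (h.tV i).cmul 2)
  simp only [lf_idm, one_mul, mul_zero, zero_mul, tr_idm] at h1
  have h2 : ∀ x : ι → ℝ, ∑ i, x i * x i = tt x := fun x => by simp only [tt, pow_two]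
  simp only [h2] at h1
  have h3 : GE (fun _ : ι → ℝ => (0 : ℝ)) = 0 := by simp [GE]
  rw [h3] at h1
  have tVs : Tm fun x => ∑ i, x i * (2 * V i x) :=
    Tm.sum _ fun i _ => (Tm.coord i).mul ((h.tV i).cmul 2)
  have h4 : GE (fun x => ∑ i, x i * (2 * V i x)) ≤
      GE (fun x => 1 / 2 * (tt x * N x) + 2 * TT x) := by
    refine GE_mono tVs (((Tm.ttm.mul h.tN).cmul _).add (h.tT.cmul 2)) fun x => ?_
    have e1 : ∑ i, x i * (2 * V i x) = 2 * ∑ i, x i * V i x := by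
      rw [Finset.mul_sum]
      exact Finset.sum_congr rfl fun i _ => by ring
    rw [e1]
    have e2 := amgm (s := ∑ i, x i * V i x) (u := tt x * N x) (v := TT x) (c := 1 / 2)
      (mul_nonneg (tt_nonneg x) (h.N0 x)) (h.T0 x) (by norm_num)
      ((h.b3 x x).trans (le_of_eq (by unfold tt; ring)))
    have e3 := le_abs_self (∑ i, x i * V i x)
    have e4 : TT x / (1 / 2) = 2 * TT x := by ring
    rw [e4] at e2
    linarith
  rw [GE_add ((Tm.ttm.mul h.tN).cmul _) (h.tT.cmul 2), GE_cmul, GE_cmul] at h4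
  linarith

theorem YD.m2 {ε : ℝ} (hε : 0 < ε) : GE (fun x => (tt x + ε)⁻¹ * N x) ≤ GE N + GE TT := by
  have hpos : ∀ t : ℝ, 0 ≤ t → 0 < t + ε := fun t ht => by linarith
  have h1 := divl idm (fun t => (t + ε)⁻¹) (fun t => -((t + ε) ^ 2)⁻¹) (fun t ht => by
      have h0 : HasDerivAt (fun t : ℝ => t + ε) 1 t := (hasDerivAt_id' t).add_const ε
      have h9 := h0.fun_inv (hpos t ht).ne'
      rwa [neg_div, one_div] at h9) (C := max ε⁻¹ (ε ^ 2)⁻¹)
    (by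
      have hne : ∀ x : ι → ℝ, (tt x + ε) ^ 2 ≠ 0 := fun x =>
        (pow_pos (hpos _ (tt_nonneg x)) 2).ne'
      exact ((((tt_cont (ι := ι)).add continuous_const).pow 2).inv₀ hne).neg)
    (fun t ht => by
      rw [abs_of_pos (inv_pos.2 (hpos t ht))]
      exact (inv_anti₀ hε (by linarith)).trans (le_max_left _ _))
    (fun t ht => by
      rw [abs_neg, abs_of_pos (inv_pos.2 (pow_pos (hpos t ht) 2))]
      refine (inv_anti₀ (by positivity) ?_).trans (le_max_right _ _)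
      gcongr
      linarith) h.dN (G := fun i x => 2 * V i x)
    h.dN' h.tN (fun i => (h.tV i).cmul 2)
  simp only [lf_idm, tr_idm] at h1
  have h2 : ∀ x : ι → ℝ, ∑ i, x i * x i = tt x := fun x => by simp only [tt, pow_two]
  simp only [h2] at h1
  have hψc : Continuous fun x : ι → ℝ => (tt x + ε)⁻¹ :=
    ((tt_cont (ι := ι)).add continuous_const).inv₀ fun x => (hpos _ (tt_nonneg x)).ne'
  have hψb : ∀ x : ι → ℝ, |(tt x + ε)⁻¹| ≤ ε⁻¹ := fun x => by
    rw [abs_of_pos (inv_pos.2 (hpos _ (tt_nonneg x)))]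
    exact inv_anti₀ hε (by linarith [tt_nonneg x])
  have hψ : Tm fun x : ι → ℝ => (tt x + ε)⁻¹ := Tm.bdd hψc hψb
  have tψN : Tm fun x => (tt x + ε)⁻¹ * N x := hψ.mul h.tN
  have tVs : Tm fun x => (tt x + ε)⁻¹ * ∑ i, x i * (2 * V i x) :=
    hψ.mul (Tm.sum _ fun i _ => (Tm.coord i).mul ((h.tV i).cmul 2))
  -- the three bounds
  have g1 : GE (fun x => (tt x + ε)⁻¹ * tt x * N x) ≤ GE N := by
    refine GE_mono ((hψ.mul Tm.ttm).mul h.tN) h.tN fun x => ?_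
    have e1 : (tt x + ε)⁻¹ * tt x ≤ 1 := by
      rw [inv_mul_le_iff₀ (hpos _ (tt_nonneg x))]
      linarith
    have := mul_le_mul_of_nonneg_right e1 (h.N0 x)
    linarith
  have g2 : -GE (fun x => 2 * -((tt x + ε) ^ 2)⁻¹ * tt x * N x) ≤
      2 * GE (fun x => (tt x + ε)⁻¹ * N x) := by
    have e0 : -GE (fun x => 2 * -((tt x + ε) ^ 2)⁻¹ * tt x * N x) =
        GE (fun x => 2 * ((tt x + ε)⁻¹ * (tt x + ε)⁻¹ * tt x * N x)) := by
      rw [← neg_one_mul, ← GE_cmul]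
      congr 1
      funext x
      rw [pow_two, mul_inv]
      ring
    rw [e0, ← GE_cmul]
    refine GE_mono ((((hψ.mul hψ).mul Tm.ttm).mul h.tN).cmul 2) (tψN.cmul 2) fun x => ?_
    have e1 : (tt x + ε)⁻¹ * tt x ≤ 1 := by
      rw [inv_mul_le_iff₀ (hpos _ (tt_nonneg x))]
      linarith
    have e2 : 0 ≤ (tt x + ε)⁻¹ * N x :=
      mul_nonneg (inv_nonneg.2 (hpos _ (tt_nonneg x)).le) (h.N0 x)
    nlinarith
  have g3 : -GE (fun x => (tt x + ε)⁻¹ * ∑ i, x i * (2 * V i x)) ≤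
      GE (fun x => (tt x + ε)⁻¹ * N x) + GE TT := by
    rw [← GE_add tψN h.tT, ← neg_one_mul, ← GE_cmul]
    refine GE_mono (tVs.cmul _) (tψN.add h.tT) fun x => ?_
    have hp := hpos _ (tt_nonneg x)
    have e1 : ∑ i, x i * (2 * V i x) = 2 * ∑ i, x i * V i x := by
      rw [Finset.mul_sum]
      exact Finset.sum_congr rfl fun i _ => by ring
    rw [e1]
    have e3 : ((tt x + ε)⁻¹ * ∑ i, x i * V i x) ^ 2 ≤ ((tt x + ε)⁻¹ * N x) * TT x := by
      rw [mul_pow]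
      have k1 := h.b3 x x
      have k2 : (tt x + ε)⁻¹ * tt x ≤ 1 := by
        rw [inv_mul_le_iff₀ hp]
        linarith
      have k3 : 0 ≤ (tt x + ε)⁻¹ := (inv_pos.2 hp).le
      have k4 : ∑ i, x i ^ 2 = tt x := rfl
      rw [k4] at k1
      calc (tt x + ε)⁻¹ ^ 2 * (∑ i, x i * V i x) ^ 2 ≤
            (tt x + ε)⁻¹ ^ 2 * (tt x * (TT x * N x)) := by gcongr
        _ = ((tt x + ε)⁻¹ * tt x) * ((tt x + ε)⁻¹ * (TT x * N x)) := by ring
        _ ≤ 1 * ((tt x + ε)⁻¹ * (TT x * N x)) := by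
            have := h.T0 x
            have := h.N0 x
            gcongr
        _ = _ := by ring
    have e4 := amgm (c := 1) (mul_nonneg (inv_pos.2 hp).le (h.N0 x)) (h.T0 x) one_pos e3
    have e5 := neg_abs_le ((tt x + ε)⁻¹ * ∑ i, x i * V i x)
    rw [one_mul, div_one] at e4
    linarith
  have g0 : 0 ≤ GE (fun x => (tt x + ε)⁻¹ * N x) := GE_nonneg fun x =>
    mul_nonneg (inv_nonneg.2 (hpos _ (tt_nonneg x)).le) (h.N0 x)
  have gc : (4 : ℝ) ≤ Fintype.card ι := by exact_mod_cast h.card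
  nlinarith

theorem YD.m3 {r s : ℝ} (hr : 0 < r) (hs : 0 < s) :
    GE (fun x => cf1 r (tt x) * P2 x) ≤ GE D2 + Lam * (s * (GE TT / r +
      GE (fun x => tt x * N x) / (2 * r) + GE N / 2) + 2 * GE D2 / s) := by
  have hcc : Continuous fun x : ι → ℝ => cf1 r (tt x) := cf1_cont hr
  have hcT : Tm fun x : ι → ℝ => cf1 r (tt x) := cf1_tm hr
  have hc3 : Continuous fun x : ι → ℝ => -(r / 2) * cf1 r (tt x) ^ 3 :=
    continuous_const.mul (hcc.pow 3)
  have b3 : ∀ t : ℝ, 0 ≤ t → cf1 r t ^ 3 ≤ 1 := fun t ht =>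
    pow_le_one₀ (cf1_pos hr ht).le (cf1_le hr ht)
  have hcT' : Tm fun x : ι → ℝ => -(r / 2) * cf1 r (tt x) ^ 3 :=
    Tm.bdd hc3 (C := r / 2) fun x => by
      rw [abs_mul, abs_neg, abs_of_pos (by positivity : 0 < r / 2),
        abs_of_pos (pow_pos (cf1_pos hr (tt_nonneg x)) 3)]
      nlinarith [b3 _ (tt_nonneg x)]
  have h1 := divl R (cf1 r) (fun t => -(r / 2) * (cf1 r t) ^ 3) (fun t ht => cf1_deriv hr ht)
    (C := max 1 (r / 2)) hc3 (fun t ht => by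
      rw [abs_of_pos (cf1_pos hr ht)]
      exact (cf1_le hr ht).trans (le_max_left _ _)) (fun t ht => by
      rw [abs_mul, abs_neg, abs_of_pos (by positivity : 0 < r / 2),
        abs_of_pos (pow_pos (cf1_pos hr ht) 3)]
      refine le_trans ?_ (le_max_right _ _)
      nlinarith [b3 _ ht]) h.dΦ h.dΦ' h.tΦ (fun i => ((h.tX i).cmul 2).add (h.tS i))
  rw [h.tr, zero_mul, sub_zero] at h1
  have tq : Tm fun x => ∑ i, x i * lf R i x := Tm.sum _ fun i _ => (Tm.coord i).mul (Tm.lf R i)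
  have tX2 : Tm fun x => cf1 r (tt x) * ∑ i, lf R i x * X i x :=
    hcT.mul (Tm.sum _ fun i _ => (Tm.lf R i).mul (h.tX i))
  have tA : Tm fun x => cf1 r (tt x) * (∑ i, x i * lf R i x) * Φ x := (hcT.mul tq).mul h.tΦ
  have tB : Tm fun x => 2 * (-(r / 2) * cf1 r (tt x) ^ 3) * (∑ i, x i * lf R i x) * Φ x :=
    ((hcT'.cmul 2).mul tq).mul h.tΦ
  have e0 : ∀ x, cf1 r (tt x) * ∑ i, lf R i x * (2 * X i x + S i x) =
      2 * (cf1 r (tt x) * ∑ i, lf R i x * X i x) + (cf1 r (tt x) * D2 x - cf1 r (tt x) * P2 x) := by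
    intro x
    have e1 : ∑ i, lf R i x * (2 * X i x + S i x) =
        2 * ∑ i, lf R i x * X i x + ∑ i, lf R i x * S i x := by
      rw [Finset.mul_sum, ← Finset.sum_add_distrib]
      exact Finset.sum_congr rfl fun i _ => by ring
    rw [e1, h.ha]
    ring
  simp only [e0] at h1
  rw [GE_add (tX2.cmul 2) ((hcT.mul h.tD).sub (hcT.mul h.tP)), GE_cmul,
    GE_sub (hcT.mul h.tD) (hcT.mul h.tP)] at h1
  -- estimates
  have L0 := h.Lpos
  have hq : ∀ x : ι → ℝ, (∑ i, x i * lf R i x) ^ 2 ≤ Lam ^ 2 * (tt x * tt x) := by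
    intro x
    have k1 := Finset.sum_mul_sq_le_sq_mul_sq Finset.univ (fun i => x i) (fun i => lf R i x)
    have k2 := h.Rb x
    have k3 : ∑ i, x i ^ 2 = tt x := rfl
    rw [k3] at k1
    have k4 := mul_le_mul_of_nonneg_left k2 (tt_nonneg x)
    linarith
  have g1 : GE (fun x => cf1 r (tt x) * D2 x) ≤ GE D2 := by
    refine GE_mono (hcT.mul h.tD) h.tD fun x => ?_
    have := mul_le_mul_of_nonneg_right (cf1_le hr (tt_nonneg x)) (h.D0 x)
    linarith
  have g2 : 2 * GE (fun x => cf1 r (tt x) * ∑ i, lf R i x * X i x) ≤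
      Lam * (s / r * GE TT + GE D2 / s) := by
    have k : GE (fun x => Lam * (s / r * TT x + s⁻¹ * D2 x)) =
        Lam * (s / r * GE TT + GE D2 / s) := by
      rw [GE_cmul, GE_add (h.tT.cmul _) (h.tD.cmul _), GE_cmul, GE_cmul]
      ring
    rw [← k, ← GE_cmul]
    refine GE_mono (tX2.cmul 2) (((h.tT.cmul _).add (h.tD.cmul _)).cmul _) fun x => ?_
    have k1 : (cf1 r (tt x) * ∑ i, lf R i x * X i x) ^ 2 ≤ (Lam ^ 2 / r * TT x) * D2 x := by
      rw [mul_pow]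
      have j1 := h.b1 (fun i => lf R i x) x
      have j2 := h.Rb x
      have j3 := cf1_t hr (tt_nonneg x)
      have j4 : cf1 r (tt x) ^ 2 * tt x ≤ 1 / r := by
        rw [le_div_iff₀ hr]
        linarith
      have j5 : 0 ≤ TT x * D2 x := mul_nonneg (h.T0 x) (h.D0 x)
      calc cf1 r (tt x) ^ 2 * (∑ i, lf R i x * X i x) ^ 2 ≤
            cf1 r (tt x) ^ 2 * ((Lam ^ 2 * tt x) * (TT x * D2 x)) := by
            refine mul_le_mul_of_nonneg_left (j1.trans ?_) (sq_nonneg _)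
            exact mul_le_mul_of_nonneg_right j2 j5
        _ = (cf1 r (tt x) ^ 2 * tt x) * (Lam ^ 2 * (TT x * D2 x)) := by ring
        _ ≤ 1 / r * (Lam ^ 2 * (TT x * D2 x)) := by gcongr
        _ = _ := by ring
    have k2 := amgm (c := s / Lam) (mul_nonneg (by positivity) (h.T0 x)) (h.D0 x)
      (by positivity) k1
    have k3 := le_abs_self (cf1 r (tt x) * ∑ i, lf R i x * X i x)
    have k4 : s / Lam * (Lam ^ 2 / r * TT x) + D2 x / (s / Lam) =
        Lam * (s / r * TT x + s⁻¹ * D2 x) := by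
      field_simp
    rw [k4] at k2
    linarith
  have g3 : -GE (fun x => cf1 r (tt x) * (∑ i, x i * lf R i x) * Φ x) ≤
      Lam / 2 * (s / r * GE (fun x => tt x * N x) + GE D2 / s) := by
    have k : GE (fun x => Lam / 2 * (s / r * (tt x * N x) + s⁻¹ * D2 x)) =
        Lam / 2 * (s / r * GE (fun x => tt x * N x) + GE D2 / s) := by
      rw [GE_cmul, GE_add ((Tm.ttm.mul h.tN).cmul _) (h.tD.cmul _), GE_cmul, GE_cmul]
      ring
    rw [← k, ← neg_one_mul, ← GE_cmul]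
    refine GE_mono (tA.cmul _) ((((Tm.ttm.mul h.tN).cmul _).add (h.tD.cmul _)).cmul _) fun x => ?_
    have k1 : (cf1 r (tt x) * (∑ i, x i * lf R i x) * Φ x) ^ 2 ≤
        (Lam ^ 2 / r * (tt x * N x)) * D2 x := by
      rw [mul_pow, mul_pow]
      have j1 := h.b2 x
      have j3 := cf1_t hr (tt_nonneg x)
      have j4 : cf1 r (tt x) ^ 2 * tt x ≤ 1 / r := by
        rw [le_div_iff₀ hr]
        linarith
      have j5 : 0 ≤ N x * D2 x := mul_nonneg (h.N0 x) (h.D0 x)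
      have j6 := tt_nonneg x
      calc cf1 r (tt x) ^ 2 * (∑ i, x i * lf R i x) ^ 2 * Φ x ^ 2 ≤
            cf1 r (tt x) ^ 2 * (Lam ^ 2 * (tt x * tt x)) * (N x * D2 x) := by
            refine mul_le_mul (mul_le_mul_of_nonneg_left (hq x) (sq_nonneg _)) j1
              (sq_nonneg _) (by positivity)
        _ = (cf1 r (tt x) ^ 2 * tt x) * (Lam ^ 2 * tt x * (N x * D2 x)) := by ring
        _ ≤ 1 / r * (Lam ^ 2 * tt x * (N x * D2 x)) := by gcongr
        _ = _ := by ring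
    have k2 := amgm (c := s / Lam) (mul_nonneg (by positivity)
      (mul_nonneg (tt_nonneg x) (h.N0 x))) (h.D0 x) (by positivity) k1
    have k3 := neg_abs_le (cf1 r (tt x) * (∑ i, x i * lf R i x) * Φ x)
    have k4 : s / Lam * (Lam ^ 2 / r * (tt x * N x)) + D2 x / (s / Lam) =
        2 * (Lam / 2 * (s / r * (tt x * N x) + s⁻¹ * D2 x)) := by
      field_simp
    rw [k4] at k2
    linarith
  have g4 : GE (fun x => 2 * (-(r / 2) * cf1 r (tt x) ^ 3) * (∑ i, x i * lf R i x) * Φ x) ≤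
      Lam / 2 * (s * GE N + GE D2 / s) := by
    have k : GE (fun x => Lam / 2 * (s * N x + s⁻¹ * D2 x)) =
        Lam / 2 * (s * GE N + GE D2 / s) := by
      rw [GE_cmul, GE_add (h.tN.cmul _) (h.tD.cmul _), GE_cmul, GE_cmul]
      ring
    rw [← k]
    refine GE_mono tB (((h.tN.cmul _).add (h.tD.cmul _)).cmul _) fun x => ?_
    have k1 : (2 * (-(r / 2) * cf1 r (tt x) ^ 3) * (∑ i, x i * lf R i x) * Φ x) ^ 2 ≤
        (Lam ^ 2 * N x) * D2 x := by
      have j1 := h.b2 x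
      have j3 := cf1_t hr (tt_nonneg x)
      have j6 := tt_nonneg x
      have j7 : 0 ≤ r * (cf1 r (tt x) ^ 2 * tt x) := by positivity
      have j8 : cf1 r (tt x) ^ 2 ≤ 1 := pow_le_one₀ (cf1_pos hr j6).le (cf1_le hr j6)
      have j9 : (r * (cf1 r (tt x) ^ 2 * tt x)) ^ 2 * cf1 r (tt x) ^ 2 ≤ 1 := by
        have : (r * (cf1 r (tt x) ^ 2 * tt x)) ^ 2 ≤ 1 := pow_le_one₀ j7 j3
        calc _ ≤ (1 : ℝ) * 1 := mul_le_mul this j8 (sq_nonneg _) zero_le_one
          _ = 1 := by ring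
      have j5 : 0 ≤ N x * D2 x := mul_nonneg (h.N0 x) (h.D0 x)
      calc (2 * (-(r / 2) * cf1 r (tt x) ^ 3) * (∑ i, x i * lf R i x) * Φ x) ^ 2 =
            r ^ 2 * cf1 r (tt x) ^ 6 * (∑ i, x i * lf R i x) ^ 2 * Φ x ^ 2 := by ring
        _ ≤ r ^ 2 * cf1 r (tt x) ^ 6 * (Lam ^ 2 * (tt x * tt x)) * (N x * D2 x) := by
            refine mul_le_mul (mul_le_mul_of_nonneg_left (hq x) (by positivity)) j1
              (sq_nonneg _) (by positivity)
        _ = ((r * (cf1 r (tt x) ^ 2 * tt x)) ^ 2 * cf1 r (tt x) ^ 2) *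
              (Lam ^ 2 * (N x * D2 x)) := by ring
        _ ≤ 1 * (Lam ^ 2 * (N x * D2 x)) := by gcongr
        _ = _ := by ring
    have k2 := amgm (c := s / Lam) (mul_nonneg (by positivity) (h.N0 x)) (h.D0 x)
      (by positivity) k1
    have k3 := le_abs_self (2 * (-(r / 2) * cf1 r (tt x) ^ 3) * (∑ i, x i * lf R i x) * Φ x)
    have k4 : s / Lam * (Lam ^ 2 * N x) + D2 x / (s / Lam) =
        2 * (Lam / 2 * (s * N x + s⁻¹ * D2 x)) := by
      field_simp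
    rw [k4] at k2
    linarith
  have e9 : Lam * (s * (GE TT / r + GE (fun x => tt x * N x) / (2 * r) + GE N / 2) +
      2 * GE D2 / s) = Lam * (s / r * GE TT + GE D2 / s) +
      Lam / 2 * (s / r * GE (fun x => tt x * N x) + GE D2 / s) +
      Lam / 2 * (s * GE N + GE D2 / s) := by
    field_simp
    ring
  rw [e9]
  linarith

theorem YD.m4 {r lam ε : ℝ} (hr : 0 < r) (hl : 0 < lam) (hε : 0 < ε) :
    2 * GE N ≤ lam * (GE (fun x => cf1 r (tt x) * (tt x / (1 + tt x)) * N x) + ε * GE N) +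
      lam⁻¹ * ((1 + r) * GE N + 1 / 2 * GE (fun x => tt x * N x) +
        3 / 2 * GE (fun x => (tt x + ε)⁻¹ * N x)) := by
  have hcc : Continuous fun x : ι → ℝ => cf1 r (tt x) := cf1_cont hr
  have hcT : Tm fun x : ι → ℝ => cf1 r (tt x) := cf1_tm hr
  have hqT : Tm fun x : ι → ℝ => tt x / (1 + tt x) := quo_tm
  have hpos : ∀ t : ℝ, 0 ≤ t → 0 < t + ε := fun t ht => by linarith
  have hψ : Tm fun x : ι → ℝ => (tt x + ε)⁻¹ :=
    Tm.bdd (((tt_cont (ι := ι)).add continuous_const).inv₀ fun x => (hpos _ (tt_nonneg x)).ne')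
      (C := ε⁻¹) fun x => by
        rw [abs_of_pos (inv_pos.2 (hpos _ (tt_nonneg x)))]
        exact inv_anti₀ hε (by linarith [tt_nonneg x])
  have t1 : Tm fun x => cf1 r (tt x) * (tt x / (1 + tt x)) * N x := (hcT.mul hqT).mul h.tN
  have t2 : Tm fun x => tt x * N x := Tm.ttm.mul h.tN
  have t3 : Tm fun x => (tt x + ε)⁻¹ * N x := hψ.mul h.tN
  have k : GE (fun x => lam * (cf1 r (tt x) * (tt x / (1 + tt x)) * N x + ε * N x) +
      lam⁻¹ * ((1 + r) * N x + 1 / 2 * (tt x * N x) + 3 / 2 * ((tt x + ε)⁻¹ * N x))) =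
      lam * (GE (fun x => cf1 r (tt x) * (tt x / (1 + tt x)) * N x) + ε * GE N) +
      lam⁻¹ * ((1 + r) * GE N + 1 / 2 * GE (fun x => tt x * N x) +
        3 / 2 * GE (fun x => (tt x + ε)⁻¹ * N x)) := by
    rw [GE_add ((t1.add (h.tN.cmul ε)).cmul lam)
      ((((h.tN.cmul (1 + r)).add (t2.cmul (1 / 2))).add (t3.cmul (3 / 2))).cmul lam⁻¹), GE_cmul,
      GE_cmul, GE_add t1 (h.tN.cmul ε), GE_cmul,
      GE_add ((h.tN.cmul (1 + r)).add (t2.cmul (1 / 2))) (t3.cmul (3 / 2)),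
      GE_add (h.tN.cmul (1 + r)) (t2.cmul (1 / 2)), GE_cmul, GE_cmul, GE_cmul]
  rw [← k, ← GE_cmul]
  refine GE_mono (h.tN.cmul 2) (((t1.add (h.tN.cmul ε)).cmul lam).add
    ((((h.tN.cmul (1 + r)).add (t2.cmul (1 / 2))).add (t3.cmul (3 / 2))).cmul lam⁻¹))
    fun x => ?_
  obtain ⟨t, ht⟩ : ∃ t, t = tt x := ⟨_, rfl⟩
  have ht0 : 0 ≤ t := ht ▸ tt_nonneg x
  rw [← ht]
  obtain ⟨A, hA⟩ : ∃ A, A = cf1 r t * (t / (1 + t)) + ε := ⟨_, rfl⟩
  obtain ⟨B, hB⟩ : ∃ B, B = 1 + r + 1 / 2 * t + 3 / 2 * (t + ε)⁻¹ := ⟨_, rfl⟩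
  have hc0 := cf1_pos hr ht0
  have hc1 := cf1_le hr ht0
  have hte := hpos t ht0
  have hA1 : cf1 r t * ((t + ε) / (1 + t + ε)) ≤ A := by
    have e1 : (t + ε) / (1 + t + ε) ≤ t / (1 + t) + ε := by
      rw [div_add' _ _ _ (by positivity), div_le_div_iff₀ (by positivity) (by positivity)]
      nlinarith [mul_nonneg ht0 hε.le, mul_nonneg ht0 (mul_nonneg ht0 hε.le),
        mul_nonneg hε.le (mul_nonneg ht0 hε.le), mul_pos hε hε]
    rw [hA]
    calc cf1 r t * ((t + ε) / (1 + t + ε)) ≤ cf1 r t * (t / (1 + t) + ε) := by gcongr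
      _ = cf1 r t * (t / (1 + t)) + cf1 r t * ε := by ring
      _ ≤ _ := by nlinarith
  have hB1 : Real.sqrt (1 + r * t) * ((1 + t + ε) / (t + ε)) ≤ B := by
    have e1 : Real.sqrt (1 + r * t) ≤ 1 + Real.sqrt (r * t) := by
      rw [Real.sqrt_le_left (by positivity)]
      nlinarith [Real.sq_sqrt (mul_nonneg hr.le ht0), Real.sqrt_nonneg (r * t)]
    have e2 : (1 + t + ε) / (t + ε) = 1 + (t + ε)⁻¹ := by
      field_simp
      ring
    have e3 : Real.sqrt (r * t) ≤ 1 / 2 * (r + t) := by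
      rw [Real.sqrt_le_left (by positivity)]
      nlinarith [sq_nonneg (r - t)]
    have e4 : Real.sqrt (r * t) * (t + ε)⁻¹ ≤ 1 / 2 * (r + (t + ε)⁻¹) := by
      have k1 : (Real.sqrt (r * t) * (t + ε)⁻¹) ^ 2 ≤ r * (t + ε)⁻¹ := by
        rw [mul_pow, Real.sq_sqrt (mul_nonneg hr.le ht0)]
        have k2 : t * (t + ε)⁻¹ ≤ 1 := by
          rw [mul_inv_le_iff₀ hte]
          linarith
        calc r * t * (t + ε)⁻¹ ^ 2 = (t * (t + ε)⁻¹) * (r * (t + ε)⁻¹) := by ring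
          _ ≤ 1 * (r * (t + ε)⁻¹) := by gcongr
          _ = _ := by ring
      have k3 := amgm (c := 1) hr.le (inv_pos.2 hte).le one_pos k1
      have k4 := le_abs_self (Real.sqrt (r * t) * (t + ε)⁻¹)
      rw [one_mul, div_one] at k3
      linarith
    rw [e2, hB]
    have e5 : 0 ≤ (t + ε)⁻¹ := (inv_pos.2 hte).le
    calc Real.sqrt (1 + r * t) * (1 + (t + ε)⁻¹) ≤
          (1 + Real.sqrt (r * t)) * (1 + (t + ε)⁻¹) := by gcongr
      _ = 1 + Real.sqrt (r * t) + (t + ε)⁻¹ + Real.sqrt (r * t) * (t + ε)⁻¹ := by ring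
      _ ≤ _ := by linarith
  have hAB : 1 ≤ A * B := by
    have e1 : cf1 r t * ((t + ε) / (1 + t + ε)) *
        (Real.sqrt (1 + r * t) * ((1 + t + ε) / (t + ε))) = 1 := by
      unfold cf1
      have hs : 0 < Real.sqrt (1 + r * t) := Real.sqrt_pos.2 (by positivity)
      have hz : 0 < 1 + t + ε := by linarith
      field_simp
    rw [← e1]
    have hz : 0 < 1 + t + ε := by linarith
    exact mul_le_mul hA1 hB1 (by positivity) (le_trans (by positivity) hA1)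
  have hA0 : 0 ≤ A := le_trans (by positivity) hA1
  have hB0 : 0 ≤ B := by rw [hB]; positivity
  have e1 := amgm (s := 1) (u := A) (v := B) (c := lam) hA0 hB0 hl (by linarith)
  rw [abs_one, mul_one] at e1
  have e2 := mul_le_mul_of_nonneg_right e1 (h.N0 x)
  have e3 : (lam * A + B / lam) * N x = lam * (cf1 r t * (t / (1 + t)) * N x + ε * N x) +
      lam⁻¹ * ((1 + r) * N x + 1 / 2 * (t * N x) + 3 / 2 * ((t + ε)⁻¹ * N x)) := by
    rw [hA, hB]
    ring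
  linarith

/-- the main inequality -/
theorem YD.main {K C2 : ℝ} (hn : 0 < GE N) (hK : 0 < K) (hC2 : 0 ≤ C2)
    (hD : GE D2 ≤ 2 * K * Lam * GE N) (hT : GE TT ≤ C2 * K * GE N) :
    c1 * Lam ^ 2 ≤ (Fintype.card ι + 4 + 4 * C2) * (K + 1) *
      (2 * K * Lam + (Fintype.card ι + 5 + 3 * C2) * Lam * Real.sqrt (K * Lam)) := by
  obtain ⟨m, hm⟩ : ∃ m : ℝ, m = Fintype.card ι := ⟨_, rfl⟩
  have hm4 : (4 : ℝ) ≤ m := by
    rw [hm]
    exact_mod_cast h.card
  have L0 := h.Lpos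
  have h1 := h.m1
  rw [← hm] at h1 ⊢
  obtain ⟨n, hnn⟩ : ∃ n, n = GE N := ⟨_, rfl⟩
  obtain ⟨τ, hτ⟩ : ∃ τ, τ = GE TT := ⟨_, rfl⟩
  obtain ⟨q, hq⟩ : ∃ q, q = GE (fun x => tt x * N x) := ⟨_, rfl⟩
  obtain ⟨r, hr⟩ : ∃ r, r = K + 1 := ⟨_, rfl⟩
  have hr0 : 0 < r := by rw [hr]; linarith
  obtain ⟨M, hM⟩ : ∃ M, M = (m + 4 + 4 * C2) * (K + 1) := ⟨_, rfl⟩
  have hM0 : 0 < M := by
    rw [hM]
    have : 0 < m + 4 + 4 * C2 := by linarith
    positivity
  obtain ⟨g, hg⟩ : ∃ g, g = GE (fun x => cf1 r (tt x) * (tt x / (1 + tt x)) * N x) := ⟨_, rfl⟩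
  rw [← hnn] at hn hD hT h1
  rw [← hτ] at hT h1
  rw [← hq] at h1
  -- lower bound for g
  have hM2 : (1 + r) * n + 1 / 2 * q + 3 / 2 * (n + τ) ≤ M * n := by
    have k1 : (1 + r) * n + 1 / 2 * q + 3 / 2 * (n + τ) ≤
        (r + m + 5 / 2) * n + 7 / 2 * τ := by linarith
    have k2 : (r + m + 5 / 2) * n + 7 / 2 * τ ≤
        (r + m + 5 / 2) * n + 7 / 2 * (C2 * K * n) := by linarith
    have k3 : (r + m + 5 / 2) + 7 / 2 * (C2 * K) ≤ M := by
      rw [hr, hM]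
      nlinarith [mul_nonneg hC2 hK.le, mul_pos hK (by linarith : 0 < m)]
    calc _ ≤ ((r + m + 5 / 2) + 7 / 2 * (C2 * K)) * n := by linarith
      _ ≤ M * n := by gcongr
  have hg1 : n ≤ M * g := by
    have key : ∀ ε : ℝ, 0 < ε → n ≤ M * g + M * n * ε := by
      intro ε hε
      have k1 := h.m4 hr0 hM0 hε
      have k2 := h.m2 hε
      rw [← hnn, ← hq, ← hg] at k1
      rw [← hnn, ← hτ] at k2
      have k3 : M⁻¹ * ((1 + r) * n + 1 / 2 * q +
          3 / 2 * GE (fun x => (tt x + ε)⁻¹ * N x)) ≤ n := by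
        rw [inv_mul_le_iff₀ hM0]
        linarith
      linarith
    by_contra hcon
    push Not at hcon
    have hd : 0 < n - M * g := by linarith
    have k1 := key ((n - M * g) / (2 * (M * n))) (by positivity)
    have k2 : M * n * ((n - M * g) / (2 * (M * n))) = (n - M * g) / 2 := by
      field_simp
    rw [k2] at k1
    linarith
  -- upper bound
  obtain ⟨s, hs⟩ : ∃ s, s = Real.sqrt (K * Lam) := ⟨_, rfl⟩
  have hs0 : 0 < s := by rw [hs]; exact Real.sqrt_pos.2 (by positivity)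
  have hs2 : s ^ 2 = K * Lam := by rw [hs]; exact Real.sq_sqrt (by positivity)
  have h3 := h.m3 hr0 hs0
  rw [← hnn, ← hτ, ← hq] at h3
  have hcc : Continuous fun x : ι → ℝ => cf1 r (tt x) := cf1_cont hr0
  have hcT : Tm fun x : ι → ℝ => cf1 r (tt x) := cf1_tm hr0
  have hqT : Tm fun x : ι → ℝ => tt x / (1 + tt x) := quo_tm
  have h5 : c1 * Lam ^ 2 * g ≤ GE (fun x => cf1 r (tt x) * P2 x) := by
    rw [hg, ← GE_cmul]
    refine GE_mono (((hcT.mul hqT).mul h.tN).cmul _) (hcT.mul h.tP) fun x => ?_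
    have k1 := mul_le_mul_of_nonneg_left (h.hc x) (cf1_pos hr0 (tt_nonneg x)).le
    calc _ = cf1 r (tt x) * (c1 * Lam ^ 2 * (tt x / (1 + tt x)) * N x) := by ring
      _ ≤ _ := k1
  have h6 : GE D2 + Lam * (s * (τ / r + q / (2 * r) + n / 2) + 2 * GE D2 / s) ≤
      (2 * K * Lam + (m + 5 + 3 * C2) * Lam * s) * n := by
    have k1 : τ / r ≤ C2 * n := by
      rw [div_le_iff₀ hr0, hr]
      nlinarith [mul_nonneg hC2 hn.le]
    have k2 : q / (2 * r) ≤ (2 * C2 + m) * n := by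
      rw [div_le_iff₀ (by positivity), hr]
      nlinarith [mul_nonneg hC2 hn.le, mul_pos (mul_pos hK hn) (by linarith : 0 < m),
        mul_pos hn (by linarith : 0 < m), mul_nonneg (mul_nonneg hC2 hn.le) hK.le]
    have k3 : 2 * GE D2 / s ≤ 4 * s * n := by
      rw [div_le_iff₀ hs0]
      calc 2 * GE D2 ≤ 2 * (2 * K * Lam * n) := by linarith
        _ = 4 * (K * Lam) * n := by ring
        _ = 4 * s * n * s := by rw [← hs2]; ring
    have k4 : s * (τ / r + q / (2 * r) + n / 2) ≤ s * (C2 * n + (2 * C2 + m) * n + n / 2) := by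
      gcongr
    have k5 : Lam * (s * (τ / r + q / (2 * r) + n / 2) + 2 * GE D2 / s) ≤
        Lam * (s * (C2 * n + (2 * C2 + m) * n + n / 2) + 4 * s * n) := by
      gcongr
    nlinarith [mul_pos (mul_pos L0 hs0) hn]
  have h7 : c1 * Lam ^ 2 * g ≤ (2 * K * Lam + (m + 5 + 3 * C2) * Lam * s) * n :=
    h5.trans (h3.trans h6)
  have h8 : c1 * Lam ^ 2 * n ≤ M * (2 * K * Lam + (m + 5 + 3 * C2) * Lam * s) * n := by
    calc c1 * Lam ^ 2 * n ≤ c1 * Lam ^ 2 * (M * g) := by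
          have := h.cpos
          gcongr
      _ = M * (c1 * Lam ^ 2 * g) := by ring
      _ ≤ M * ((2 * K * Lam + (m + 5 + 3 * C2) * Lam * s) * n) := by gcongr
      _ = _ := by ring
  have h9 := le_of_mul_le_mul_right h8 hn
  rw [hM, hs] at h9
  exact h9

end

end Pool.Agent.Helper19_Pauli2
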