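import Pool.Agent.Helper19_Pauli2.Mag
import Pool.Agent.Helper19_Pauli2.YPart
import Pool.Agent.Helper61_Pauli.Fock

/-!
# MP_8cfbae_mp: the Schroedinger representation of cyclic representations
-/

set_option autoImplicit false
set_option linter.unusedSectionVars false

open MeasureTheory Complex ProbabilityTheory

namespace Pool.Agent.Helper19_Pauli2

open Pool.Agent.Helper49_Pauli Pool.Agent.Helper61_Pauli

section poly

variable {ι : Type} [Fintype ι] [DecidableEq ι]

/-- evaluation at a real point -/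
noncomputable def evr (x : ι → ℝ) : MvPolynomial ι ℂ →ₐ[ℂ] ℂ :=
  MvPolynomial.aeval fun i => ((x i : ℝ) : ℂ)

theorem evr_eq (x : ι → ℝ) (P : MvPolynomial ι ℂ) : evr x P = ev P (WithLp.toLp 2 x) := by
  unfold evr ev
  rw [MvPolynomial.aeval_def, MvPolynomial.eval₂_eq_eval_map]
  simp

theorem evr_C (x : ι → ℝ) (c : ℂ) : evr x (MvPolynomial.C c) = c := by
  simp [evr]

theorem evr_X (x : ι → ℝ) (i : ι) : evr x (MvPolynomial.X i) = ((x i : ℝ) : ℂ) := by
  simp [evr]

theorem evr_cj (x : ι → ℝ) (P : MvPolynomial ι ℂ) :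
    evr x (cj P) = (starRingEnd ℂ) (evr x P) := by
  rw [evr_eq, evr_eq, ev_cj]

theorem cont_evr (P : MvPolynomial ι ℂ) : Continuous fun x : ι → ℝ => evr x P := by
  induction P using MvPolynomial.induction_on with
  | C c => simp only [evr_C]; exact continuous_const
  | add p q hp hq => simp only [map_add]; exact hp.add hq
  | mul_X p j hp =>
    simp only [map_mul, evr_X]
    exact hp.mul (Complex.continuous_ofReal.comp (continuous_apply j))

theorem bound_evr (P : MvPolynomial ι ℂ) : ∃ (C : ℝ) (k : ℕ), 0 ≤ C ∧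
    ∀ x : ι → ℝ, ‖evr x P‖ ≤ C * (1 + tt x) ^ k := by
  induction P using MvPolynomial.induction_on with
  | C c =>
    refine ⟨‖c‖, 0, norm_nonneg _, fun x => ?_⟩
    rw [evr_C]
    simp
  | add p q hp hq =>
    obtain ⟨C, k, hC, h⟩ := hp
    obtain ⟨C', k', hC', h'⟩ := hq
    refine ⟨C + C', max k k', by positivity, fun x => ?_⟩
    have ht := tt_nonneg x
    have e1 : (1 + tt x) ^ k ≤ (1 + tt x) ^ max k k' :=
      pow_le_pow_right₀ (by linarith) (le_max_left _ _)
    have e2 : (1 + tt x) ^ k' ≤ (1 + tt x) ^ max k k' :=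
      pow_le_pow_right₀ (by linarith) (le_max_right _ _)
    rw [map_add]
    calc _ ≤ ‖evr x p‖ + ‖evr x q‖ := norm_add_le _ _
      _ ≤ C * (1 + tt x) ^ k + C' * (1 + tt x) ^ k' := add_le_add (h x) (h' x)
      _ ≤ C * (1 + tt x) ^ max k k' + C' * (1 + tt x) ^ max k k' := by gcongr
      _ = _ := by ring
  | mul_X p j hp =>
    obtain ⟨C, k, hC, h⟩ := hp
    obtain ⟨_, C', k', hC', h'⟩ := Tm.coord j
    refine ⟨C * C', k + k', by positivity, fun x => ?_⟩
    rw [map_mul, evr_X, norm_mul, Complex.norm_real, Real.norm_eq_abs, pow_add]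
    calc ‖evr x p‖ * |x j| ≤ (C * (1 + tt x) ^ k) * (C' * (1 + tt x) ^ k') :=
          mul_le_mul (h x) (h' x) (abs_nonneg _) ((norm_nonneg _).trans (h x))
      _ = _ := by ring

theorem tm_evr (P : MvPolynomial ι ℂ) : Tm fun x : ι → ℝ => (evr x P).re := by
  obtain ⟨C, k, hC, h⟩ := bound_evr P
  exact ⟨Complex.continuous_re.comp (cont_evr P), C, k, hC, fun x =>
    (Complex.abs_re_le_norm _).trans (h x)⟩

/-- coordinates -/
noncomputable def pjc (i : ι) (c : ℂ) : (ι → ℝ) →L[ℝ] ℂ :=
  (ContinuousLinearMap.proj i : (ι → ℝ) →L[ℝ] ℝ).smulRight c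

theorem pjc_apply (i : ι) (c : ℂ) (v : ι → ℝ) : pjc i c v = (v i : ℂ) * c := by
  simp [pjc]

theorem hasFDerivAt_evr (P : MvPolynomial ι ℂ) (x : ι → ℝ) :
    HasFDerivAt (fun x : ι → ℝ => evr x P) (∑ i, pjc i (evr x (MvPolynomial.pderiv i P))) x := by
  induction P using MvPolynomial.induction_on with
  | C c =>
    have e : ∑ i, pjc i (evr x (MvPolynomial.pderiv i (MvPolynomial.C c))) = 0 := by
      refine Finset.sum_eq_zero fun i _ => ?_
      rw [MvPolynomial.pderiv_C, map_zero]
      refine ContinuousLinearMap.ext fun v => ?_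
      rw [pjc_apply, mul_zero]
      rfl
    rw [e]
    simp only [evr_C]
    exact hasFDerivAt_const _ _
  | add p q hp hq =>
    simp only [map_add]
    refine (hp.add hq).congr_fderiv ?_
    rw [← Finset.sum_add_distrib]
    refine Finset.sum_congr rfl fun i _ => ?_
    refine ContinuousLinearMap.ext fun v => ?_
    rw [add_apply, pjc_apply, pjc_apply, pjc_apply, mul_add]
  | mul_X p j hp =>
    have h1 : HasFDerivAt (fun x : ι → ℝ => ((x j : ℝ) : ℂ)) (pjc j 1) x := by
      have : (fun x : ι → ℝ => ((x j : ℝ) : ℂ)) = fun x => pjc j 1 x := by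
        funext x
        rw [pjc_apply, mul_one]
      rw [this]
      exact (pjc j 1).hasFDerivAt
    have h2 := hp.mul h1
    simp only [map_mul, evr_X]
    refine h2.congr_fderiv ?_
    refine ContinuousLinearMap.ext fun v => ?_
    have e : ∀ i, pjc i (evr x (MvPolynomial.pderiv i (p * MvPolynomial.X j))) v =
        (if i = j then evr x p * (v j : ℂ) else 0) +
          (x j : ℂ) * pjc i (evr x (MvPolynomial.pderiv i p)) v := by
      intro i
      rw [Derivation.leibniz, MvPolynomial.pderiv_X, smul_eq_mul, smul_eq_mul, map_add, map_mul,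
        map_mul, evr_X, pjc_apply, pjc_apply]
      by_cases h : i = j
      · rw [if_pos h, h, Pi.single_eq_same, map_one]
        ring
      · rw [if_neg h, Pi.single_eq_of_ne (Ne.symm h), map_zero]
        ring
    rw [sum_apply]
    simp only [e]
    rw [Finset.sum_add_distrib, ← Finset.mul_sum, Finset.sum_ite_eq', if_pos (Finset.mem_univ j)]
    rw [add_apply, ← sum_apply]
    change evr x p * pjc j 1 v + (x j : ℂ) * _ = _
    rw [pjc_apply, mul_one]
    rfl

theorem diff_evr (P : MvPolynomial ι ℂ) : Differentiable ℝ fun x : ι → ℝ => (evr x P).re :=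
  fun x => (Complex.reCLM.hasFDerivAt.comp x (hasFDerivAt_evr P x)).differentiableAt

theorem fderiv_evr (P : MvPolynomial ι ℂ) (i : ι) (x : ι → ℝ) :
    fderiv ℝ (fun x : ι → ℝ => (evr x P).re) x (Pi.single i 1) =
      (evr x (MvPolynomial.pderiv i P)).re := by
  have h : HasFDerivAt (fun x : ι → ℝ => (evr x P).re) _ x :=
    Complex.reCLM.hasFDerivAt.comp x (hasFDerivAt_evr P x)
  rw [h.fderiv]
  change ((∑ i, pjc i (evr x (MvPolynomial.pderiv i P))) (Pi.single i 1)).re = _
  rw [sum_apply]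
  congr 1
  rw [Finset.sum_eq_single i]
  · rw [pjc_apply, Pi.single_eq_same, Complex.ofReal_one, one_mul]
  · intro j _ hj
    rw [pjc_apply, Pi.single_eq_of_ne hj, Complex.ofReal_zero, zero_mul]
  · intro h; exact absurd (Finset.mem_univ _) h

theorem EE_vol (P : MvPolynomial ι ℂ) : EE P = ∫ x : ι → ℝ, (gd x : ℂ) * evr x P := by
  unfold EE
  rw [integral_std, pi_gauss, integral_withDensity_eq_integral_toReal_smul₀]
  · refine integral_congr_ae (Filter.Eventually.of_forall fun x => ?_)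
    simp only
    rw [ENNReal.toReal_ofReal (gd_nonneg x), Complex.real_smul, evr_eq]
  · exact measurable_gd.ennreal_ofReal.aemeasurable
  · exact Filter.Eventually.of_forall fun x => ENNReal.ofReal_lt_top

theorem int_evr (P : MvPolynomial ι ℂ) : Integrable fun x : ι → ℝ => (gd x : ℂ) * evr x P := by
  obtain ⟨C, k, hC, h⟩ := bound_evr P
  have hg : Continuous (gd : (ι → ℝ) → ℝ) := by
    unfold gd
    fun_prop
  refine ((integrable_pow k).const_mul C).mono'
    ((Complex.continuous_ofReal.comp hg).mul (cont_evr P)).aestronglyMeasurable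
    (Filter.Eventually.of_forall fun x => ?_)
  rw [norm_mul, Complex.norm_real, Real.norm_eq_abs, abs_of_nonneg (gd_nonneg x)]
  calc gd x * ‖evr x P‖ ≤ gd x * (C * (1 + tt x) ^ k) :=
        mul_le_mul_of_nonneg_left (h x) (gd_nonneg x)
    _ = _ := by ring

theorem EE_re (P : MvPolynomial ι ℂ) : (EE P).re = GE fun x => (evr x P).re := by
  rw [EE_vol]
  have h := integral_re (int_evr P)
  unfold GE
  refine h.symm.trans ?_
  refine integral_congr_ae (Filter.Eventually.of_forall fun x => ?_)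
  exact Complex.re_ofReal_mul _ _

end poly

section lift

variable {D : Type} [NormedAddCommGroup D] [InnerProductSpace ℂ D]

theorem nice_dec {g : X3 → D} (hg : Nice g) : ∃ (n : ℕ) (w : Fin n → D) (c : Fin n → NT),
    ∀ x, g x = ∑ l, (c l).fn x • w l := by
  obtain ⟨h1, h2, W, hW, h3⟩ := hg
  have := hW
  obtain ⟨b⟩ : Nonempty (OrthonormalBasis (Fin (Module.finrank ℂ W)) ℂ W) :=
    ⟨stdOrthonormalBasis ℂ W⟩
  refine ⟨Module.finrank ℂ W, fun l => (b l : D), fun l =>
    NT.mk (fun x => inner ℂ (b l : D) (g x)) (contDiff_const.inner ℂ h1) ?_, fun x => ?_⟩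
  · refine HasCompactSupport.of_support_subset_isCompact h2 ?_
    intro x hx
    refine subset_tsupport _ ?_
    intro h0
    exact hx (by simp [h0])
  · have h4 := b.sum_repr' ⟨g x, h3 x⟩
    have h5 := congrArg (fun v : W => (v : D)) h4
    simp only [NT.fn_mk]
    refine Eq.trans h5.symm ?_
    simp

theorem NT.fn_sum {T : Type} [Fintype T] (F : T → NT) (x : X3) :
    (∑ t, F t).fn x = ∑ t, (F t).fn x := by
  classical
  have : ∀ s : Finset T, (∑ t ∈ s, F t).fn x = ∑ t ∈ s, (F t).fn x := by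
    intro s
    induction s using Finset.induction_on with
    | empty => simp
    | insert t s ht ih => rw [Finset.sum_insert ht, Finset.sum_insert ht, NT.fn_add, ih]
  exact this Finset.univ

/-- a linear functional applied to a state -/
theorem lt_aux (T : D →ₗ[ℂ] ℂ) {n : ℕ} {w : Fin n → D} {c : Fin n → NT} {g : X3 → D}
    (h : ∀ x, g x = ∑ l, (c l).fn x • w l) :
    (fun x => T (g x)) = (∑ l, T (w l) • c l : NT).fn := by
  funext x
  rw [h, map_sum, NT.fn_sum]
  refine Finset.sum_congr rfl fun l _ => ?_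
  rw [map_smul, NT.fn_smul, smul_eq_mul, mul_comm]

/-- a linear functional applied to a state -/
noncomputable def LT (T : D →ₗ[ℂ] ℂ) (g : X3 → D) (hg : Nice g) : NT :=
  NT.mk (fun x => T (g x)) (by
    obtain ⟨n, w, c, h⟩ := nice_dec hg
    rw [lt_aux T h]
    exact NT.smooth _) (by
    obtain ⟨n, w, c, h⟩ := nice_dec hg
    rw [lt_aux T h]
    exact NT.cpt _)

theorem LT_fn (T : D →ₗ[ℂ] ℂ) (g : X3 → D) (hg : Nice g) (x : X3) :
    (LT T g hg).fn x = T (g x) := rfl

theorem LT_dec (T : D →ₗ[ℂ] ℂ) {n : ℕ} {w : Fin n → D} {c : Fin n → NT} {g : X3 → D}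
    (hg : Nice g) (h : ∀ x, g x = ∑ l, (c l).fn x • w l) : LT T g hg = ∑ l, T (w l) • c l :=
  NT.ext fun x => congrFun (lt_aux T h) x

theorem LT_deriv (T : D →ₗ[ℂ] ℂ) (g : X3 → D) (hg : Nice g) (j : Fin 3)
    (hg' : Nice fun x => fderiv ℝ g x (Pi.single j 1)) :
    LT T (fun x => fderiv ℝ g x (Pi.single j 1)) hg' = dv j (LT T g hg) := by
  obtain ⟨n, w, c, h⟩ := nice_dec hg
  refine NT.ext fun x => ?_
  rw [LT_dec T hg h, map_sum, NT.fn_sum, LT_fn]
  have h1 : HasFDerivAt g (∑ l, (fderiv ℝ (c l).fn x).smulRight (w l)) x := by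
    have h2 : g = fun x => ∑ l, (c l).fn x • w l := funext h
    rw [h2]
    refine HasFDerivAt.fun_sum fun l _ => ?_
    exact (((c l).smooth.differentiable (by simp) x).hasFDerivAt).smul_const (w l)
  rw [h1.fderiv]
  simp only [map_smul, NT.fn_smul, dv_fn]
  rw [sum_apply, map_sum]
  refine Finset.sum_congr rfl fun l _ => ?_
  rw [ContinuousLinearMap.smulRight_apply, map_smul, smul_eq_mul, mul_comm]

theorem LT_add (T : D →ₗ[ℂ] ℂ) (g h : X3 → D) (hg : Nice g) (hh : Nice h)
    (hgh : Nice fun x => g x + h x) :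
    LT T (fun x => g x + h x) hgh = LT T g hg + LT T h hh :=
  NT.ext fun x => by simp only [LT_fn, NT.fn_add, map_add]

theorem LT_sub (T : D →ₗ[ℂ] ℂ) (g h : X3 → D) (hg : Nice g) (hh : Nice h)
    (hgh : Nice fun x => g x - h x) :
    LT T (fun x => g x - h x) hgh = LT T g hg - LT T h hh :=
  NT.ext fun x => by simp only [LT_fn, NT.fn_sub, map_sub]

theorem LT_smul (T : D →ₗ[ℂ] ℂ) (c : ℂ) (g : X3 → D) (hg : Nice g)
    (hcg : Nice fun x => c • g x) : LT T (fun x => c • g x) hcg = c • LT T g hg :=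
  NT.ext fun x => by simp only [LT_fn, NT.fn_smul, map_smul, smul_eq_mul]

theorem inner_dec {m n : ℕ} {w : Fin n → D} {c : Fin n → NT} {g : X3 → D}
    (h : ∀ x, g x = ∑ l, (c l).fn x • w l) {w' : Fin m → D} {c' : Fin m → NT} {g' : X3 → D}
    (h' : ∀ x, g' x = ∑ l, (c' l).fn x • w' l) :
    ∫ x, (inner ℂ (g x) (g' x) : ℂ) =
      ∑ l, ∑ k, (inner ℂ (c l) (c' k) : ℂ) * inner ℂ (w l) (w' k) := by
  have e : ∀ x, (inner ℂ (g x) (g' x) : ℂ) = ∑ l, ∑ k,
      (inner ℂ ((c l).fn x) ((c' k).fn x) : ℂ) * inner ℂ (w l) (w' k) := by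
    intro x
    rw [h, h', sum_inner]
    refine Finset.sum_congr rfl fun l _ => ?_
    rw [inner_sum]
    refine Finset.sum_congr rfl fun k _ => ?_
    rw [inner_smul_left, inner_smul_right, RCLike.inner_apply]
    ring
  simp only [e]
  rw [integral_finsetSum]
  · refine Finset.sum_congr rfl fun l _ => ?_
    rw [integral_finsetSum]
    · refine Finset.sum_congr rfl fun k _ => ?_
      rw [integral_mul_const, inner_def']
    · exact fun k _ => ((c l).int (c' k)).mul_const _
  · exact fun l _ => integrable_finsetSum _ fun k _ => ((c l).int (c' k)).mul_const _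

end lift

section schroedinger

variable {ι : Type} [Fintype ι] [DecidableEq ι] {D : Type} [NormedAddCommGroup D]
  [InnerProductSpace ℂ D] (G : Bosons ι D)

theorem ker_evr {P : MvPolynomial ι ℂ} (h : JJ G P = 0) (x : ι → ℝ) : evr x P = 0 := by
  have h1 := inner_JJ G P P
  rw [h, inner_zero_left] at h1
  have h2 := congrArg Complex.re h1
  rw [EE_re, Complex.zero_re] at h2
  have h3 : ∀ x : ι → ℝ, (evr x (cj P * P)).re = ‖evr x P‖ ^ 2 := by
    intro x
    rw [map_mul, evr_cj, ← Complex.normSq_eq_conj_mul_self, Complex.ofReal_re,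
      Complex.normSq_eq_norm_sq]
  have hT := tm_evr (cj P * P)
  simp only [h3] at h2 hT
  unfold GE at h2
  have h4 := (integral_eq_zero_iff_of_nonneg (fun x =>
    mul_nonneg (gd_nonneg x) (sq_nonneg _)) hT.int).1 h2.symm
  have hg : Continuous (gd : (ι → ℝ) → ℝ) := by
    unfold gd
    fun_prop
  have h5 : (fun x : ι → ℝ => gd x * ‖evr x P‖ ^ 2) = 0 :=
    (Continuous.ae_eq_iff_eq (volume : Measure (ι → ℝ)) (hg.mul ((cont_evr P).norm.pow 2))
      continuous_zero).1 h4
  have h6 := congrFun h5 x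
  have h7 : 0 < gd x := by
    unfold gd
    positivity
  simp only [Pi.zero_apply, mul_eq_zero] at h6
  rcases h6 with h6 | h6
  · exact absurd h6 h7.ne'
  · simpa using h6

/-- a linear right inverse of `JJ` -/
structure RI where
  /-- the polynomial of a vector -/
  T0 : D →ₗ[ℂ] MvPolynomial ι ℂ
  hT : ∀ v, JJ G (T0 v) = v

variable {G} (ri : RI G)

/-- the value of the wave function at the field configuration `y` -/
noncomputable def evy (y : ι → ℝ) : D →ₗ[ℂ] ℂ := (evr y).toLinearMap ∘ₗ ri.T0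

theorem evy_apply (y : ι → ℝ) (v : D) : evy ri y v = evr y (ri.T0 v) := rfl

theorem evy_JJ (y : ι → ℝ) (P : MvPolynomial ι ℂ) : evy ri y (JJ G P) = evr y P := by
  have h : JJ G (ri.T0 (JJ G P) - P) = 0 := by
    rw [map_sub, ri.hT, sub_self]
  have h2 := ker_evr G h y
  rw [map_sub, sub_eq_zero] at h2
  exact h2

theorem evy_a (y : ι → ℝ) (i : ι) (v : D) :
    evy ri y (G.a i v) = evr y (MvPolynomial.pderiv i (ri.T0 v)) := by
  rw [← evy_JJ ri, ← a_JJ, ri.hT]

theorem evy_fld (y : ι → ℝ) (i : ι) (v : D) :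
    evy ri y (G.a i v + G.ad i v) = (y i : ℂ) * evy ri y v := by
  have h := JJ_X G i (ri.T0 v)
  rw [ri.hT] at h
  rw [← h, evy_JJ, map_mul, evr_X, evy_apply]

theorem nice_a {g : X3 → D} (hg : Nice g) (i : ι) : Nice fun x => G.a i (g x) := hg.map _

theorem pairing {g h : X3 → D} (hg : Nice g) (hh : Nice h) : ∃ p : MvPolynomial ι ℂ,
    (∀ y, (inner ℂ (LT (evy ri y) g hg) (LT (evy ri y) h hh) : ℂ) = evr y p) ∧
    (∀ i y, (inner ℂ (LT (evy ri y) _ (nice_a (G := G) hg i)) (LT (evy ri y) h hh) : ℂ) +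
      inner ℂ (LT (evy ri y) g hg) (LT (evy ri y) _ (nice_a (G := G) hh i)) =
      evr y (MvPolynomial.pderiv i p)) ∧
    ∫ x, (inner ℂ (g x) (h x) : ℂ) = EE p := by
  obtain ⟨n, w, c, e⟩ := nice_dec hg
  obtain ⟨m, w', c', e'⟩ := nice_dec hh
  have key : ∀ (S S' : D →ₗ[ℂ] ℂ) (f f' : X3 → D) (hf : Nice f) (hf' : Nice f')
      (v : Fin n → D) (v' : Fin m → D), (∀ x, f x = ∑ l, (c l).fn x • v l) →
      (∀ x, f' x = ∑ l, (c' l).fn x • v' l) →
      (inner ℂ (LT S f hf) (LT S' f' hf') : ℂ) =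
      ∑ l, ∑ k, (inner ℂ (c l) (c' k) : ℂ) * ((starRingEnd ℂ) (S (v l)) * S' (v' k)) := by
    intro S S' f f' hf hf' v v' h1 h2
    rw [LT_dec S hf h1, LT_dec S' hf' h2, sum_inner]
    refine Finset.sum_congr rfl fun l _ => ?_
    rw [inner_sum]
    refine Finset.sum_congr rfl fun k _ => ?_
    rw [inner_smul_left, inner_smul_right]
    ring
  have ea : ∀ i x, G.a i (g x) = ∑ l, (c l).fn x • G.a i (w l) := by
    intro i x
    rw [e, map_sum]
    exact Finset.sum_congr rfl fun l _ => map_smul _ _ _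
  have ea' : ∀ i x, G.a i (h x) = ∑ l, (c' l).fn x • G.a i (w' l) := by
    intro i x
    rw [e', map_sum]
    exact Finset.sum_congr rfl fun l _ => map_smul _ _ _
  refine ⟨∑ l, ∑ k, MvPolynomial.C (inner ℂ (c l) (c' k)) * (cj (ri.T0 (w l)) * ri.T0 (w' k)),
    ?_, ?_, ?_⟩
  · intro y
    rw [key _ _ g h hg hh w w' e e', map_sum]
    refine Finset.sum_congr rfl fun l _ => ?_
    rw [map_sum]
    refine Finset.sum_congr rfl fun k _ => ?_
    rw [map_mul, map_mul, evr_C, evr_cj, evy_apply, evy_apply]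
  · intro i y
    rw [key _ _ _ h _ hh _ w' (ea i) e', key _ _ g _ hg _ w _ e (ea' i),
      ← Finset.sum_add_distrib, map_sum, map_sum]
    refine Finset.sum_congr rfl fun l _ => ?_
    rw [← Finset.sum_add_distrib, map_sum, map_sum]
    refine Finset.sum_congr rfl fun k _ => ?_
    have hc : MvPolynomial.pderiv i (cj (ri.T0 (w l))) = cj (MvPolynomial.pderiv i (ri.T0 (w l))) := by
      unfold cj
      rw [MvPolynomial.pderiv_map]
    rw [Derivation.leibniz, Derivation.leibniz, MvPolynomial.pderiv_C, smul_zero, add_zero]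
    rw [evy_a, evy_a]
    simp only [smul_eq_mul, map_mul, map_add, evr_C, evr_cj, evy_apply, hc]
    ring
  · rw [inner_dec e e']
    have hE : ∀ (s : Type) [Fintype s] (f : s → MvPolynomial ι ℂ), EE (∑ t, f t) = ∑ t, EE (f t) := by
      intro s _ f
      classical
      have : ∀ u : Finset s, EE (∑ t ∈ u, f t) = ∑ t ∈ u, EE (f t) := by
        intro u
        induction u using Finset.induction_on with
        | empty => rw [Finset.sum_empty, Finset.sum_empty, ← MvPolynomial.C_0, EE_C]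
        | insert t u ht ih => rw [Finset.sum_insert ht, Finset.sum_insert ht, EE_add, ih]
      exact this Finset.univ
    rw [hE]
    refine Finset.sum_congr rfl fun l _ => ?_
    rw [hE]
    refine Finset.sum_congr rfl fun k _ => ?_
    have h1 := inner_JJ G (ri.T0 (w l)) (ri.T0 (w' k))
    rw [ri.hT, ri.hT] at h1
    rw [h1, EE_vol, EE_vol, ← integral_const_mul]
    refine integral_congr_ae (Filter.Eventually.of_forall fun x => ?_)
    simp only [map_mul, evr_C]
    ring

end schroedinger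

end Pool.Agent.Helper19_Pauli2
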