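import Pool.Agent.Helper41_Pauli.Assemble
import Pool.Agent.Helper61_Pauli.GaussMoment
import Pool.Agent.Helper61_Pauli.GaussChange

/-!
# MP_8cfbae_mp: the upper bound in small boxes, the trial function
-/

set_option autoImplicit false
set_option linter.unusedSectionVars false

open MeasureTheory Complex

namespace Pool.Agent.Helper19_Pauli2

open Pool.Agent.Helper49_Pauli Pool.Agent.Helper49_Pauli.Asm

/-- the spin up spinor -/
def chi : S2 := ![1, 0]

theorem norm_chi : ‖chi‖ = 1 := by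
  rw [norm_S2]
  simp [chi]

theorem nsq_chi : nsq chi = 1 := by
  simp [nsq, chi]

section trial

variable {ι : Type} [Fintype ι] (k c : ι → X3) (θ : ι → ℝ) (α : ℝ)

/-- amplitude of the correction -/
noncomputable def bw (i : ι) : ℝ :=
  Real.sqrt α / (Pool.Agent.Helper49_Pauli.sq (k i) *
    Real.sqrt (2 * Real.sqrt (Pool.Agent.Helper49_Pauli.sq (k i))))

/-- the first order correction of mode `i` -/
noncomputable def uw (i : ι) (x : X3) : S2 :=
  (((-(bw k α i * Real.sin (ph k θ x i)) : ℝ) : ℂ) * I) • sl (k i) (sl (c i) chi)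

/-- the sum of the corrections -/
noncomputable def ws (y : ι → ℝ) (x : X3) : S2 := ∑ i, (y i : ℂ) • uw k c θ α i x

theorem uw_deriv (i : ι) (x : X3) : ∃ F' : X3 →L[ℝ] S2, HasFDerivAt (uw k c θ α i) F' x ∧
    ∀ j, F' (ee j) = (((-(bw k α i * (Real.cos (ph k θ x i) * k i j)) : ℝ) : ℂ) * I) •
      sl (k i) (sl (c i) chi) := by
  have hf := ((hasFDerivAt_sin_ph k θ x i).const_mul (bw k α i)).neg
  obtain ⟨F', h1, h2⟩ := hasFDerivAt_term (v := fun _ : X3 => chi) I (sl (k i) * sl (c i)) hf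
    (differentiableAt_const chi)
  refine ⟨F', h1, fun j => ?_⟩
  rw [h2]
  have e1 : fderiv ℝ (fun _ : X3 => chi) x (ee j) = 0 := by simp
  rw [e1, map_zero, smul_zero, add_zero]
  have e2 : (-(bw k α i • (Real.cos (ph k θ x i) •
      ∑ j, k i j • (ContinuousLinearMap.proj j : X3 →L[ℝ] ℝ)))) (ee j) =
      -(bw k α i * (Real.cos (ph k θ x i) * k i j)) := by
    simp [Pi.single_apply]
  rw [e2]
  rfl

theorem bw_mul (hk : ∀ i, 0 < Pool.Agent.Helper49_Pauli.sq (k i)) (i : ι) :
    bw k α i * Pool.Agent.Helper49_Pauli.sq (k i) =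
      Real.sqrt α / Real.sqrt (2 * Real.sqrt (Pool.Agent.Helper49_Pauli.sq (k i))) := by
  unfold bw
  have := hk i
  have h2 : 0 < Real.sqrt (2 * Real.sqrt (Pool.Agent.Helper49_Pauli.sq (k i))) :=
    Real.sqrt_pos.2 (by have := Real.sqrt_pos.2 this; positivity)
  field_simp

theorem ws_deriv (y : ι → ℝ) (x : X3) : ∃ F' : X3 →L[ℝ] S2,
    HasFDerivAt (fun x => chi + ws k c θ α y x) F' x ∧
    ∀ j, (-I) • F' (ee j) = -∑ i, (((y i * bw k α i * Real.cos (ph k θ x i) * k i j : ℝ) : ℂ)) •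
      sl (k i) (sl (c i) chi) := by
  choose F' h1 h2 using fun i => uw_deriv k c θ α i x
  refine ⟨∑ i, (y i : ℂ) • F' i, ?_, fun j => ?_⟩
  · refine HasFDerivAt.const_add _ ?_
    refine HasFDerivAt.fun_sum fun i _ => ?_
    exact (h1 i).const_smul (y i : ℂ)
  · rw [sum_apply, Finset.smul_sum, ← Finset.sum_neg_distrib]
    refine Finset.sum_congr rfl fun i _ => ?_
    rw [smul_apply, h2, smul_smul, smul_smul, ← neg_smul]
    congr 1
    generalize Real.cos (ph k θ x i) = cs
    push_cast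
    linear_combination ((y i : ℂ) * bw k α i * cs * k i j) * I_mul_I

theorem ws_diff (y : ι → ℝ) : Differentiable ℝ fun x => chi + ws k c θ α y x := by
  intro x
  obtain ⟨F', h1, _⟩ := ws_deriv k c θ α y x
  exact h1.differentiableAt

theorem dop_ws (hk : ∀ i, 0 < Pool.Agent.Helper49_Pauli.sq (k i)) (y : ι → ℝ) (x : X3) :
    dop (vp α k c θ y) (fun x => chi + ws k c θ α y x) x =
      sl (vp α k c θ y x) (ws k c θ α y x) := by
  obtain ⟨F', h1, h2⟩ := ws_deriv k c θ α y x
  unfold dop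
  have e1 : ∀ j, sg j (cov (vp α k c θ y) j (fun x => chi + ws k c θ α y x) x) =
      sg j ((-I) • F' (ee j)) + ((vp α k c θ y x j : ℝ) : ℂ) • sg j (chi + ws k c θ α y x) := by
    intro j
    rw [cov_eq _ _ _ _ h1.differentiableAt, h1.fderiv, map_add, map_smul _ (_ : ℂ) (chi + _)]
  simp only [e1, h2]
  rw [Finset.sum_add_distrib, ← sl_apply, map_add]
  have e2 : ∑ j, sg j (-∑ i, (((y i * bw k α i * Real.cos (ph k θ x i) * k i j : ℝ) : ℂ)) •
      sl (k i) (sl (c i) chi)) = -sl (vp α k c θ y x) chi := by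
    have e3 : ∀ j, sg j (-∑ i, (((y i * bw k α i * Real.cos (ph k θ x i) * k i j : ℝ) : ℂ)) •
        sl (k i) (sl (c i) chi)) = -∑ i, ((y i * bw k α i * Real.cos (ph k θ x i) : ℝ) : ℂ) •
          ((k i j : ℝ) : ℂ) • sg j (sl (k i) (sl (c i) chi)) := by
      intro j
      rw [map_neg, map_sum]
      congr 1
      refine Finset.sum_congr rfl fun i _ => ?_
      rw [map_smul, smul_smul, ← Complex.ofReal_mul]
    simp only [e3]
    rw [Finset.sum_neg_distrib, Finset.sum_comm]
    congr 1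
    have e4 : ∀ i, ∑ j, ((y i * bw k α i * Real.cos (ph k θ x i) : ℝ) : ℂ) •
          ((k i j : ℝ) : ℂ) • sg j (sl (k i) (sl (c i) chi)) =
        ((y i * Real.cos (ph k θ x i) * (Real.sqrt α /
          Real.sqrt (2 * Real.sqrt (Pool.Agent.Helper49_Pauli.sq (k i)))) : ℝ) : ℂ) •
          sl (c i) chi := by
      intro i
      rw [← Finset.smul_sum, ← sl_apply, sl_sl, smul_smul, ← Complex.ofReal_mul,
        ← bw_mul k α hk i]
      congr 2
      ring
    simp only [e4]
    rw [sl_apply]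
    have e5 : ∀ j, vp α k c θ y x j = ∑ i, (y i * Real.cos (ph k θ x i) * (Real.sqrt α /
          Real.sqrt (2 * Real.sqrt (Pool.Agent.Helper49_Pauli.sq (k i))))) * c i j := by
      intro j
      unfold vp fA
      rw [Pi.smul_apply, smul_eq_mul, Finset.mul_sum]
      refine Finset.sum_congr rfl fun i _ => ?_
      ring
    simp only [e5, sl_apply]
    simp only [Complex.ofReal_sum, Finset.sum_smul, Finset.smul_sum, smul_smul,
      ← Complex.ofReal_mul]
    rw [Finset.sum_comm]
  rw [e2]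
  abel

theorem dop_mul (V : X3 → X3) {g : X3 → ℝ} {f : X3 → S2} {x : X3} (hg : DifferentiableAt ℝ g x)
    (hf : DifferentiableAt ℝ f x) :
    dop V (fun x => (g x : ℂ) • f x) x =
      (∑ j, (-(I * ((fderiv ℝ g x (ee j) : ℝ) : ℂ))) • sg j (f x)) + (g x : ℂ) • dop V f x := by
  have h1 : HasFDerivAt (fun x => (g x : ℂ) • f x)
      (g x • fderiv ℝ f x + (fderiv ℝ g x).smulRight (f x)) x := by
    have := hg.hasFDerivAt.smul hf.hasFDerivAt
    have e : (fun x => (g x : ℂ) • f x) = fun x => g x • f x := by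
      funext x
      exact Complex.coe_smul _ _
    rw [e]
    exact this
  unfold dop
  rw [Finset.smul_sum, ← Finset.sum_add_distrib]
  refine Finset.sum_congr rfl fun j _ => ?_
  rw [cov_eq _ _ _ _ h1.differentiableAt, cov_eq _ _ _ _ hf, h1.fderiv]
  rw [add_apply, smul_apply, ContinuousLinearMap.smulRight_apply, ← Complex.coe_smul,
    ← Complex.coe_smul]
  generalize fderiv ℝ f x (ee j) = d
  generalize fderiv ℝ g x (ee j) = d'
  simp only [map_smul, map_add]
  module

end trial

end Pool.Agent.Helper19_Pauli2
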