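import Pool.Agent.Helper19_Pauli2.Upper1

/-!
# MP_8cfbae_mp: the upper bound in small boxes, pointwise bounds
-/

set_option autoImplicit false
set_option linter.unusedSectionVars false

open MeasureTheory Complex

namespace Pool.Agent.Helper19_Pauli2

open Pool.Agent.Helper49_Pauli Pool.Agent.Helper49_Pauli.Asm

/-- `|∂g|` -/
noncomputable def g1 (g : X3 → ℝ) (x : X3) : ℝ := ∑ j, |fderiv ℝ g x (ee j)|

/-- the density -/
noncomputable def hh (g : X3 → ℝ) (x : X3) : ℝ := g x ^ 2 + g1 g x ^ 2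

theorem hh_nonneg (g : X3 → ℝ) (x : X3) : 0 ≤ hh g x := by
  unfold hh
  positivity

section trial

variable {ι : Type} [Fintype ι] (k c : ι → X3) (θ : ι → ℝ) (α : ℝ) (g : X3 → ℝ)

theorem bw_nonneg (i : ι) : 0 ≤ bw k α i := by
  unfold bw Pool.Agent.Helper49_Pauli.sq
  positivity

theorem uw_bound {A : ℝ} (hA : ∀ i, bw k α i * ((∑ j, |k i j|) * ∑ j, |c i j|) ≤ A) (i : ι)
    (x : X3) : ‖uw k c θ α i x‖ ≤ A := by
  unfold uw
  rw [norm_smul, norm_mul, norm_I, mul_one, Complex.norm_real, Real.norm_eq_abs, abs_neg, abs_mul,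
    abs_of_nonneg (bw_nonneg k α i)]
  have h1 := norm_sl_apply_le (k i) (sl (c i) chi)
  have h2 := norm_sl_apply_le (c i) chi
  rw [norm_chi, mul_one] at h2
  have h3 := Real.abs_sin_le_one (ph k θ x i)
  have h4 := bw_nonneg k α i
  have h5 : 0 ≤ ∑ j, |k i j| := Finset.sum_nonneg fun _ _ => abs_nonneg _
  calc bw k α i * |Real.sin (ph k θ x i)| * ‖sl (k i) (sl (c i) chi)‖ ≤
        bw k α i * 1 * ((∑ j, |k i j|) * ∑ j, |c i j|) := by
        refine mul_le_mul (mul_le_mul_of_nonneg_left h3 h4) (h1.trans ?_) (norm_nonneg _)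
          (by linarith)
        exact mul_le_mul_of_nonneg_left h2 h5
    _ ≤ A := by rw [mul_one]; exact hA i

theorem ws_bound {A : ℝ} (hA : ∀ i, bw k α i * ((∑ j, |k i j|) * ∑ j, |c i j|) ≤ A)
    (y : ι → ℝ) (x : X3) : ‖ws k c θ α y x‖ ≤ A * ∑ i, |y i| := by
  unfold ws
  rw [Finset.mul_sum]
  refine (norm_sum_le _ _).trans (Finset.sum_le_sum fun i _ => ?_)
  rw [norm_smul, Complex.norm_real, Real.norm_eq_abs, mul_comm]
  exact mul_le_mul_of_nonneg_right (uw_bound k c θ α hA i x) (abs_nonneg _)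

theorem vp_bound {B : ℝ} (hB : ∀ i, (∑ j, |c i j|) * (Real.sqrt α /
    Real.sqrt (2 * Real.sqrt (Pool.Agent.Helper49_Pauli.sq (k i)))) ≤ B)
    (y : ι → ℝ) (x : X3) : ∑ j, |vp α k c θ y x j| ≤ B * ∑ i, |y i| := by
  have e5 : ∀ j, vp α k c θ y x j = ∑ i, (y i * Real.cos (ph k θ x i) * (Real.sqrt α /
        Real.sqrt (2 * Real.sqrt (Pool.Agent.Helper49_Pauli.sq (k i))))) * c i j := by
    intro j
    unfold vp fA
    rw [Pi.smul_apply, smul_eq_mul, Finset.mul_sum]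
    refine Finset.sum_congr rfl fun i _ => ?_
    ring
  have e6 : ∀ j, |vp α k c θ y x j| ≤ ∑ i, |y i| * (|c i j| * (Real.sqrt α /
        Real.sqrt (2 * Real.sqrt (Pool.Agent.Helper49_Pauli.sq (k i))))) := by
    intro j
    rw [e5]
    refine (Finset.abs_sum_le_sum_abs _ _).trans (Finset.sum_le_sum fun i _ => ?_)
    have h0 : 0 ≤ Real.sqrt α / Real.sqrt (2 * Real.sqrt (Pool.Agent.Helper49_Pauli.sq (k i))) := by
      positivity
    rw [abs_mul, abs_mul, abs_mul, abs_of_nonneg h0]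
    have h3 := Real.abs_cos_le_one (ph k θ x i)
    calc |y i| * |Real.cos (ph k θ x i)| * (Real.sqrt α /
          Real.sqrt (2 * Real.sqrt (Pool.Agent.Helper49_Pauli.sq (k i)))) * |c i j| ≤
          |y i| * 1 * (Real.sqrt α /
          Real.sqrt (2 * Real.sqrt (Pool.Agent.Helper49_Pauli.sq (k i)))) * |c i j| := by gcongr
      _ = _ := by ring
  refine (Finset.sum_le_sum fun j _ => e6 j).trans ?_
  rw [Finset.sum_comm, Finset.mul_sum]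
  refine Finset.sum_le_sum fun i _ => ?_
  rw [← Finset.mul_sum, ← Finset.sum_mul, mul_comm]
  exact mul_le_mul_of_nonneg_right (hB i) (abs_nonneg _)

theorem abs_sum_sq (y : ι → ℝ) : (∑ i, |y i|) ^ 2 ≤ Fintype.card ι * ∑ i, y i ^ 2 := by
  have h := sq_sum_le_card_mul_sum_sq (s := Finset.univ) (f := fun i => |y i|)
  simpa [sq_abs] using h

theorem sg_sum_bound (g : X3 → ℝ) (x : X3) (f : S2) :
    ‖∑ j, (-(I * ((fderiv ℝ g x (ee j) : ℝ) : ℂ))) • sg j f‖ ≤ g1 g x * ‖f‖ := by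
  unfold g1
  rw [Finset.sum_mul]
  refine (norm_sum_le _ _).trans (Finset.sum_le_sum fun j _ => ?_)
  rw [norm_smul, norm_neg, norm_mul, norm_I, one_mul, Complex.norm_real, Real.norm_eq_abs,
    norm_sg_apply]

theorem D_bound (hk : ∀ i, 0 < Pool.Agent.Helper49_Pauli.sq (k i)) {A B : ℝ}
    (hA : ∀ i, bw k α i * ((∑ j, |k i j|) * ∑ j, |c i j|) ≤ A)
    (hB : ∀ i, (∑ j, |c i j|) * (Real.sqrt α /
      Real.sqrt (2 * Real.sqrt (Pool.Agent.Helper49_Pauli.sq (k i)))) ≤ B) 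
    (hB0 : 0 ≤ B) (hg : Differentiable ℝ g) (y : ι → ℝ) (x : X3) :
    nsq (dop (vp α k c θ y) (fun x => (g x : ℂ) • (chi + ws k c θ α y x)) x) ≤
      hh g x * (8 + 8 * A ^ 2 * Fintype.card ι * (∑ i, y i ^ 2) +
        4 * A ^ 2 * B ^ 2 * Fintype.card ι ^ 2 * (∑ i, y i ^ 2) ^ 2) := by
  rw [dop_mul _ (hg x) (ws_diff k c θ α y x), dop_ws k c θ α hk]
  obtain ⟨S, hS⟩ : ∃ S, S = ∑ i, |y i| := ⟨_, rfl⟩
  have hS0 : 0 ≤ S := by rw [hS]; exact Finset.sum_nonneg fun _ _ => abs_nonneg _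
  have hS2 := abs_sum_sq y
  rw [← hS] at hS2
  have w1 := ws_bound k c θ α hA y x
  have v1 := vp_bound k c θ α hB y x
  rw [← hS] at w1 v1
  have n1 : ‖chi + ws k c θ α y x‖ ≤ 1 + A * S := by
    refine (norm_add_le _ _).trans ?_
    rw [norm_chi]
    linarith
  have n2 : ‖sl (vp α k c θ y x) (ws k c θ α y x)‖ ≤ (B * S) * (A * S) := by
    refine (norm_sl_apply_le _ _).trans ?_
    exact mul_le_mul v1 w1 (norm_nonneg _) (by positivity)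
  have hg10 : 0 ≤ g1 g x := Finset.sum_nonneg fun _ _ => abs_nonneg _
  have n3 : ‖(∑ j, (-(I * ((fderiv ℝ g x (ee j) : ℝ) : ℂ))) • sg j (chi + ws k c θ α y x)) +
      (g x : ℂ) • sl (vp α k c θ y x) (ws k c θ α y x)‖ ≤
      g1 g x * (1 + A * S) + |g x| * ((B * S) * (A * S)) := by
    refine (norm_add_le _ _).trans (add_le_add ?_ ?_)
    · exact (sg_sum_bound g x _).trans (mul_le_mul_of_nonneg_left n1 hg10)
    · rw [norm_smul, Complex.norm_real, Real.norm_eq_abs]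
      exact mul_le_mul_of_nonneg_left n2 (abs_nonneg _)
  refine (nsq_le _).trans ?_
  have n4 : ‖(∑ j, (-(I * ((fderiv ℝ g x (ee j) : ℝ) : ℂ))) • sg j (chi + ws k c θ α y x)) +
      (g x : ℂ) • sl (vp α k c θ y x) (ws k c θ α y x)‖ ^ 2 ≤
      (g1 g x * (1 + A * S) + |g x| * ((B * S) * (A * S))) ^ 2 := by gcongr
  obtain ⟨t, ht⟩ : ∃ t, t = ∑ i, y i ^ 2 := ⟨_, rfl⟩
  obtain ⟨m, hm⟩ : ∃ m : ℝ, m = Fintype.card ι := ⟨_, rfl⟩
  rw [← ht, ← hm] at hS2 ⊢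
  have ht0 : 0 ≤ t := by rw [ht]; exact Finset.sum_nonneg fun _ _ => sq_nonneg _
  have hm0 : 0 ≤ m := by rw [hm]; exact Nat.cast_nonneg _
  have q1 : (g1 g x * (1 + A * S) + |g x| * ((B * S) * (A * S))) ^ 2 ≤
      2 * (g1 g x * (1 + A * S)) ^ 2 + 2 * (|g x| * ((B * S) * (A * S))) ^ 2 := by
    nlinarith [sq_nonneg (g1 g x * (1 + A * S) - |g x| * ((B * S) * (A * S)))]
  have q2 : (g1 g x * (1 + A * S)) ^ 2 ≤ g1 g x ^ 2 * (2 + 2 * A ^ 2 * (m * t)) := by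
    rw [mul_pow]
    refine mul_le_mul_of_nonneg_left ?_ (sq_nonneg _)
    have : (A * S) ^ 2 ≤ A ^ 2 * (m * t) := by
      rw [mul_pow]
      exact mul_le_mul_of_nonneg_left hS2 (sq_nonneg _)
    nlinarith [sq_nonneg (1 - A * S)]
  have q3 : (|g x| * ((B * S) * (A * S))) ^ 2 ≤ g x ^ 2 * (A ^ 2 * B ^ 2 * (m * t) ^ 2) := by
    have : (S ^ 2) ^ 2 ≤ (m * t) ^ 2 := by gcongr
    calc (|g x| * ((B * S) * (A * S))) ^ 2 = |g x| ^ 2 * (A ^ 2 * B ^ 2 * (S ^ 2) ^ 2) := by ring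
      _ = g x ^ 2 * (A ^ 2 * B ^ 2 * (S ^ 2) ^ 2) := by rw [sq_abs]
      _ ≤ _ := by gcongr
  unfold hh
  have q4 : 0 ≤ g x ^ 2 * (8 + 8 * A ^ 2 * m * t) := by positivity
  have q5 : 0 ≤ g1 g x ^ 2 * (4 * A ^ 2 * B ^ 2 * m ^ 2 * t ^ 2) := by positivity
  nlinarith

theorem E_bound {A κ W : ℝ} (hA : ∀ i, bw k α i * ((∑ j, |k i j|) * ∑ j, |c i j|) ≤ A)
    (hW : ∀ i, Real.sqrt (Pool.Agent.Helper49_Pauli.sq (k i)) ≤ W)
    (hW0 : 0 ≤ W) (y : ι → ℝ) (x : X3) :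
    ∑ i, Real.sqrt (Pool.Agent.Helper49_Pauli.sq (k i)) * nsq ((g x : ℂ) • uw k c θ α i x +
      ((-(κ * y i / 2) : ℝ) : ℂ) • ((g x : ℂ) • (chi + ws k c θ α y x))) ≤
      hh g x * (W * (4 * Fintype.card ι * A ^ 2) + W * (2 * κ ^ 2) * (∑ i, y i ^ 2) +
        W * (2 * κ ^ 2 * A ^ 2 * Fintype.card ι) * (∑ i, y i ^ 2) ^ 2) := by
  obtain ⟨S, hS⟩ : ∃ S, S = ∑ i, |y i| := ⟨_, rfl⟩
  have hS0 : 0 ≤ S := by rw [hS]; exact Finset.sum_nonneg fun _ _ => abs_nonneg _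
  have hS2 := abs_sum_sq y
  rw [← hS] at hS2
  have w1 := ws_bound k c θ α hA y x
  rw [← hS] at w1
  have n1 : ‖chi + ws k c θ α y x‖ ≤ 1 + A * S := by
    refine (norm_add_le _ _).trans ?_
    rw [norm_chi]
    linarith
  obtain ⟨t, ht⟩ : ∃ t, t = ∑ i, y i ^ 2 := ⟨_, rfl⟩
  obtain ⟨m, hm⟩ : ∃ m : ℝ, m = Fintype.card ι := ⟨_, rfl⟩
  have ht0 : 0 ≤ t := by rw [ht]; exact Finset.sum_nonneg fun _ _ => sq_nonneg _
  have hm0 : 0 ≤ m := by rw [hm]; exact Nat.cast_nonneg _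
  rw [← ht, ← hm] at hS2 ⊢
  have q1 : nsq (chi + ws k c θ α y x) ≤ 4 + 4 * A ^ 2 * (m * t) := by
    refine (nsq_le _).trans ?_
    have h1 : ‖chi + ws k c θ α y x‖ ^ 2 ≤ (1 + A * S) ^ 2 := by gcongr
    have : (A * S) ^ 2 ≤ A ^ 2 * (m * t) := by
      rw [mul_pow]
      exact mul_le_mul_of_nonneg_left hS2 (sq_nonneg _)
    nlinarith [sq_nonneg (1 - A * S)]
  have q2 : ∀ i, nsq (uw k c θ α i x) ≤ 2 * A ^ 2 := by
    intro i
    refine (nsq_le _).trans ?_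
    have := uw_bound k c θ α hA i x
    gcongr
  have q3 : ∀ i, nsq ((g x : ℂ) • uw k c θ α i x +
      ((-(κ * y i / 2) : ℝ) : ℂ) • ((g x : ℂ) • (chi + ws k c θ α y x))) ≤
      g x ^ 2 * (4 * A ^ 2 + κ ^ 2 * y i ^ 2 * (2 + 2 * A ^ 2 * (m * t))) := by
    intro i
    refine (nsq_add_le _ _).trans ?_
    rw [nsq_smul, nsq_smul, nsq_smul, Complex.norm_real, Complex.norm_real, Real.norm_eq_abs,
      Real.norm_eq_abs, sq_abs, sq_abs]
    have h1 := mul_le_mul_of_nonneg_left (q2 i) (sq_nonneg (g x))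
    have h2 : (-(κ * y i / 2)) ^ 2 * (g x ^ 2 * nsq (chi + ws k c θ α y x)) ≤
        (-(κ * y i / 2)) ^ 2 * (g x ^ 2 * (4 + 4 * A ^ 2 * (m * t))) := by gcongr
    nlinarith
  have q4 : ∀ i, Real.sqrt (Pool.Agent.Helper49_Pauli.sq (k i)) * nsq ((g x : ℂ) • uw k c θ α i x +
      ((-(κ * y i / 2) : ℝ) : ℂ) • ((g x : ℂ) • (chi + ws k c θ α y x))) ≤
      W * (g x ^ 2 * (4 * A ^ 2 + κ ^ 2 * y i ^ 2 * (2 + 2 * A ^ 2 * (m * t)))) := fun i =>
    mul_le_mul (hW i) (q3 i) (nsq_nonneg _) hW0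
  refine (Finset.sum_le_sum fun i _ => q4 i).trans ?_
  have e1 : ∑ i, W * (g x ^ 2 * (4 * A ^ 2 + κ ^ 2 * y i ^ 2 * (2 + 2 * A ^ 2 * (m * t)))) =
      g x ^ 2 * (W * (4 * m * A ^ 2) + W * (2 * κ ^ 2) * t +
        W * (2 * κ ^ 2 * A ^ 2 * m) * t ^ 2) := by
    have e2 : ∑ i, (4 * A ^ 2 + κ ^ 2 * y i ^ 2 * (2 + 2 * A ^ 2 * (m * t))) =
        m * (4 * A ^ 2) + κ ^ 2 * t * (2 + 2 * A ^ 2 * (m * t)) := by
      rw [Finset.sum_add_distrib, Finset.sum_const, Finset.card_univ, nsmul_eq_mul, ← hm,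
        ← Finset.sum_mul, ← Finset.mul_sum, ← ht]
    rw [← Finset.mul_sum, ← Finset.mul_sum, e2]
    ring
  rw [e1]
  refine mul_le_mul_of_nonneg_right ?_ (by positivity)
  unfold hh
  have := sq_nonneg (g1 g x)
  linarith

end trial

end Pool.Agent.Helper19_Pauli2
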