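import Pool.Agent.Helper19_Pauli2.Upper2

/-!
# MP_8cfbae_mp: the upper bound in small boxes, Gaussian integrals
-/

set_option autoImplicit false
set_option linter.unusedSectionVars false

open MeasureTheory Complex ProbabilityTheory

namespace Pool.Agent.Helper19_Pauli2

open Pool.Agent.Helper49_Pauli Pool.Agent.Helper49_Pauli.Asm Pool.Agent.Helper61_Pauli

variable {ι : Type} [Fintype ι] [DecidableEq ι]

/-- the scalar quadratic form -/
noncomputable def KK (κ : ℝ) (i j : ι) : ℝ := if i = j then κ else 0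

theorem KK_symm (κ : ℝ) (i j : ι) : KK κ i j = KK κ j i := by
  unfold KK
  by_cases h : i = j
  · rw [if_pos h, if_pos h.symm]
  · rw [if_neg h, if_neg (fun h' => h h'.symm)]

theorem quad_KK (κ : ℝ) (y : ι → ℝ) : quad (KK κ) y = κ * ∑ i, y i ^ 2 := by
  unfold quad KK
  rw [Finset.mul_sum]
  refine Finset.sum_congr rfl fun i _ => ?_
  simp
  ring

theorem ldq_KK (κ : ℝ) (y : ι → ℝ) (i : ι) : ldq (KK κ) 0 y i = -(κ * y i / 2) := by
  unfold ldq KK
  simp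

/-- the change of variables -/
theorem change (κ : ℝ) (hκ : 0 ≤ κ) :
    ∃ (T : EuclideanSpace ℝ ι →ₗ[ℝ] EuclideanSpace ℝ ι) (Z : ℝ), 0 < Z ∧
      (∀ i z, (T z i) ^ 2 ≤ (1 + κ)⁻¹ * ‖z‖ ^ 2) ∧
      ∀ G : (ι → ℝ) → ENNReal, Measurable G →
        ∫⁻ y, ENNReal.ofReal (squeezed (KK κ) 0 (fun i => y i) ^ 2) * G (fun i => y i)
            ∂stdGaussian (EuclideanSpace ℝ ι) =
          ENNReal.ofReal Z * ∫⁻ z, G (fun i => T z i) ∂stdGaussian (EuclideanSpace ℝ ι) := by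
  obtain ⟨T, Z, hZ, hT, hG⟩ := gaussChange ι (KK κ) 0 (KK_symm κ) (fun y => by
    rw [quad_KK]
    have : 0 ≤ ∑ i, y i ^ 2 := Finset.sum_nonneg fun _ _ => sq_nonneg _
    positivity)
  refine ⟨T, Z, hZ, fun i z => ?_, fun G hGm => ?_⟩
  · have h1 := hT z
    rw [quad_KK] at h1
    have h2 : ‖T z‖ ^ 2 = ∑ i, T z i ^ 2 := EuclideanSpace.real_norm_sq_eq _
    rw [← h2] at h1
    have h3 : ‖T z‖ ^ 2 = (1 + κ)⁻¹ * ‖z‖ ^ 2 := by
      rw [← h1]
      field_simp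
    rw [← h3, h2]
    exact Finset.single_le_sum (f := fun i => T z i ^ 2) (fun _ _ => sq_nonneg _)
      (Finset.mem_univ i)
  · rw [hG G hGm]
    congr 1
    refine lintegral_congr fun z => ?_
    congr 1
    funext i
    simp

/-- component functional -/
noncomputable def lc (T : EuclideanSpace ℝ ι →ₗ[ℝ] EuclideanSpace ℝ ι) (i : ι) :
    EuclideanSpace ℝ ι →ₗ[ℝ] ℝ where
  toFun z := T z i
  map_add' z z' := by simp
  map_smul' r z := by simp

theorem cont_lc (T : EuclideanSpace ℝ ι →ₗ[ℝ] EuclideanSpace ℝ ι) (i : ι) :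
    Continuous fun z => T z i :=
  (LinearMap.toContinuousLinearMap (lc T i)).continuous

theorem moments (T : EuclideanSpace ℝ ι →ₗ[ℝ] EuclideanSpace ℝ ι) {β : ℝ} (hβ : 0 ≤ β)
    (hT : ∀ i z, (T z i) ^ 2 ≤ β * ‖z‖ ^ 2) {c0 c2 c4 : ℝ} (h0 : 0 ≤ c0) (h2 : 0 ≤ c2)
    (h4 : 0 ≤ c4) :
    ∫⁻ z, ENNReal.ofReal (c0 + c2 * (∑ i, T z i ^ 2) + c4 * (∑ i, T z i ^ 2) ^ 2)
      ∂stdGaussian (EuclideanSpace ℝ ι) ≤
      ENNReal.ofReal (c0 + c2 * (Fintype.card ι * β) +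
        c4 * (3 * Fintype.card ι ^ 2 * β ^ 2)) := by
  have e : ∀ z, ENNReal.ofReal (c0 + c2 * (∑ i, T z i ^ 2) + c4 * (∑ i, T z i ^ 2) ^ 2) =
      (ENNReal.ofReal c0 + ENNReal.ofReal c2 * ∑ i, ENNReal.ofReal (T z i ^ 2)) +
        ENNReal.ofReal c4 * ∑ i, ∑ j, ENNReal.ofReal (T z i ^ 2 * T z j ^ 2) := by
    intro z
    have s0 : 0 ≤ ∑ i, T z i ^ 2 := Finset.sum_nonneg fun _ _ => sq_nonneg _
    rw [ENNReal.ofReal_add (by positivity) (by positivity),
      ENNReal.ofReal_add h0 (by positivity), ENNReal.ofReal_mul h2, ENNReal.ofReal_mul h4,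
      ENNReal.ofReal_sum_of_nonneg fun _ _ => sq_nonneg _]
    congr 2
    rw [pow_two, Finset.sum_mul_sum, ENNReal.ofReal_sum_of_nonneg]
    · refine Finset.sum_congr rfl fun i _ => ?_
      rw [ENNReal.ofReal_sum_of_nonneg]
      exact fun _ _ => by positivity
    · exact fun _ _ => Finset.sum_nonneg fun _ _ => by positivity
  simp only [e]
  have c1 : ∀ i, Measurable fun z => ENNReal.ofReal (T z i ^ 2) := fun i =>
    ((cont_lc T i).pow 2).measurable.ennreal_ofReal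
  have c2' : ∀ i j, Measurable fun z => ENNReal.ofReal (T z i ^ 2 * T z j ^ 2) := fun i j =>
    (((cont_lc T i).pow 2).mul ((cont_lc T j).pow 2)).measurable.ennreal_ofReal
  have m1 : ∀ i j, (∫⁻ z, ENNReal.ofReal (T z i ^ 2) ∂stdGaussian (EuclideanSpace ℝ ι) ≤
      ENNReal.ofReal β) ∧ (∫⁻ z, ENNReal.ofReal (T z i ^ 2 * T z j ^ 2)
        ∂stdGaussian (EuclideanSpace ℝ ι) ≤ ENNReal.ofReal (3 * β * β)) := fun i j =>
    (gaussMoment ι (lc T i) (lc T j) β β hβ hβ (hT i) (hT j)).2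
  rw [lintegral_add_left, lintegral_add_left measurable_const, lintegral_const,
    lintegral_const_mul, lintegral_finsetSum, lintegral_const_mul, lintegral_finsetSum]
  · have e2 : ∀ i, ∫⁻ z, ∑ j, ENNReal.ofReal (T z i ^ 2 * T z j ^ 2)
        ∂stdGaussian (EuclideanSpace ℝ ι) = ∑ j, ∫⁻ z, ENNReal.ofReal (T z i ^ 2 * T z j ^ 2)
        ∂stdGaussian (EuclideanSpace ℝ ι) := fun i => lintegral_finsetSum _ fun j _ => c2' i j
    simp only [e2]
    have e3 : ENNReal.ofReal (c0 + c2 * (Fintype.card ι * β) +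
        c4 * (3 * Fintype.card ι ^ 2 * β ^ 2)) =
        (ENNReal.ofReal c0 * (stdGaussian (EuclideanSpace ℝ ι)) Set.univ + ENNReal.ofReal c2 *
          ∑ _i : ι, ENNReal.ofReal β) + ENNReal.ofReal c4 * ∑ _i : ι, ∑ _j : ι,
            ENNReal.ofReal (3 * β * β) := by
      rw [ENNReal.ofReal_add (by positivity) (by positivity),
        ENNReal.ofReal_add h0 (by positivity), ENNReal.ofReal_mul h2, ENNReal.ofReal_mul h4,
        measure_univ, mul_one, Finset.sum_const, Finset.sum_const, Finset.sum_const,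
        Finset.card_univ, nsmul_eq_mul, nsmul_eq_mul, nsmul_eq_mul,
        ← ENNReal.ofReal_natCast, ← ENNReal.ofReal_mul (Nat.cast_nonneg _),
        ← ENNReal.ofReal_mul (Nat.cast_nonneg _), ← ENNReal.ofReal_mul (Nat.cast_nonneg _)]
      congr 3
      ring
    rw [e3]
    gcongr with i _ i _ j _
    · exact (m1 i i).1
    · exact (m1 i j).2
  · exact fun i _ => Finset.measurable_sum _ fun j _ => c2' i j
  · exact Finset.measurable_sum _ fun i _ => Finset.measurable_sum _ fun j _ => c2' i j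
  · exact fun i _ => c1 i
  · exact Finset.measurable_sum _ fun i _ => c1 i
  · exact measurable_const.add ((Finset.measurable_sum _ fun i _ => c1 i).const_mul _)

theorem poly_bound {κ : ℝ} (hκ : 0 ≤ κ) {T : EuclideanSpace ℝ ι →ₗ[ℝ] EuclideanSpace ℝ ι} {Z : ℝ}
    (hZ : 0 < Z) (hT : ∀ i z, (T z i) ^ 2 ≤ (1 + κ)⁻¹ * ‖z‖ ^ 2)
    (hG : ∀ G : (ι → ℝ) → ENNReal, Measurable G →
        ∫⁻ y, ENNReal.ofReal (squeezed (KK κ) 0 (fun i => y i) ^ 2) * G (fun i => y i)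
            ∂stdGaussian (EuclideanSpace ℝ ι) =
          ENNReal.ofReal Z * ∫⁻ z, G (fun i => T z i) ∂stdGaussian (EuclideanSpace ℝ ι))
    {h : X3 → ℝ} (hi : Integrable h) (hh0 : ∀ x, 0 ≤ h x)
    {c0 c2 c4 : ℝ} (h0 : 0 ≤ c0) (h2 : 0 ≤ c2) (h4 : 0 ≤ c4) {Φ : (ι → ℝ) → X3 → ℝ}
    (hΦ : ∀ y x, Φ y x ≤ h x * (c0 + c2 * (∑ i, y i ^ 2) + c4 * (∑ i, y i ^ 2) ^ 2)) :
    ∫⁻ y, ∫⁻ x, ENNReal.ofReal (squeezed (KK κ) 0 (fun i => y i) ^ 2 * Φ (fun i => y i) x)
      ∂volume ∂stdGaussian (EuclideanSpace ℝ ι) ≤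
      ENNReal.ofReal (Z * (∫ x, h x) * (c0 + c2 * (Fintype.card ι * (1 + κ)⁻¹) +
        c4 * (3 * Fintype.card ι ^ 2 * (1 + κ)⁻¹ ^ 2))) := by
  have hqm : Measurable fun y : ι → ℝ => ENNReal.ofReal (c0 + c2 * (∑ i, y i ^ 2) +
      c4 * (∑ i, y i ^ 2) ^ 2) * ENNReal.ofReal (∫ x, h x) := by
    have : Continuous fun y : ι → ℝ => c0 + c2 * (∑ i, y i ^ 2) + c4 * (∑ i, y i ^ 2) ^ 2 := by
      fun_prop
    exact this.measurable.ennreal_ofReal.mul_const _
  have step : ∀ y : ι → ℝ, ∫⁻ x, ENNReal.ofReal (squeezed (KK κ) 0 y ^ 2 * Φ y x) ≤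
      ENNReal.ofReal (squeezed (KK κ) 0 y ^ 2) * (ENNReal.ofReal (c0 + c2 * (∑ i, y i ^ 2) +
      c4 * (∑ i, y i ^ 2) ^ 2) * ENNReal.ofReal (∫ x, h x)) := by
    intro y
    have s0 : 0 ≤ ∑ i, y i ^ 2 := Finset.sum_nonneg fun _ _ => sq_nonneg _
    have s1 : 0 ≤ c0 + c2 * (∑ i, y i ^ 2) + c4 * (∑ i, y i ^ 2) ^ 2 := by positivity
    have s2 : ∀ x, ENNReal.ofReal (squeezed (KK κ) 0 y ^ 2 * Φ y x) ≤
        (ENNReal.ofReal (squeezed (KK κ) 0 y ^ 2) * ENNReal.ofReal (c0 + c2 * (∑ i, y i ^ 2) +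
      c4 * (∑ i, y i ^ 2) ^ 2)) * ENNReal.ofReal (h x) := by
      intro x
      rw [← ENNReal.ofReal_mul (sq_nonneg _), ← ENNReal.ofReal_mul (by positivity)]
      refine ENNReal.ofReal_le_ofReal ?_
      calc squeezed (KK κ) 0 y ^ 2 * Φ y x ≤ squeezed (KK κ) 0 y ^ 2 *
            (h x * (c0 + c2 * (∑ i, y i ^ 2) + c4 * (∑ i, y i ^ 2) ^ 2)) :=
            mul_le_mul_of_nonneg_left (hΦ y x) (sq_nonneg _)
        _ = _ := by ring
    refine (lintegral_mono s2).trans ?_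
    rw [lintegral_const_mul' _ _ (ENNReal.mul_ne_top ENNReal.ofReal_ne_top ENNReal.ofReal_ne_top),
      ← ofReal_integral_eq_lintegral_ofReal hi (Filter.Eventually.of_forall hh0), mul_assoc]
  refine (lintegral_mono fun y : EuclideanSpace ℝ ι => step fun i => y i).trans ?_
  rw [hG _ hqm]
  have hH0 : 0 ≤ ∫ x, h x := integral_nonneg hh0
  rw [lintegral_mul_const' _ _ ENNReal.ofReal_ne_top]
  have hm := moments T (inv_nonneg.2 (by linarith : 0 ≤ 1 + κ)) hT h0 h2 h4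
  have e : ENNReal.ofReal (Z * (∫ x, h x) * (c0 + c2 * (Fintype.card ι * (1 + κ)⁻¹) +
        c4 * (3 * Fintype.card ι ^ 2 * (1 + κ)⁻¹ ^ 2))) = ENNReal.ofReal Z *
      (ENNReal.ofReal (c0 + c2 * (Fintype.card ι * (1 + κ)⁻¹) +
        c4 * (3 * Fintype.card ι ^ 2 * (1 + κ)⁻¹ ^ 2)) * ENNReal.ofReal (∫ x, h x)) := by
    rw [ENNReal.ofReal_mul (by positivity), ENNReal.ofReal_mul hZ.le, mul_assoc]
    congr 1
    exact mul_comm _ _
  rw [e]
  gcongr

theorem ofReal_integral_le {β : Type*} [MeasurableSpace β] {μ : Measure β} {f : β → ℝ}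
    (hf : Integrable f μ) :
    ENNReal.ofReal (∫ a, f a ∂μ) ≤ ∫⁻ a, ENNReal.ofReal (f a) ∂μ := by
  rw [integral_eq_lintegral_pos_part_sub_lintegral_neg_part hf]
  exact (ENNReal.ofReal_le_ofReal (sub_le_self _ ENNReal.toReal_nonneg)).trans
    ENNReal.ofReal_toReal_le

theorem nsq_chi_add (w : S2) : 1 + 2 * (w 0).re ≤ nsq (chi + w) := by
  have e : nsq (chi + w) = (1 + (w 0).re) ^ 2 + (w 0).im ^ 2 + ‖w 1‖ ^ 2 := by
    rw [nsq, Fin.sum_univ_two]
    simp only [Pi.add_apply, chi, Matrix.cons_val_zero, Matrix.cons_val_one, zero_add]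
    rw [← Complex.normSq_eq_norm_sq, Complex.normSq_apply]
    simp
    ring
  rw [e]
  nlinarith [sq_nonneg (w 0).re, sq_nonneg (w 0).im, sq_nonneg ‖w 1‖]

section norm

variable (k c : ι → X3) (θ : ι → ℝ) (α : ℝ) (g : X3 → ℝ)

theorem uw_diff (i : ι) : Differentiable ℝ (uw k c θ α i) := fun x => by
  obtain ⟨F', h1, _⟩ := uw_deriv k c θ α i x
  exact h1.differentiableAt

theorem cont_nf (hg : Continuous g) : Continuous fun z : (ι → ℝ) × X3 =>
    nsq ((g z.2 : ℂ) • (chi + ws k c θ α z.1 z.2)) := by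
  refine Asm.continuous_nsq.comp ?_
  have h1 : ∀ i, Continuous (uw k c θ α i) := fun i => (uw_diff k c θ α i).continuous
  have h2 : Continuous fun z : (ι → ℝ) × X3 => ws k c θ α z.1 z.2 := by
    unfold ws
    refine continuous_finsetSum _ fun i _ => ?_
    have h4 : Continuous fun z : (ι → ℝ) × X3 => ((z.1 i : ℝ) : ℂ) := by fun_prop
    exact h4.smul ((h1 i).comp continuous_snd)
  have h3 : Continuous fun z : (ι → ℝ) × X3 => ((g z.2 : ℝ) : ℂ) := by fun_prop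
  exact h3.smul (continuous_const.add h2)

theorem fixed (T : EuclideanSpace ℝ ι →ₗ[ℝ] EuclideanSpace ℝ ι) (x : X3) :
    ENNReal.ofReal (g x ^ 2) ≤
      ∫⁻ z, ENNReal.ofReal (nsq ((g x : ℂ) • (chi + ws k c θ α (fun i => T z i) x)))
        ∂stdGaussian (EuclideanSpace ℝ ι) := by
  obtain ⟨Lf, hLf⟩ : ∃ Lf : StrongDual ℝ (EuclideanSpace ℝ ι), Lf =
    LinearMap.toContinuousLinearMap (∑ i, (uw k c θ α i x 0).re • lc T i) := ⟨_, rfl⟩
  have hL : ∀ z, Lf z = (ws k c θ α (fun i => T z i) x 0).re := by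
    intro z
    have e1 : Lf z = (∑ i, (uw k c θ α i x 0).re • lc T i) z := by rw [hLf]; rfl
    rw [e1, LinearMap.sum_apply]
    unfold ws
    rw [Finset.sum_apply, Complex.re_sum]
    refine Finset.sum_congr rfl fun i _ => ?_
    rw [Pi.smul_apply, smul_eq_mul, Complex.re_ofReal_mul, LinearMap.smul_apply, smul_eq_mul,
      mul_comm]
    rfl
  have h0 : ∫ z, Lf z ∂stdGaussian (EuclideanSpace ℝ ι) = 0 := integral_strongDual_stdGaussian Lf
  have hi : Integrable (fun z => Lf z) (stdGaussian (EuclideanSpace ℝ ι)) :=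
    IsGaussian.integrable_dual _ Lf
  have h1 : ∫ z, (g x ^ 2 + g x ^ 2 * 2 * Lf z) ∂stdGaussian (EuclideanSpace ℝ ι) =
      g x ^ 2 := by
    rw [integral_add (integrable_const _) (hi.const_mul _), integral_const_mul, h0]
    simp
  calc ENNReal.ofReal (g x ^ 2)
      = ENNReal.ofReal (∫ z, (g x ^ 2 + g x ^ 2 * 2 * Lf z)
          ∂stdGaussian (EuclideanSpace ℝ ι)) := by rw [h1]
    _ ≤ ∫⁻ z, ENNReal.ofReal (g x ^ 2 + g x ^ 2 * 2 * Lf z)
          ∂stdGaussian (EuclideanSpace ℝ ι) :=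
        ofReal_integral_le ((integrable_const _).add (hi.const_mul _))
    _ ≤ _ := by
        refine lintegral_mono fun z => ENNReal.ofReal_le_ofReal ?_
        rw [hL, nsq_smul, Complex.norm_real, Real.norm_eq_abs, sq_abs]
        have := mul_le_mul_of_nonneg_left (nsq_chi_add (ws k c θ α (fun i => T z i) x))
          (sq_nonneg (g x))
        linarith

theorem norm_part {κ : ℝ} {T : EuclideanSpace ℝ ι →ₗ[ℝ] EuclideanSpace ℝ ι} {Z : ℝ}
    (hZ : 0 < Z)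
    (hG : ∀ G : (ι → ℝ) → ENNReal, Measurable G →
        ∫⁻ y, ENNReal.ofReal (squeezed (KK κ) 0 (fun i => y i) ^ 2) * G (fun i => y i)
            ∂stdGaussian (EuclideanSpace ℝ ι) =
          ENNReal.ofReal Z * ∫⁻ z, G (fun i => T z i) ∂stdGaussian (EuclideanSpace ℝ ι))
    (hg : Continuous g) (hgi : Integrable fun x => g x ^ 2) :
    ENNReal.ofReal (Z * ∫ x, g x ^ 2) ≤
      ∫⁻ y, ∫⁻ x, ENNReal.ofReal (squeezed (KK κ) 0 (fun i => y i) ^ 2 *
        nsq ((g x : ℂ) • (chi + ws k c θ α (fun i => y i) x)))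
        ∂volume ∂stdGaussian (EuclideanSpace ℝ ι) := by
  have hcs := cont_nf k c θ α g hg
  have hmeas : Measurable fun y : ι → ℝ => ∫⁻ x,
      ENNReal.ofReal (nsq ((g x : ℂ) • (chi + ws k c θ α y x))) :=
    Measurable.lintegral_prod_right'
      (f := fun z : (ι → ℝ) × X3 => ENNReal.ofReal
        (nsq ((g z.2 : ℂ) • (chi + ws k c θ α z.1 z.2))))
      (hcs.measurable.ennreal_ofReal)
  have h1 : ∀ y : EuclideanSpace ℝ ι,
      ∫⁻ x, ENNReal.ofReal (squeezed (KK κ) 0 (fun i => y i) ^ 2 *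
        nsq ((g x : ℂ) • (chi + ws k c θ α (fun i => y i) x))) =
      ENNReal.ofReal (squeezed (KK κ) 0 (fun i => y i) ^ 2) *
        ∫⁻ x, ENNReal.ofReal (nsq ((g x : ℂ) • (chi + ws k c θ α (fun i => y i) x))) := by
    intro y
    rw [← lintegral_const_mul']
    · refine lintegral_congr fun x => ?_
      rw [ENNReal.ofReal_mul (sq_nonneg _)]
    · exact ENNReal.ofReal_ne_top
  simp only [h1]
  rw [hG (fun y => ∫⁻ x, ENNReal.ofReal (nsq ((g x : ℂ) • (chi + ws k c θ α y x)))) hmeas,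
    ENNReal.ofReal_mul hZ.le]
  gcongr
  have hc : Continuous fun z : (EuclideanSpace ℝ ι) × X3 =>
      nsq ((g z.2 : ℂ) • (chi + ws k c θ α (fun i => T z.1 i) z.2)) := by
    have h1 : Continuous fun z : (EuclideanSpace ℝ ι) × X3 =>
        (((fun i => T z.1 i) : ι → ℝ), z.2) :=
      Continuous.prodMk (continuous_pi fun i => (cont_lc T i).comp continuous_fst)
        continuous_snd
    have h2 := hcs.comp h1
    simpa only [Function.comp_def] using h2
  rw [lintegral_lintegral_swap hc.measurable.ennreal_ofReal.aemeasurable]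
  calc ENNReal.ofReal (∫ x, g x ^ 2) ≤ ∫⁻ x, ENNReal.ofReal (g x ^ 2) := ofReal_integral_le hgi
    _ ≤ _ := lintegral_mono fun x => fixed k c θ α g T x

end norm

end Pool.Agent.Helper19_Pauli2
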