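import Pool.Agent.Helper19_Pauli2.XSpace

/-!
# MP_8cfbae_mp: the Pauli identity and the magnetic lower bound for a fixed field
-/

set_option autoImplicit false

open MeasureTheory Complex

namespace Pool.Agent.Helper19_Pauli2

open Pool.Agent.Helper49_Pauli

section pauli

variable (a : Fin 3 → X3 → ℝ) (ha : ∀ j, Sm (a j))

/-- first component of the Dirac operator -/
noncomputable def D0 (f0 f1 : NT) : NT := pj a ha 0 f1 - I • pj a ha 1 f1 + pj a ha 2 f0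
/-- second component of the Dirac operator -/
noncomputable def D1 (f0 f1 : NT) : NT := pj a ha 0 f0 + I • pj a ha 1 f0 - pj a ha 2 f1

/-- the expectation of `sigma . b` -/
noncomputable def sf (b : Fin 3 → X3 → ℝ) (hb : ∀ j, Sm (b j)) (f0 f1 : NT) : ℂ :=
  inner ℂ f0 (ml (b 0) (hb 0) f1) + inner ℂ f1 (ml (b 0) (hb 0) f0) -
    I * inner ℂ f0 (ml (b 1) (hb 1) f1) + I * inner ℂ f1 (ml (b 1) (hb 1) f0) +
    inner ℂ f0 (ml (b 2) (hb 2) f0) - inner ℂ f1 (ml (b 2) (hb 2) f1)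

/-- `b` is the curl of `a` -/
def IsCurl (a b : Fin 3 → X3 → ℝ) : Prop :=
  ∀ x, b 0 x = dmul (a 2) 1 x - dmul (a 1) 2 x ∧ b 1 x = dmul (a 0) 2 x - dmul (a 2) 0 x ∧
    b 2 x = dmul (a 1) 0 x - dmul (a 0) 1 x

theorem ml_sub' {b c d : X3 → ℝ} (hb : Sm b) (hc : Sm c) (hd : Sm d) (h : ∀ x, b x = c x - d x)
    (f : NT) : ml b hb f = ml c hc f - ml d hd f := by
  refine NT.ext fun x => ?_
  simp only [ml_fn, NT.fn_sub, h]
  push_cast
  ring

theorem pair01 {b : Fin 3 → X3 → ℝ} (hb : ∀ j, Sm (b j)) (h : IsCurl a b) (f g : NT) :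
    (inner ℂ (pj a ha 0 f) (pj a ha 1 g) : ℂ) - inner ℂ (pj a ha 1 f) (pj a ha 0 g) =
      -I * inner ℂ f (ml (b 2) (hb 2) g) := by
  rw [pj_pair, ml_sub' (hb 2) ((ha 1).dmul 0) ((ha 0).dmul 1) (fun x => (h x).2.2),
    inner_sub_right]

theorem pair20 {b : Fin 3 → X3 → ℝ} (hb : ∀ j, Sm (b j)) (h : IsCurl a b) (f g : NT) :
    (inner ℂ (pj a ha 2 f) (pj a ha 0 g) : ℂ) - inner ℂ (pj a ha 0 f) (pj a ha 2 g) =
      -I * inner ℂ f (ml (b 1) (hb 1) g) := by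
  rw [pj_pair, ml_sub' (hb 1) ((ha 0).dmul 2) ((ha 2).dmul 0) (fun x => (h x).2.1),
    inner_sub_right]

theorem pair12 {b : Fin 3 → X3 → ℝ} (hb : ∀ j, Sm (b j)) (h : IsCurl a b) (f g : NT) :
    (inner ℂ (pj a ha 1 f) (pj a ha 2 g) : ℂ) - inner ℂ (pj a ha 2 f) (pj a ha 1 g) =
      -I * inner ℂ f (ml (b 0) (hb 0) g) := by
  rw [pj_pair, ml_sub' (hb 0) ((ha 2).dmul 1) ((ha 1).dmul 2) (fun x => (h x).1),
    inner_sub_right]

/-- the Pauli identity, complex form -/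
theorem pauli_c {b : Fin 3 → X3 → ℝ} (hb : ∀ j, Sm (b j)) (h : IsCurl a b) (f0 f1 : NT) :
    (inner ℂ (D0 a ha f0 f1) (D0 a ha f0 f1) : ℂ) + inner ℂ (D1 a ha f0 f1) (D1 a ha f0 f1) =
      (∑ j, ((inner ℂ (pj a ha j f0) (pj a ha j f0) : ℂ) +
        inner ℂ (pj a ha j f1) (pj a ha j f1))) + sf b hb f0 f1 := by
  have h1 := pair01 a ha hb h f1 f1
  have h2 := pair01 a ha hb h f0 f0
  have h3 := pair20 a ha hb h f1 f0
  have h4 := pair20 a ha hb h f0 f1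
  have h5 := pair12 a ha hb h f1 f0
  have h6 := pair12 a ha hb h f0 f1
  have hI : I * I = -1 := Complex.I_mul_I
  simp only [D0, D1, sf, Fin.sum_univ_three, inner_add_left, inner_add_right, inner_sub_left,
    inner_sub_right, inner_smul_left, inner_smul_right, Complex.conj_I]
  linear_combination (-I) * h1 + I * h2 - h3 + h4 + I * h5 + I * h6 +
    (-(inner ℂ (pj a ha 1 f1) (pj a ha 1 f1) + inner ℂ (pj a ha 1 f0) (pj a ha 1 f0) -
      inner ℂ f1 (ml (b 2) (hb 2) f1) + inner ℂ f0 (ml (b 2) (hb 2) f0) +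
      inner ℂ f1 (ml (b 0) (hb 0) f0) + inner ℂ f0 (ml (b 0) (hb 0) f1))) * hI

/-- the Pauli identity -/
theorem pauli {b : Fin 3 → X3 → ℝ} (hb : ∀ j, Sm (b j)) (h : IsCurl a b) (f0 f1 : NT) :
    ‖D0 a ha f0 f1‖ ^ 2 + ‖D1 a ha f0 f1‖ ^ 2 =
      (∑ j, (‖pj a ha j f0‖ ^ 2 + ‖pj a ha j f1‖ ^ 2)) + (sf b hb f0 f1).re := by
  have h1 := congrArg Complex.re (pauli_c a ha hb h f0 f1)
  have e : ∀ f : NT, (inner ℂ f f : ℂ).re = ‖f‖ ^ 2 := fun f =>
    (norm_sq_eq_re_inner (𝕜 := ℂ) f).symm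
  simp only [Complex.add_re, Complex.re_sum, e] at h1
  exact h1

/-- the Dirac operator is symmetric -/
theorem dirac_symm' (f0 f1 g0 g1 : NT) :
    (inner ℂ f0 (D0 a ha g0 g1) : ℂ) + inner ℂ f1 (D1 a ha g0 g1) =
      inner ℂ (D0 a ha f0 f1) g0 + inner ℂ (D1 a ha f0 f1) g1 := by
  simp only [D0, D1, inner_add_left, inner_add_right, inner_sub_left,
    inner_sub_right, inner_smul_left, inner_smul_right, Complex.conj_I, pj_symm]
  ring

end pauli

section magnetic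

variable (a : Fin 3 → X3 → ℝ) (ha : ∀ j, Sm (a j))

theorem ml_bound {b : X3 → ℝ} (hb : Sm b) {β : ℝ} (hβ : 0 ≤ β) (h : ∀ x, |b x| ≤ β) (f : NT) :
    ‖ml b hb f‖ ≤ β * ‖f‖ := by
  refine le_of_sq_le_sq ?_ (by positivity)
  rw [mul_pow, norm_sq_def, norm_sq_def, ← integral_const_mul]
  have hi : ∀ g : NT, Integrable fun x => ‖g.fn x‖ ^ 2 := by
    intro g
    have := (g.int g).re
    refine this.congr (Filter.Eventually.of_forall fun x => ?_)
    exact inner_self_eq_norm_sq (𝕜 := ℂ) _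
  refine integral_mono (hi _) ((hi f).const_mul _) fun x => ?_
  simp only [ml_fn, norm_mul, Complex.norm_real, Real.norm_eq_abs, mul_pow]
  have h1 : |b x| ^ 2 ≤ β ^ 2 := by
    have := h x
    gcongr
  nlinarith [sq_nonneg ‖f.fn x‖]

/-- oscillating multipliers have small expectation -/
theorem osc (q : X3) (φ : ℝ) (hs : Sm fun x => Real.sin (dot q x - φ))
    (hc : Sm fun x => Real.cos (dot q x - φ)) (j : Fin 3) (u : NT) :
    |q j| * ‖(inner ℂ u (ml _ hc u) : ℂ)‖ ≤ 2 * (‖u‖ * ‖pj a ha j u‖) := by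
  have e1 : ∀ x, dmul (fun x => Real.sin (dot q x - φ)) j x = q j * Real.cos (dot q x - φ) := by
    intro x
    have h0 : HasFDerivAt (fun x : X3 => dot q x) (∑ i, q i • (ContinuousLinearMap.proj i :
        X3 →L[ℝ] ℝ)) x := by
      have : (fun x : X3 => dot q x) = fun x => (∑ i, q i • (ContinuousLinearMap.proj i :
        X3 →L[ℝ] ℝ)) x := by
        funext x
        simp [dot]
      rw [this]
      exact ContinuousLinearMap.hasFDerivAt _
    have h1 := ((h0.sub_const φ).sin).fderiv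
    unfold dmul
    rw [h1]
    simp [Pi.single_apply]
    ring
  have h2 : (inner ℂ (pj a ha j u) (ml _ hs u) : ℂ) - inner ℂ (ml _ hs u) (pj a ha j u) =
      -I * ((q j : ℂ) * inner ℂ u (ml _ hc u)) := by
    rw [← pj_symm, pj_ml, inner_add_right, ← ml_symm, inner_smul_right]
    have e2 : ml _ (hs.dmul j) u = (q j : ℂ) • ml _ hc u := by
      refine NT.ext fun x => ?_
      simp only [ml_fn, NT.fn_smul, e1]
      push_cast
      ring
    rw [e2, inner_smul_right]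
    ring
  have h3 : ‖ml _ hs u‖ ≤ ‖u‖ := by
    have := ml_bound hs (β := 1) zero_le_one (fun x => Real.abs_sin_le_one _) u
    linarith
  have h4 : |q j| * ‖(inner ℂ u (ml _ hc u) : ℂ)‖ =
      ‖(inner ℂ (pj a ha j u) (ml _ hs u) : ℂ) - inner ℂ (ml _ hs u) (pj a ha j u)‖ := by
    rw [h2, norm_mul, norm_mul, norm_neg, Complex.norm_I, one_mul, Complex.norm_real,
      Real.norm_eq_abs]
  rw [h4]
  calc _ ≤ ‖(inner ℂ (pj a ha j u) (ml _ hs u) : ℂ)‖ + ‖(inner ℂ (ml _ hs u) (pj a ha j u) : ℂ)‖ :=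
        norm_sub_le _ _
    _ ≤ ‖pj a ha j u‖ * ‖ml _ hs u‖ + ‖ml _ hs u‖ * ‖pj a ha j u‖ :=
        add_le_add (norm_inner_le_norm _ _) (norm_inner_le_norm _ _)
    _ ≤ ‖pj a ha j u‖ * ‖u‖ + ‖u‖ * ‖pj a ha j u‖ := by gcongr
    _ = _ := by ring

/-- the commutator bound for one component of the field -/
theorem comp_bound {j k : Fin 3} {b : X3 → ℝ} (hb : Sm b)
    (h : ∀ x, b x = dmul (a k) j x - dmul (a j) k x) {β0 β1 p : ℝ} (h0 : 0 ≤ β0) (h1 : 0 ≤ β1)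
    (hβ0 : ∀ x, |b x| ≤ β0) (hβ1 : ∀ i x, |dmul b i x| ≤ β1) (u : NT)
    (hp : ∀ i, ‖pj a ha i u‖ ≤ p) :
    ‖ml b hb u‖ ^ 2 ≤ 2 * β0 * p ^ 2 + 2 * β1 * ‖u‖ * p := by
  have hp0 : 0 ≤ p := (norm_nonneg _).trans (hp 0)
  have h2 : (inner ℂ (pj a ha j (ml b hb u)) (pj a ha k u) : ℂ) -
      inner ℂ (pj a ha k (ml b hb u)) (pj a ha j u) =
      -I * inner ℂ (ml b hb u) (ml b hb u) := by
    rw [pj_pair, ml_sub' hb ((ha k).dmul j) ((ha j).dmul k) h, inner_sub_right]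
  have h3 : ∀ i, ‖pj a ha i (ml b hb u)‖ ≤ β0 * p + β1 * ‖u‖ := by
    intro i
    rw [pj_ml]
    refine (norm_add_le _ _).trans ?_
    rw [norm_smul, norm_neg, Complex.norm_I, one_mul]
    refine add_le_add ?_ (ml_bound _ h1 (hβ1 i) u)
    exact (ml_bound _ h0 hβ0 _).trans (mul_le_mul_of_nonneg_left (hp i) h0)
  have h4 : ‖ml b hb u‖ ^ 2 = ‖(inner ℂ (ml b hb u) (ml b hb u) : ℂ)‖ := by
    rw [inner_self_eq_norm_sq_to_K]
    simp
  have h5 : ‖ml b hb u‖ ^ 2 = ‖(inner ℂ (pj a ha j (ml b hb u)) (pj a ha k u) : ℂ) -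
      inner ℂ (pj a ha k (ml b hb u)) (pj a ha j u)‖ := by
    rw [h4, h2, norm_mul, norm_neg, Complex.norm_I, one_mul]
  rw [h5]
  calc _ ≤ ‖(inner ℂ (pj a ha j (ml b hb u)) (pj a ha k u) : ℂ)‖ +
        ‖(inner ℂ (pj a ha k (ml b hb u)) (pj a ha j u) : ℂ)‖ := norm_sub_le _ _
    _ ≤ ‖pj a ha j (ml b hb u)‖ * ‖pj a ha k u‖ + ‖pj a ha k (ml b hb u)‖ * ‖pj a ha j u‖ :=
        add_le_add (norm_inner_le_norm _ _) (norm_inner_le_norm _ _)
    _ ≤ (β0 * p + β1 * ‖u‖) * p + (β0 * p + β1 * ‖u‖) * p := by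
        have e1 := h3 j
        have e2 := h3 k
        have e3 := hp j
        have e4 := hp k
        gcongr
    _ = _ := by ring

/-- the magnetic bound: abstract form -/
theorem magnetic {b : Fin 3 → X3 → ℝ} (hb : ∀ j, Sm (b j)) (h : IsCurl a b)
    {β0 β1 p m0 q0 : ℝ} (h0 : 0 ≤ β0) (h1 : 0 ≤ β1)
    (hβ0 : ∀ l x, |b l x| ≤ β0) (hβ1 : ∀ l i x, |dmul (b l) i x| ≤ β1) (u : NT)
    (hp : ∀ i, ‖pj a ha i u‖ ≤ p) {S : Type} [Fintype S] (w : S → ℝ) (q : S → X3) (φ : S → ℝ)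
    (hq0 : 0 < q0) (hq : ∀ r, ∃ j, q0 ≤ |q r j|)
    (hB : ∀ x, ∑ l, b l x ^ 2 = m0 + ∑ r, w r * Real.cos (dot (q r) x - φ r)) :
    m0 * ‖u‖ ^ 2 ≤ 2 / q0 * (∑ r, |w r|) * (‖u‖ * p) + 6 * β0 * p ^ 2 + 6 * β1 * ‖u‖ * p := by
  have hp0 : 0 ≤ p := (norm_nonneg _).trans (hp 0)
  have hdot : ∀ r, Sm fun x : X3 => dot (q r) x - φ r := by
    intro r
    unfold Sm dot
    fun_prop
  have hc : ∀ r, Sm fun x : X3 => Real.cos (dot (q r) x - φ r) := fun r =>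
    Real.contDiff_cos.comp (hdot r)
  have hs : ∀ r, Sm fun x : X3 => Real.sin (dot (q r) x - φ r) := fun r =>
    Real.contDiff_sin.comp (hdot r)
  have e0 : (∑ l, (inner ℂ (ml (b l) (hb l) u) (ml (b l) (hb l) u) : ℂ)) =
      (m0 : ℂ) * inner ℂ u u + ∑ r, (w r : ℂ) * inner ℂ u (ml _ (hc r) u) := by
    have k1 : ∀ l, (inner ℂ (ml (b l) (hb l) u) (ml (b l) (hb l) u) : ℂ) =
        inner ℂ u (ml (b l) (hb l) (ml (b l) (hb l) u)) := fun l => (ml_symm _ _ _ _).symm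
    have k2 : (∑ l, ml (b l) (hb l) (ml (b l) (hb l) u)) =
        (m0 : ℂ) • u + ∑ r, (w r : ℂ) • ml _ (hc r) u := by
      refine NT.ext fun x => ?_
      have k3 : ∀ (T : Type) [Fintype T] (F : T → NT), (∑ t, F t).fn x = ∑ t, (F t).fn x := by
        intro T _ F
        classical
        have : ∀ s : Finset T, (∑ t ∈ s, F t).fn x = ∑ t ∈ s, (F t).fn x := by
          intro s
          induction s using Finset.induction_on with
          | empty => simp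
          | insert t s ht ih => rw [Finset.sum_insert ht, Finset.sum_insert ht, NT.fn_add, ih]
        exact this Finset.univ
      rw [k3, NT.fn_add, k3]
      simp only [ml_fn, NT.fn_smul]
      have k4 := congrArg Complex.ofReal (hB x)
      rw [Complex.ofReal_sum, Complex.ofReal_add, Complex.ofReal_sum] at k4
      simp only [Complex.ofReal_mul, pow_two] at k4
      simp only [← mul_assoc]
      rw [← Finset.sum_mul, ← Finset.sum_mul, ← add_mul, ← k4]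
    simp only [k1]
    rw [← inner_sum, k2, inner_add_right, inner_smul_right, inner_sum]
    congr 1
    exact Finset.sum_congr rfl fun r _ => inner_smul_right _ _ _
  have e1 : (m0 : ℂ) * inner ℂ u u = (∑ l, (inner ℂ (ml (b l) (hb l) u) (ml (b l) (hb l) u) : ℂ)) -
      ∑ r, (w r : ℂ) * inner ℂ u (ml _ (hc r) u) := by
    rw [e0]; ring
  have e2 := congrArg Complex.re e1
  have e3 : ∀ f : NT, (inner ℂ f f : ℂ).re = ‖f‖ ^ 2 := fun f =>
    (norm_sq_eq_re_inner (𝕜 := ℂ) f).symm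
  rw [Complex.re_ofReal_mul, Complex.sub_re, Complex.re_sum, Complex.re_sum, e3] at e2
  simp only [e3, Complex.re_ofReal_mul] at e2
  rw [e2]
  have e4 : ∑ l, ‖ml (b l) (hb l) u‖ ^ 2 ≤ 6 * β0 * p ^ 2 + 6 * β1 * ‖u‖ * p := by
    rw [Fin.sum_univ_three]
    have c0 := comp_bound a ha (hb 0) (fun x => (h x).1) h0 h1 (hβ0 0) (hβ1 0) u hp
    have c1 := comp_bound a ha (hb 1) (fun x => (h x).2.1) h0 h1 (hβ0 1) (hβ1 1) u hp
    have c2 := comp_bound a ha (hb 2) (fun x => (h x).2.2) h0 h1 (hβ0 2) (hβ1 2) u hp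
    linarith
  have e5 : -∑ r, w r * (inner ℂ u (ml _ (hc r) u) : ℂ).re ≤ 2 / q0 * (∑ r, |w r|) * (‖u‖ * p) := by
    rw [← Finset.sum_neg_distrib, Finset.mul_sum, Finset.sum_mul]
    refine Finset.sum_le_sum fun r _ => ?_
    obtain ⟨j, hj⟩ := hq r
    have k1 := osc a ha (q r) (φ r) (hs r) (hc r) j u
    have k2 : q0 * ‖(inner ℂ u (ml _ (hc r) u) : ℂ)‖ ≤ 2 * (‖u‖ * p) := by
      calc _ ≤ |q r j| * ‖(inner ℂ u (ml _ (hc r) u) : ℂ)‖ := by gcongr
        _ ≤ 2 * (‖u‖ * ‖pj a ha j u‖) := k1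
        _ ≤ _ := by
          have := hp j
          gcongr
    have k3 : ‖(inner ℂ u (ml _ (hc r) u) : ℂ)‖ ≤ 2 / q0 * (‖u‖ * p) := by
      rw [div_mul_eq_mul_div, le_div_iff₀ hq0]
      linarith
    calc _ ≤ |w r * (inner ℂ u (ml _ (hc r) u) : ℂ).re| := neg_le_abs _
      _ = |w r| * |(inner ℂ u (ml _ (hc r) u) : ℂ).re| := abs_mul _ _
      _ ≤ |w r| * ‖(inner ℂ u (ml _ (hc r) u) : ℂ)‖ := by
          gcongr
          exact Complex.abs_re_le_norm _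
      _ ≤ |w r| * (2 / q0 * (‖u‖ * p)) := by gcongr
      _ = _ := by ring
  linarith

end magnetic

end Pool.Agent.Helper19_Pauli2
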